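import Mathlib

/-!
A local action of a normed space on a set extends to a global action.
-/

set_option autoImplicit false

namespace Pool.Agent.Q185.MK

variable {W L : Type} [NormedAddCommGroup W] [NormedSpace ℝ W]

/-- the extended action at level `n` -/
noncomputable def lev (T : W → L → L) (n : ℕ) (w : W) : L → L := (T (((2 : ℝ) ^ n)⁻¹ • w))^[2 ^ n]

section
variable {T : W → L → L} {ρ : ℝ}
  (hT : ∀ w w' : W, ‖w‖ < ρ → ‖w'‖ < ρ → ‖w + w'‖ < ρ → T (w + w') = T w ∘ T w')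

theorem norm_level (n : ℕ) (w : W) : ‖((2 : ℝ) ^ n)⁻¹ • w‖ = ‖w‖ / 2 ^ n := by
  rw [norm_smul, norm_inv, norm_pow, Real.norm_eq_abs, abs_of_pos two_pos, div_eq_inv_mul]

include hT in
theorem lev_succ {n : ℕ} {w : W} (h : ‖w‖ < 2 ^ n * ρ) : lev T (n + 1) w = lev T n w := by
  have h2 : (0 : ℝ) < 2 ^ n := by positivity
  have h3 : ‖((2 : ℝ) ^ n)⁻¹ • w‖ < ρ := by
    rw [norm_level, div_lt_iff₀ h2, mul_comm]
    exact h
  have h4 : ‖((2 : ℝ) ^ (n + 1))⁻¹ • w‖ < ρ := by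
    rw [norm_level, pow_succ, ← div_div]
    rw [norm_level] at h3
    have : 0 ≤ ‖w‖ / 2 ^ n := by positivity
    linarith
  have h5 : ((2 : ℝ) ^ n)⁻¹ • w = ((2 : ℝ) ^ (n + 1))⁻¹ • w + ((2 : ℝ) ^ (n + 1))⁻¹ • w := by
    rw [← add_smul, pow_succ, mul_inv]
    congr 1
    ring
  unfold lev
  rw [h5, hT _ _ h4 h4 (by rw [← h5]; exact h3)]
  have h6 : T (((2 : ℝ) ^ (n + 1))⁻¹ • w) ∘ T (((2 : ℝ) ^ (n + 1))⁻¹ • w) =
      (T (((2 : ℝ) ^ (n + 1))⁻¹ • w))^[2] := rfl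
  have h7 : (2 : ℕ) ^ (n + 1) = 2 * 2 ^ n := by ring
  rw [h6, ← Function.iterate_mul, h7]

include hT in
theorem lev_mono (hρ : 0 < ρ) {n : ℕ} {w : W} (h : ‖w‖ < 2 ^ n * ρ) (m : ℕ) :
    lev T (n + m) w = lev T n w := by
  induction m with
  | zero => rfl
  | succ m ih =>
    rw [← add_assoc, lev_succ hT, ih]
    refine h.trans_le ?_
    have : (2 : ℝ) ^ n ≤ 2 ^ (n + m) := pow_le_pow_right₀ one_le_two (Nat.le_add_right n m)
    exact mul_le_mul_of_nonneg_right this hρ.le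

include hT in
theorem lev_add {n : ℕ} {w w' : W} (h : ‖w‖ < 2 ^ n * ρ) (h' : ‖w'‖ < 2 ^ n * ρ)
    (h'' : ‖w + w'‖ < 2 ^ n * ρ) : lev T n (w + w') = lev T n w ∘ lev T n w' := by
  have h2 : (0 : ℝ) < 2 ^ n := by positivity
  have key : ∀ w : W, ‖w‖ < 2 ^ n * ρ → ‖((2 : ℝ) ^ n)⁻¹ • w‖ < ρ := by
    intro w hw
    rw [norm_level, div_lt_iff₀ h2, mul_comm]
    exact hw
  have h3 : Function.Commute (T (((2 : ℝ) ^ n)⁻¹ • w)) (T (((2 : ℝ) ^ n)⁻¹ • w')) := by
    intro x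
    have k1 := hT _ _ (key w h) (key w' h') (by rw [← smul_add]; exact key _ h'')
    have k2 := hT _ _ (key w' h') (key w h) (by rw [← smul_add, add_comm w' w]; exact key _ h'')
    rw [add_comm] at k2
    have := congrFun (k1.symm.trans k2) x
    exact this
  unfold lev
  rw [smul_add, hT _ _ (key w h) (key w' h') (by rw [← smul_add]; exact key _ h''),
    h3.comp_iterate]

include hT in
/-- the extension -/
theorem exists_action (hρ : 0 < ρ) : ∃ A : W → L → L, (∀ w w', A (w + w') = A w ∘ A w') ∧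
    (∀ w, ‖w‖ < ρ → A w = T w) ∧ ∀ (P : W → Prop), (∀ w (n : ℕ), P w → P (((2 : ℝ) ^ n)⁻¹ • w)) →
      (∀ w, P w → ‖w‖ < ρ → T w = id) → ∀ w, P w → A w = id := by
  have hex : ∀ w : W, ∃ n : ℕ, ‖w‖ < 2 ^ n * ρ := by
    intro w
    obtain ⟨n, hn⟩ := pow_unbounded_of_one_lt (‖w‖ / ρ) one_lt_two
    exact ⟨n, (div_lt_iff₀ hρ).1 hn⟩
  choose N hN using hex
  have hA : ∀ w n, N w ≤ n → lev T n w = lev T (N w) w := by
    intro w n hn
    obtain ⟨m, rfl⟩ := Nat.exists_eq_add_of_le hn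
    exact lev_mono hT hρ (hN w) m
  have hbig : ∀ w n, N w ≤ n → ‖w‖ < 2 ^ n * ρ := by
    intro w n hn
    refine (hN w).trans_le ?_
    exact mul_le_mul_of_nonneg_right (pow_le_pow_right₀ one_le_two hn) hρ.le
  refine ⟨fun w => lev T (N w) w, fun w w' => ?_, fun w hw => ?_, fun P hP hid w hw => ?_⟩
  · obtain ⟨n, hn⟩ : ∃ n, n = max (N (w + w')) (max (N w) (N w')) := ⟨_, rfl⟩
    have e1 : N (w + w') ≤ n := by rw [hn]; exact le_max_left _ _
    have e2 : N w ≤ n := by rw [hn]; exact (le_max_left _ _).trans (le_max_right _ _)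
    have e3 : N w' ≤ n := by rw [hn]; exact (le_max_right _ _).trans (le_max_right _ _)
    show lev T (N (w + w')) (w + w') = lev T (N w) w ∘ lev T (N w') w'
    rw [← hA _ n e1, ← hA _ n e2, ← hA _ n e3]
    exact lev_add hT (hbig _ _ e2) (hbig _ _ e3) (hbig _ _ e1)
  · have h0 : ‖w‖ < 2 ^ 0 * ρ := by rw [pow_zero, one_mul]; exact hw
    have h1 := lev_mono hT hρ h0 (N w)
    rw [zero_add] at h1
    show lev T (N w) w = T w
    rw [h1]
    unfold lev
    rw [pow_zero, pow_zero, inv_one, one_smul, Function.iterate_one]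
  · show lev T (N w) w = id
    unfold lev
    rw [hid _ (hP w (N w) hw), Function.iterate_id]
    rw [norm_level, div_lt_iff₀ (by positivity), mul_comm]
    exact hN w

end

end Pool.Agent.Q185.MK
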