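import Pool.Agent.Q185.MK.Solv

/-!
Closed affine manifolds with an invariant subspace on which the linear holonomy has discompacity at
most one modulo complete directions, and bounded quotient.
-/

set_option autoImplicit false

open Set Filter Topology Metric
open scoped commutatorElement

namespace Pool.Agent.Q185.MK

open Pool.Agent.W689.Mk (lin hol_add hol_sub hol_inv_apply hol_apply_inv lin_inv_apply lin_mul
  lin_smul lin_neg hol_cont Sec Ex Geod Geod.ex sec_of_Ex exists_sec)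
open Pool.Agent.TH569.MK Pool.Agent.Y449.MK
open Pool.Agent.W689.Ch (AffMfd)

section
variable {G E : Type} [Group G] [NormedAddCommGroup E] [NormedSpace ℝ E] [FiniteDimensional ℝ E]
  {hol : G →* (E ≃ᵃ[ℝ] E)}

/-- area factor on the plane of `w` and `w'` with coordinates `f`, `g` -/
def Dl (hol : G →* (E ≃ᵃ[ℝ] E)) (f g : E →ₗ[ℝ] ℝ) (w w' : E) (γ : G) : ℝ :=
  f (lin hol γ w) * g (lin hol γ w') - g (lin hol γ w) * f (lin hol γ w')

theorem Dl_mul {f g : E →ₗ[ℝ] ℝ} {w w' : E} {V1 : Submodule ℝ E} (hw : w ∈ V1) (hw' : w' ∈ V1)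
    (hfg : ∀ v ∈ V1, v = f v • w + g v • w') {γ δ : G} (hδ : ∀ v ∈ V1, lin hol δ v ∈ V1) :
    Dl hol f g w w' (γ * δ) = Dl hol f g w w' γ * Dl hol f g w w' δ := by
  have e1 : lin hol (γ * δ) w = f (lin hol δ w) • lin hol γ w + g (lin hol δ w) • lin hol γ w' := by
    rw [lin_mul]
    conv_lhs => rw [hfg _ (hδ w hw)]
    rw [lin_add', lin_smul, lin_smul]
  have e2 : lin hol (γ * δ) w' =
      f (lin hol δ w') • lin hol γ w + g (lin hol δ w') • lin hol γ w' := by
    rw [lin_mul]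
    conv_lhs => rw [hfg _ (hδ w' hw')]
    rw [lin_add', lin_smul, lin_smul]
  unfold Dl
  rw [e1, e2]
  simp only [map_add, map_smul, smul_eq_mul]
  ring

/-- a form on a plane: the elements of determinant one commute -/
theorem plane_form {β q a b c d : ℝ} (hβ : 0 < β) (h1 : a ^ 2 * β + b ^ 2 * q = β)
    (h2 : a * c * β + b * d * q = 0) (h3 : a * d - b * c = 1) : d = a ∧ c * β = -(b * q) := by
  constructor
  · have : d * β = a * β := by
      calc d * β = d * (a ^ 2 * β + b ^ 2 * q) := by rw [h1]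
        _ = a * (a * d - b * c) * β + b * (a * c * β + b * d * q) := by ring
        _ = a * β := by rw [h2, h3]; ring
    exact mul_right_cancel₀ hβ.ne' this
  · calc c * β = c * (a ^ 2 * β + b ^ 2 * q) := by rw [h1]
      _ = a * (a * c * β + b * d * q) - b * q * (a * d - b * c) := by ring
      _ = -(b * q) := by rw [h2, h3]; ring

/-- the case of a plane with a form -/
theorem fix_plane (B : E →ₗ[ℝ] E →ₗ[ℝ] ℝ) {V1 : Submodule ℝ E} {w w' : E} (hw : w ∈ V1)
    (hw' : w' ∈ V1) {f g : E →ₗ[ℝ] ℝ} (hfg : ∀ v ∈ V1, v = f v • w + g v • w')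
    (hfw : f w = 1) (hgw : g w = 0) (hfw' : f w' = 0) (hgw' : g w' = 1)
    (hBw : 0 < B w w) (hBww' : B w w' + B w' w = 0) {k : ℕ}
    (hst : ∀ γ ∈ derivedSeries G k, ∀ v ∈ V1, lin hol γ v ∈ V1)
    (hB : ∀ γ ∈ derivedSeries G k, ∀ v ∈ V1, B (lin hol γ v) (lin hol γ v) = B v v) :
    ∀ γ ∈ derivedSeries G (k + 2), ∀ v ∈ V1, lin hol γ v = v := by
  have hDl1 : Dl hol f g w w' 1 = 1 := by
    unfold Dl
    rw [lin_one, lin_one, hfw, hgw, hfw', hgw']
    norm_num
  have hDlinv : ∀ γ ∈ derivedSeries G k, Dl hol f g w w' γ * Dl hol f g w w' γ⁻¹ = 1 := by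
    intro γ hγ
    rw [← Dl_mul hw hw' hfg (hst _ (Subgroup.inv_mem _ hγ)), mul_inv_cancel, hDl1]
  -- the elements of area factor one
  let N1 : Subgroup G :=
    { carrier := {γ | γ ∈ derivedSeries G k ∧ Dl hol f g w w' γ = 1}
      mul_mem' := by
        rintro γ δ ⟨h1, h2⟩ ⟨h3, h4⟩
        refine ⟨Subgroup.mul_mem _ h1 h3, ?_⟩
        rw [Dl_mul hw hw' hfg (hst δ h3), h2, h4, one_mul]
      one_mem' := ⟨Subgroup.one_mem _, hDl1⟩
      inv_mem' := by
        rintro γ ⟨h1, h2⟩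
        refine ⟨Subgroup.inv_mem _ h1, ?_⟩
        have := hDlinv γ h1
        rwa [h2, one_mul] at this }
  have h1 : derivedSeries G (k + 1) ≤ N1 := der_succ_le fun γ hγ δ hδ => by
    have hc : ⁅γ, δ⁆ ∈ derivedSeries G k := by
      have : ⁅γ, δ⁆ ∈ derivedSeries G (k + 1) := by
        rw [derivedSeries_succ]
        exact Subgroup.commutator_mem_commutator hγ hδ
      exact derivedSeries_antitone G (Nat.le_succ _) this
    refine ⟨hc, ?_⟩
    have h2 : ⁅γ, δ⁆ * (δ * γ) = γ * δ := by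
      rw [commutatorElement_def]
      group
    have h3 := Dl_mul (hol := hol) (γ := ⁅γ, δ⁆) hw hw' hfg (hst _ (Subgroup.mul_mem _ hδ hγ))
    rw [h2, Dl_mul hw hw' hfg (hst δ hδ), Dl_mul hw hw' hfg (hst γ hγ)] at h3
    have h4 := hDlinv γ hγ
    have h5 := hDlinv δ hδ
    have h6 : Dl hol f g w w' γ ≠ 0 := left_ne_zero_of_mul_eq_one h4
    have h7 : Dl hol f g w w' δ ≠ 0 := left_ne_zero_of_mul_eq_one h5
    have h8 : (Dl hol f g w w' ⁅γ, δ⁆ - 1) * (Dl hol f g w w' δ * Dl hol f g w w' γ) = 0 := by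
      linarith
    rcases mul_eq_zero.1 h8 with h9 | h9
    · linarith
    · exact absurd h9 (mul_ne_zero h7 h6)
  -- the shape of the elements
  have hform : ∀ γ ∈ N1, ∃ a b : ℝ, lin hol γ w = a • w + b • w' ∧
      lin hol γ w' = (-(b * B w' w' / B w w)) • w + a • w' := by
    rintro γ ⟨hγ, hdet⟩
    obtain ⟨a, ha⟩ : ∃ a, a = f (lin hol γ w) := ⟨_, rfl⟩
    obtain ⟨b, hb⟩ : ∃ b, b = g (lin hol γ w) := ⟨_, rfl⟩
    obtain ⟨c, hc⟩ : ∃ c, c = f (lin hol γ w') := ⟨_, rfl⟩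
    obtain ⟨d, hd⟩ : ∃ d, d = g (lin hol γ w') := ⟨_, rfl⟩
    have e1 : lin hol γ w = a • w + b • w' := by rw [ha, hb]; exact hfg _ (hst γ hγ w hw)
    have e2 : lin hol γ w' = c • w + d • w' := by rw [hc, hd]; exact hfg _ (hst γ hγ w' hw')
    have hdet' : a * d - b * c = 1 := by
      rw [← hdet]
      unfold Dl
      rw [ha, hb, hc, hd]
    have hq : ∀ s t : ℝ, B (s • w + t • w') (s • w + t • w') =
        s ^ 2 * B w w + t ^ 2 * B w' w' := by
      intro s t
      simp only [map_add, map_smul, LinearMap.add_apply, LinearMap.smul_apply, smul_eq_mul]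
      have : s * (t * B w w') + t * (s * B w' w) = 0 := by
        have : s * (t * B w w') + t * (s * B w' w) = s * t * (B w w' + B w' w) := by ring
        rw [this, hBww', mul_zero]
      nlinarith
    have k1 : a ^ 2 * B w w + b ^ 2 * B w' w' = B w w := by
      rw [← hq, ← e1]
      exact hB γ hγ w hw
    have k3 : c ^ 2 * B w w + d ^ 2 * B w' w' = B w' w' := by
      rw [← hq, ← e2]
      exact hB γ hγ w' hw'
    have k2 : a * c * B w w + b * d * B w' w' = 0 := by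
      have h2 := hB γ hγ (w + w') (V1.add_mem hw hw')
      have e3 : lin hol γ (w + w') = (a + c) • w + (b + d) • w' := by
        rw [lin_add', e1, e2]
        module
      have e4 : B (w + w') (w + w') = B w w + B w' w' := by
        have := hq 1 1
        rw [one_smul, one_smul] at this
        rw [this]
        ring
      rw [e3, hq, e4] at h2
      nlinarith
    obtain ⟨hda, hcb⟩ := plane_form hBw k1 k2 hdet'
    refine ⟨a, b, e1, ?_⟩
    rw [e2, hda]
    congr 2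
    rw [← neg_div, eq_div_iff hBw.ne']
    exact hcb
  have hbot : ∀ (γ : G) (v : E), lin hol γ v ∈ (⊥ : Submodule ℝ E) ↔ v ∈ (⊥ : Submodule ℝ E) := by
    refine stab_iff fun γ v hv => ?_
    rw [Submodule.mem_bot] at hv ⊢
    rw [hv]
    exact map_zero ((hol γ).linear)
  have h2 : derivedSeries G (k + 2) ≤ Trv hol V1 ⊥ := der_succ_le fun γ hγ δ hδ => by
    have hinv : (δ * γ)⁻¹ ∈ derivedSeries G k :=
      derivedSeries_antitone G (Nat.le_succ _) (Subgroup.inv_mem _ (Subgroup.mul_mem _ hδ hγ))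
    refine comm_mem (stab_iff' hst hinv) (hbot _) fun v hv => ?_
    obtain ⟨a, b, e1, e2⟩ := hform γ (h1 hγ)
    obtain ⟨a', b', e1', e2'⟩ := hform δ (h1 hδ)
    rw [Submodule.mem_bot, sub_eq_zero, lin_mul, lin_mul, hfg v hv]
    simp only [lin_add', lin_smul, e1, e2, e1', e2']
    module
  intro γ hγ v hv
  have := (h2 hγ).2 v hv
  rw [Submodule.mem_bot, sub_eq_zero] at this
  exact this

end

section
variable {X G E : Type} [TopologicalSpace X] [T2Space X] [Group G] [MulAction G X]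
  [NormedAddCommGroup E] [NormedSpace ℝ E] [FiniteDimensional ℝ E] {dev : X → E}
  {hol : G →* (E ≃ᵃ[ℝ] E)}

/-- **The block theorem.** -/
theorem block_main (D : AffMfd X G E dev hol) {V S P : Submodule ℝ E} (hVS : V ⊔ S = P)
    (hS : ∀ (x : X), ∀ v ∈ S, Vis dev x v) (hT : Thin hol V S)
    (hl : ∀ x y : X, dev y - dev x ∈ P → Lf dev P x y)
    (hVst : ∀ γ : G, ∀ v ∈ V, lin hol γ v ∈ V)
    (hPst : ∀ γ : G, ∀ v ∈ P, lin hol γ v ∈ P) {n : ℕ}
    (h0 : ∀ γ ∈ derivedSeries G n, (∀ v ∈ S, lin hol γ v = v) ∧ ∀ v, lin hol γ v - v ∈ P)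
    (hdim : Module.finrank ℝ V ≤ 2 ∨ (Module.finrank ℝ V ≤ 3 ∧
      ∃ (B : E →ₗ[ℝ] E →ₗ[ℝ] ℝ) (W : Submodule ℝ E), W ≤ V ∧
        Module.finrank ℝ V ≤ Module.finrank ℝ W + 1 ∧ (∀ w ∈ W, w ≠ 0 → 0 < B w w) ∧
        ∀ γ : G, ∀ v ∈ V, B (lin hol γ v) (lin hol γ v) = B v v)) :
    (∀ (x : X), ∀ v ∈ P, Vis dev x v) ∨
      ∃ N, ∀ γ ∈ derivedSeries G N, ∀ v, lin hol γ v = v := by
  have hc : ∀ x, Convex ℝ {v | v ∈ P ∧ Vis dev x v} := fun x => by
    rw [← hVS]
    exact conv_sup D hS hT x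
  have hVP : V ≤ P := by rw [← hVS]; exact le_sup_left
  have hSP : S ≤ P := by rw [← hVS]; exact le_sup_right
  by_cases hall : ∀ (x : X), ∀ v ∈ P, Vis dev x v
  · exact Or.inl hall
  right
  push Not at hall
  obtain ⟨x0, hx0⟩ := hall
  obtain ⟨φ, b, hφ, hb, h1, h2⟩ := slice_wall D hVS hS hT x0 hx0
  obtain ⟨F, hF⟩ : ∃ F : Submodule ℝ E, F = (LinearMap.ker (φ : P →ₗ[ℝ] ℝ)).map P.subtype :=
    ⟨_, rfl⟩
  have hmem : ∀ v, v ∈ F ↔ ∃ h : v ∈ P, φ ⟨v, h⟩ = 0 := by
    intro v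
    rw [hF, Submodule.mem_map]
    constructor
    · rintro ⟨w, hw, rfl⟩
      exact ⟨w.2, hw⟩
    · rintro ⟨h, hv⟩
      exact ⟨⟨v, h⟩, hv, rfl⟩
  have hFP : F ≤ P := fun v hv => ((hmem v).1 hv).1
  have hSF : S ≤ F := by
    intro s hs
    refine (hmem s).2 ⟨hSP hs, ?_⟩
    by_contra hne
    have h3 := h1 ((b / φ ⟨s, hSP hs⟩) • ⟨s, hSP hs⟩) (hS x0 _ (S.smul_mem _ hs))
    rw [map_smul, smul_eq_mul, div_mul_cancel₀ _ hne] at h3
    exact lt_irrefl _ h3
  obtain ⟨e, he⟩ : ∃ e : P, φ e ≠ 0 := by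
    by_contra hcon
    push Not at hcon
    exact hφ (ContinuousLinearMap.ext hcon)
  have hPe : P ≤ F ⊔ ℝ ∙ (e : E) := by
    intro v hv
    refine Submodule.mem_sup.2 ⟨v - (φ ⟨v, hv⟩ / φ e) • (e : E), ?_, (φ ⟨v, hv⟩ / φ e) • (e : E),
      Submodule.smul_mem _ _ (Submodule.mem_span_singleton_self _), by abel⟩
    refine (hmem _).2 ⟨P.sub_mem hv (P.smul_mem _ e.2), ?_⟩
    have h3 : (⟨v - (φ ⟨v, hv⟩ / φ e) • (e : E), P.sub_mem hv (P.smul_mem _ e.2)⟩ : P) =
        ⟨v, hv⟩ - (φ ⟨v, hv⟩ / φ e) • e := rfl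
    rw [h3, map_sub, map_smul, smul_eq_mul, div_mul_cancel₀ _ he, sub_self]
  have hFV : F ≤ S ⊔ (V ⊓ F) := by
    intro v hv
    have hv' := hFP hv
    rw [← hVS] at hv'
    obtain ⟨a, ha, s, hs, rfl⟩ := Submodule.mem_sup.1 hv'
    refine Submodule.mem_sup.2 ⟨s, hs, a, ⟨ha, ?_⟩, by abel⟩
    have h3 := F.sub_mem hv (hSF hs)
    rwa [add_sub_cancel_right] at h3
  have hFst : ∀ γ : G, (∀ q, hol γ q - q ∈ P) → ∀ v ∈ F, lin hol γ v ∈ F := by
    intro γ hγ v hv
    obtain ⟨hvP, hv0⟩ := (hmem v).1 hv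
    refine (hmem _).2 ⟨hPst γ v hvP, ?_⟩
    exact wall_pres D hPst hc h1 h2 hφ (hl _ _ (by rw [D.equi]; exact hγ _)) ⟨v, hvP⟩ hv0
  have hVF : V ⊓ F < V := by
    refine lt_of_le_of_ne inf_le_left fun h => he ?_
    have h3 : V ≤ F := by rw [← h]; exact inf_le_right
    have h4 : (e : E) ∈ V ⊔ S := by rw [hVS]; exact e.2
    have h5 : (e : E) ∈ F := (sup_le h3 hSF) h4
    obtain ⟨_, h6⟩ := (hmem _).1 h5
    exact h6
  have hrank := Submodule.finrank_lt_finrank_of_lt hVF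
  have hline : Module.finrank ℝ ↥(V ⊓ F) ≤ 1 →
      ∃ m, ∀ γ ∈ derivedSeries G m, ∀ v ∈ V ⊓ F, lin hol γ v = v := by
    intro h
    obtain ⟨⟨e1, he1⟩⟩ := (Submodule.finrank_le_one_iff_isPrincipal (V ⊓ F)).1 h
    refine ⟨n + 2, fix_line (e := e1) ?_ he1.le hVst hPst (fun γ hγ => (h0 γ hγ).2) hFst⟩
    rw [he1]
    exact Submodule.mem_span_singleton_self _
  refine solv_main hSF hFP hFV e.2 hPe hPst h0 hFst ?_
  rcases hdim with hdim | ⟨hdim, B, W, hWV, hWr, hWp, hB⟩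
  · exact hline (by omega)
  · by_cases hr1 : Module.finrank ℝ ↥(V ⊓ F) ≤ 1
    · exact hline hr1
    have hr2 : Module.finrank ℝ ↥(V ⊓ F) = 2 := by omega
    -- a positive vector
    obtain ⟨w, hwV, hw0, hwW⟩ : ∃ w ∈ V ⊓ F, w ≠ 0 ∧ w ∈ W := by
      by_contra hcon
      push Not at hcon
      have h3 : W ⊓ (V ⊓ F) = ⊥ := by
        rw [eq_bot_iff]
        rintro v ⟨hv1, hv2⟩
        by_contra hv0
        exact hcon v hv2 (fun h => hv0 (by rw [h]; exact Submodule.zero_mem _)) hv1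
      have h4 := Submodule.finrank_sup_add_finrank_inf_eq W (V ⊓ F)
      rw [h3, finrank_bot, add_zero] at h4
      have h5 := Submodule.finrank_mono (sup_le hWV inf_le_left : W ⊔ V ⊓ F ≤ V)
      omega
    have hBw := hWp w hwW hw0
    -- the orthogonal vector
    obtain ⟨u, huV, hu⟩ : ∃ u ∈ V ⊓ F, u ∉ ℝ ∙ w := by
      by_contra hcon
      push Not at hcon
      have h3 := Submodule.finrank_mono (hcon : V ⊓ F ≤ ℝ ∙ w)
      rw [finrank_span_singleton hw0, hr2] at h3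
      omega
    obtain ⟨w', hw'⟩ : ∃ w', w' = u - ((B w u + B u w) / (2 * B w w)) • w := ⟨_, rfl⟩
    have hw'V : w' ∈ V ⊓ F := by
      rw [hw']
      exact Submodule.sub_mem _ huV (Submodule.smul_mem _ _ hwV)
    have hBww' : B w w' + B w' w = 0 := by
      rw [hw']
      simp only [map_sub, map_smul, LinearMap.sub_apply, LinearMap.smul_apply, smul_eq_mul]
      field_simp
      ring
    have hli : LinearIndependent ℝ ![w, w'] := by
      rw [LinearIndependent.pair_iff]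
      intro s t hst
      have ht : t = 0 := by
        by_contra ht
        apply hu
        rw [Submodule.mem_span_singleton]
        refine ⟨(B w u + B u w) / (2 * B w w) - s / t, ?_⟩
        have h3 : w' = -(s / t) • w := by
          have h4 : t • w' = -(s • w) := eq_neg_of_add_eq_zero_right hst
          have h5 : w' = t⁻¹ • t • w' := by rw [smul_smul, inv_mul_cancel₀ ht, one_smul]
          rw [h5, h4, smul_neg, smul_smul, neg_smul, div_eq_inv_mul]
        have h4 : u = w' + ((B w u + B u w) / (2 * B w w)) • w := by rw [hw']; abel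
        rw [h3] at h4
        calc ((B w u + B u w) / (2 * B w w) - s / t) • w =
            -(s / t) • w + ((B w u + B u w) / (2 * B w w)) • w := by module
          _ = u := h4.symm
      refine ⟨?_, ht⟩
      rw [ht, zero_smul, add_zero] at hst
      exact (smul_eq_zero.1 hst).resolve_right hw0
    -- coordinates
    have hspan : V ⊓ F = Submodule.span ℝ (Set.range ![w, w']) := by
      have h3 : Submodule.span ℝ (Set.range ![w, w']) ≤ V ⊓ F := by
        rw [Submodule.span_le]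
        rintro _ ⟨i, rfl⟩
        fin_cases i
        · exact hwV
        · exact hw'V
      refine (Submodule.eq_of_le_of_finrank_le h3 ?_).symm
      rw [finrank_span_eq_card hli, hr2]
      rfl
    obtain ⟨f, g, hfw, hgw, hfw', hgw'⟩ : ∃ f g : E →ₗ[ℝ] ℝ, f w = 1 ∧ g w = 0 ∧ f w' = 0 ∧
        g w' = 1 := by
      have key : ∀ i : Fin 2, ∃ f : E →ₗ[ℝ] ℝ, ∀ j : Fin 2, f (![w, w'] j) = if j = i then 1 else 0 := by
        intro i
        obtain ⟨f, hf⟩ := LinearMap.exists_extend ((Finsupp.lapply i).comp hli.repr)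
        refine ⟨f, fun j => ?_⟩
        have h3 : (![w, w'] j) ∈ Submodule.span ℝ (Set.range ![w, w']) :=
          Submodule.subset_span ⟨j, rfl⟩
        have h4 := congrArg (fun h : Submodule.span ℝ (Set.range ![w, w']) →ₗ[ℝ] ℝ => h ⟨_, h3⟩) hf
        have h5 : f (![w, w'] j) = (hli.repr ⟨![w, w'] j, h3⟩) i := h4
        rw [h5, hli.repr_eq_single j ⟨![w, w'] j, h3⟩ rfl, Finsupp.single_apply]
      obtain ⟨f, hf⟩ := key 0
      obtain ⟨g, hg⟩ := key 1
      exact ⟨f, g, by simpa using hf 0, by simpa using hg 0, by simpa using hf 1,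
        by simpa using hg 1⟩
    have hfg : ∀ v ∈ V ⊓ F, v = f v • w + g v • w' := by
      intro v hv
      rw [hspan, Matrix.range_cons, Matrix.range_cons, Matrix.range_empty, Set.union_empty,
        Set.singleton_union, Submodule.mem_span_pair] at hv
      obtain ⟨s, t, rfl⟩ := hv
      simp only [map_add, map_smul, smul_eq_mul, hfw, hgw, hfw', hgw']
      module
    have h3 : derivedSeries G (n + 1) ≤ Ntr hol P := der_succ_le fun γ hγ δ hδ =>
      comm_aff (stab_iff hPst _) (h0 γ hγ).2 (h0 δ hδ).2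
    refine ⟨n + 1 + 2, fix_plane B hwV hw'V hfg hfw hgw hfw' hgw' hBw hBww' ?_ ?_⟩
    · exact fun γ hγ v hv => ⟨hVst γ v hv.1, hFst γ (h3 hγ).2 v hv.2⟩
    · exact fun γ _ v hv => hB γ v hv.1

end

end Pool.Agent.Q185.MK
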