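import Mathlib

/-!
Linear groups of discompacity one: a linear map that preserves a quadratic form positive definite on
a hyperplane, or does not increase area in dimension two, is bounded in some direction of every
plane.
-/

set_option autoImplicit false

open Set Filter Topology MeasureTheory Metric

namespace Pool.Agent.Q185.MK

section
variable {E : Type} [NormedAddCommGroup E] [NormedSpace ℝ E] [FiniteDimensional ℝ E]

/-- a quadratic form positive definite on a hyperplane becomes positive definite by adding the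
square of a linear form -/
theorem exists_pos (B : E →ₗ[ℝ] E →ₗ[ℝ] ℝ) {V W : Submodule ℝ E} (hWV : W ≤ V)
    (hrank : Module.finrank ℝ V ≤ Module.finrank ℝ W + 1) (hW : ∀ w ∈ W, w ≠ 0 → 0 < B w w) :
    ∃ (f : E →ₗ[ℝ] ℝ) (n : ℕ) (c : ℝ), 0 < c ∧ ∀ v ∈ V, c * ‖v‖ ^ 2 ≤ B v v + n * f v ^ 2 := by
  -- the functional
  obtain ⟨f, hf⟩ : ∃ f : E →ₗ[ℝ] ℝ, ∀ v ∈ V, f v = 0 → v ∈ W := by
    by_cases h : V ≤ W
    · exact ⟨0, fun v hv _ => h hv⟩
    · obtain ⟨v0, hv0, hv0W⟩ := SetLike.not_le_iff_exists.1 h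
      obtain ⟨f, hf0, hfW⟩ := Submodule.exists_le_ker_of_notMem hv0W
      refine ⟨f, fun v hv hfv => ?_⟩
      have h1 : W ≤ V ⊓ LinearMap.ker f := le_inf hWV hfW
      have h2 : V ⊓ LinearMap.ker f < V := by
        refine lt_of_le_of_ne inf_le_left fun he => hf0 ?_
        have : v0 ∈ V ⊓ LinearMap.ker f := by rw [he]; exact hv0
        exact this.2
      have h3 := Submodule.finrank_lt_finrank_of_lt h2
      have h4 := Submodule.eq_of_le_of_finrank_le h1 (by omega)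
      rw [h4]
      exact ⟨hv, hfv⟩
  have hBc : Continuous fun v : E => B v v := by
    have h1 : (fun v : E => B v v) = fun v => (LinearMap.toContinuousLinearMap
        ((LinearMap.toContinuousLinearMap (𝕜 := ℝ) (E := E) (F' := ℝ)).toLinearMap.comp B)) v v := rfl
    rw [h1]
    fun_prop
  have hfc : Continuous f := f.continuous_of_finiteDimensional
  have hprop : ProperSpace E := FiniteDimensional.proper_real E
  have hVc : IsClosed (V : Set E) := V.closed_of_finiteDimensional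
  have hA : IsCompact (sphere (0 : E) 1 ∩ V) := (isCompact_sphere 0 1).inter_right hVc
  have hcn : ∀ n : ℕ, Continuous fun v : E => B v v + (n : ℝ) * f v ^ 2 := fun n =>
    hBc.add (continuous_const.mul (hfc.pow 2))
  obtain ⟨n, hn⟩ := hA.elim_directed_cover (fun n : ℕ => {v : E | 0 < B v v + n * f v ^ 2})
    (fun n => isOpen_lt continuous_const (hcn n)) (by
      rintro v ⟨hv1, hvV⟩
      have hv0 : v ≠ 0 := by
        intro h
        rw [h, mem_sphere, dist_self] at hv1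
        exact zero_ne_one hv1
      rw [mem_iUnion]
      by_cases h : f v = 0
      · refine ⟨0, ?_⟩
        show 0 < B v v + ((0 : ℕ) : ℝ) * f v ^ 2
        rw [Nat.cast_zero, zero_mul, add_zero]
        exact hW v (hf v hvV h) hv0
      · have h1 : 0 < f v ^ 2 := by positivity
        obtain ⟨n, hn⟩ := exists_nat_gt (-(B v v) / f v ^ 2)
        refine ⟨n, ?_⟩
        rw [div_lt_iff₀ h1] at hn
        show 0 < B v v + (n : ℝ) * f v ^ 2
        linarith)
    (directed_of_isDirected_le fun a b hab v hv => by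
      have h1 : (a : ℝ) ≤ b := by exact_mod_cast hab
      have h2 := mul_le_mul_of_nonneg_right h1 (sq_nonneg (f v))
      have h3 : 0 < B v v + (a : ℝ) * f v ^ 2 := hv
      show 0 < B v v + (b : ℝ) * f v ^ 2
      linarith)
  have hcont : Continuous fun v : E => B v v + (n : ℝ) * f v ^ 2 := hcn n
  obtain ⟨c, hc, hcA⟩ : ∃ c : ℝ, 0 < c ∧ ∀ v ∈ sphere (0 : E) 1 ∩ V,
      c ≤ B v v + (n : ℝ) * f v ^ 2 := by
    rcases (sphere (0 : E) 1 ∩ V).eq_empty_or_nonempty with h | h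
    · exact ⟨1, one_pos, fun v hv => by rw [h] at hv; exact hv.elim⟩
    · obtain ⟨v, hv, hmin⟩ := hA.exists_isMinOn h hcont.continuousOn
      exact ⟨_, hn hv, fun w hw => hmin hw⟩
  refine ⟨f, n, c, hc, fun v hv => ?_⟩
  by_cases h0 : v = 0
  · rw [h0]
    simp
  · have hpos : 0 < ‖v‖ := norm_pos_iff.2 h0
    have h1 := hcA (‖v‖⁻¹ • v) ⟨by
      rw [mem_sphere, dist_zero_right, norm_smul, norm_inv, norm_norm, inv_mul_cancel₀ hpos.ne'],
      V.smul_mem _ hv⟩
    have h2 : B (‖v‖⁻¹ • v) (‖v‖⁻¹ • v) + (n : ℝ) * f (‖v‖⁻¹ • v) ^ 2 =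
        (‖v‖ ^ 2)⁻¹ * (B v v + n * f v ^ 2) := by
      have e1 : B (‖v‖⁻¹ • v) (‖v‖⁻¹ • v) = ‖v‖⁻¹ * (‖v‖⁻¹ * B v v) := by
        rw [map_smul, map_smul]
        rfl
      have e2 : f (‖v‖⁻¹ • v) = ‖v‖⁻¹ * f v := by rw [map_smul]; rfl
      rw [e1, e2]
      field_simp
    rw [h2, ← div_eq_inv_mul, le_div_iff₀ (by positivity)] at h1
    exact h1

/-- the Lorentzian case -/
theorem lorentz_thin (B : E →ₗ[ℝ] E →ₗ[ℝ] ℝ) {V W : Submodule ℝ E} (hWV : W ≤ V)
    (hrank : Module.finrank ℝ V ≤ Module.finrank ℝ W + 1) (hW : ∀ w ∈ W, w ≠ 0 → 0 < B w w) :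
    ∃ C : ℝ, 0 ≤ C ∧ ∀ g : E →ₗ[ℝ] E, (∀ v ∈ V, g v ∈ V) → (∀ v ∈ V, B (g v) (g v) = B v v) →
      ∀ p ∈ V, ∀ q ∈ V, ∃ a b : ℝ, (a ≠ 0 ∨ b ≠ 0) ∧
        ‖g (a • p + b • q)‖ ≤ C * ‖a • p + b • q‖ := by
  obtain ⟨f, n, c, hc, hfc⟩ := exists_pos B hWV hrank hW
  obtain ⟨M, hM, hMb⟩ : ∃ M : ℝ, 0 ≤ M ∧ ∀ v : E, B v v + n * f v ^ 2 ≤ M * ‖v‖ ^ 2 := by
    let B' : E →L[ℝ] E →L[ℝ] ℝ := LinearMap.toContinuousLinearMap
        ((LinearMap.toContinuousLinearMap (𝕜 := ℝ) (E := E) (F' := ℝ)).toLinearMap.comp B)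
    let f' : E →L[ℝ] ℝ := LinearMap.toContinuousLinearMap f
    refine ⟨‖B'‖ + n * ‖f'‖ ^ 2, by positivity, fun v => ?_⟩
    have h1 : B v v ≤ ‖B'‖ * ‖v‖ * ‖v‖ := (le_abs_self _).trans (B'.le_opNorm₂ v v)
    have h2 : f v ^ 2 ≤ ‖f'‖ ^ 2 * ‖v‖ ^ 2 := by
      rw [← mul_pow, ← sq_abs]
      exact pow_le_pow_left₀ (abs_nonneg _) (f'.le_opNorm v) 2
    have h3 := mul_le_mul_of_nonneg_left h2 (Nat.cast_nonneg (α := ℝ) n)
    nlinarith
  refine ⟨Real.sqrt (M / c), Real.sqrt_nonneg _, fun g hgV hgB p hp q hq => ?_⟩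
  obtain ⟨h, hh⟩ : ∃ h : E →ₗ[ℝ] ℝ, h = f.comp g - f := ⟨_, rfl⟩
  obtain ⟨a, b, hab, hzero⟩ : ∃ a b : ℝ, (a ≠ 0 ∨ b ≠ 0) ∧ h (a • p + b • q) = 0 := by
    by_cases h1 : h p = 0
    · exact ⟨1, 0, Or.inl one_ne_zero, by rw [one_smul, zero_smul, add_zero]; exact h1⟩
    · refine ⟨h q, -h p, Or.inr (neg_ne_zero.2 h1), ?_⟩
      rw [map_add, map_smul, map_smul, smul_eq_mul, smul_eq_mul]
      ring
  refine ⟨a, b, hab, ?_⟩
  obtain ⟨d, hd⟩ : ∃ d, d = a • p + b • q := ⟨_, rfl⟩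
  rw [← hd] at hzero ⊢
  have hdV : d ∈ V := by rw [hd]; exact V.add_mem (V.smul_mem _ hp) (V.smul_mem _ hq)
  have hfd : f (g d) = f d := by
    rw [hh] at hzero
    have : f (g d) - f d = 0 := hzero
    linarith
  have h1 := hfc (g d) (hgV d hdV)
  rw [hgB d hdV, hfd] at h1
  have h2 := h1.trans (hMb d)
  have h3 : ‖g d‖ ^ 2 ≤ (M / c) * ‖d‖ ^ 2 := by
    rw [div_mul_eq_mul_div, le_div_iff₀ hc]
    linarith
  have h4 : 0 ≤ M / c := div_nonneg hM hc.le
  have h5 : ‖g d‖ ^ 2 ≤ (Real.sqrt (M / c) * ‖d‖) ^ 2 := by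
    rw [mul_pow, Real.sq_sqrt h4]
    exact h3
  exact (abs_le_of_sq_le_sq' h5 (by positivity)).2

/-- a linear map with bounded determinant is bounded in some direction -/
theorem area_dir {V : Type} [NormedAddCommGroup V] [NormedSpace ℝ V] [FiniteDimensional ℝ V]
    [Nontrivial V] {c : ℝ} (hc : 1 ≤ c) (g : V →ₗ[ℝ] V) (hg : |LinearMap.det g| < c) : ∃ d : V, d ≠ 0 ∧ ‖g d‖ ≤ c * ‖d‖ := by
  by_contra hcon
  push Not at hcon
  let : MeasurableSpace V := borel V
  have : BorelSpace V := ⟨rfl⟩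
  have hc0 : 0 < c := by linarith
  let μ : Measure V := Measure.addHaar
  have hdet : LinearMap.det g ≠ 0 := by
    intro h0
    have h1 : ¬ Function.Injective g := by
      intro hinj
      have h2 : IsUnit (LinearMap.det g) := by
        have h3 : g = ((LinearEquiv.ofInjectiveEndo g hinj : V ≃ₗ[ℝ] V) : V →ₗ[ℝ] V) := by
          ext v
          rfl
        rw [h3]
        exact LinearEquiv.isUnit_det' _
      rw [h0] at h2
      exact not_isUnit_zero h2
    rw [← LinearMap.ker_eq_bot, Submodule.eq_bot_iff] at h1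
    push Not at h1
    obtain ⟨d, hd, hd0⟩ := h1
    have h2 := hcon d hd0
    have h3 : g d = 0 := hd
    rw [h3, norm_zero] at h2
    have : 0 ≤ c * ‖d‖ := by positivity
    linarith
  have hsub : g ⁻¹' ball 0 c ⊆ ball 0 1 := by
    intro d hd
    by_cases h0 : d = 0
    · rw [h0]
      exact mem_ball_self one_pos
    · have h1 := hcon d h0
      have h2 : ‖g d‖ < c := mem_ball_zero_iff.1 hd
      rw [mem_ball_zero_iff]
      by_contra h3
      push Not at h3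
      nlinarith
  have h1 := measure_mono (μ := μ) hsub
  rw [Measure.addHaar_preimage_linearMap μ hdet, Measure.addHaar_ball μ 0 hc0.le] at h1
  have hpos : 0 < μ (ball (0 : V) 1) := measure_ball_pos μ 0 one_pos
  have hfin : μ (ball (0 : V) 1) ≠ ⊤ := measure_ball_lt_top.ne
  rw [← mul_assoc, ← ENNReal.ofReal_mul (abs_nonneg _)] at h1
  have h2 : ENNReal.ofReal (|(LinearMap.det g)⁻¹| * c ^ Module.finrank ℝ V) ≤ 1 := by
    by_contra h3
    push Not at h3
    have h4 := ENNReal.mul_lt_mul_left hpos.ne' hfin h3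
    rw [one_mul] at h4
    exact absurd h1 (not_le.2 h4)
  rw [ENNReal.ofReal_le_one, abs_inv, inv_mul_le_iff₀ (abs_pos.2 hdet), mul_one] at h2
  have h3 : 0 < Module.finrank ℝ V := Module.finrank_pos
  have h4 : c ≤ c ^ Module.finrank ℝ V := le_self_pow₀ hc h3.ne'
  linarith

end

end Pool.Agent.Q185.MK
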