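import Pool.Agent.Q185.MK.Block
import Pool.Agent.Q185.MK.Ex
import Pool.Agent.Y449.MK.DomDefs
import Pool.Agent.Y150.Ch.Fc

/-!
Closed affine manifolds with an invariant subspace on which the linear holonomy has discompacity at
most one modulo complete directions, and bounded quotient: conditions and conclusions.
-/

set_option autoImplicit false

open Pool.Agent.W689.Mk Pool.Agent.TH569.MK Pool.Agent.Y449.MK

namespace Pool.Agent.Q185.MK.Conds

variable {X Γ E : Type} [TopologicalSpace X] [Group Γ] [MulAction Γ X]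
  [NormedAddCommGroup E] [NormedSpace ℝ E]

/-- A tower of subspaces `T 0 ≤ T 1 ≤ ⋯ ≤ T k`, with `T k` the whole space, invariant under the
linear holonomy of `H`, which is bounded on each `T (i + 1)` modulo `T i`. -/
structure BddTower (hol : Γ →* (E ≃ᵃ[ℝ] E)) (H : Subgroup Γ) (T : ℕ → Submodule ℝ E) (k : ℕ) :
    Prop where
  /-- the last subspace is everything -/
  top : T k = ⊤
  /-- the subspaces increase -/
  mono : Monotone T
  /-- they are invariant -/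
  inv : ∀ i, Invt hol H (T i)
  /-- the linear holonomy is bounded on the quotients -/
  bdd : ∀ i < k, ∃ C : ℝ, ∀ γ ∈ H, ∀ v ∈ T (i + 1), ∃ w ∈ T i,
    ‖(hol γ).linear v - w‖ ≤ C * ‖v‖

/-- The linear holonomy of `H` acts on `S` and on the quotient of the model space by `P` through
solvable groups: the elements of some derived subgroup of `H` act trivially. -/
def SolvableOn (hol : Γ →* (E ≃ᵃ[ℝ] E)) (H : Subgroup Γ) (S P : Submodule ℝ E) : Prop :=
  ∃ n : ℕ, ∀ γ : H, γ ∈ derivedSeries H n →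
    (∀ v ∈ S, (hol γ).linear v = v) ∧ ∀ v : E, (hol γ).linear v - v ∈ P

/-- Relative discompacity at most one: there is a constant `C` such that for each linear holonomy
`A` of an element of `H`, every plane in `V` contains a vector `d ≠ 0` with `|A (d - s)| ≤ C |d|`
for a vector `s` of `S` with `|s| ≤ C |d|`. (The plane is given by two vectors `p`, `q`; when these
are dependent there is nothing to prove.) -/
def ThinOn (hol : Γ →* (E ≃ᵃ[ℝ] E)) (H : Subgroup Γ) (V S : Submodule ℝ E) : Prop :=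
  ∃ C : ℝ, ∀ γ ∈ H, ∀ p ∈ V, ∀ q ∈ V, ∃ a b : ℝ, (a ≠ 0 ∨ b ≠ 0) ∧ ∃ s ∈ S,
    ‖s‖ ≤ C * ‖a • p + b • q‖ ∧ ‖(hol γ).linear (a • p + b • q - s)‖ ≤ C * ‖a • p + b • q‖

/-- The linear holonomy of `H` preserves the subspace `V` and a quadratic form on `V` that is
positive definite on a subspace of `V` of codimension at most one, for instance a Lorentzian
form. -/
def LorentzOn (hol : Γ →* (E ≃ᵃ[ℝ] E)) (H : Subgroup Γ) (V : Submodule ℝ E) : Prop :=
  Invt hol H V ∧ ∃ (B : E →ₗ[ℝ] E →ₗ[ℝ] ℝ) (W : Submodule ℝ E), W ≤ V ∧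
    Module.finrank ℝ V ≤ Module.finrank ℝ W + 1 ∧ (∀ w ∈ W, w ≠ 0 → 0 < B w w) ∧
    ∀ γ ∈ H, ∀ v ∈ V, B ((hol γ).linear v) ((hol γ).linear v) = B v v

/-- The linear holonomy of `H` preserves the subspace `V`, of dimension at most two, with bounded
determinants on `V`. -/
def AreaOn (hol : Γ →* (E ≃ᵃ[ℝ] E)) (H : Subgroup Γ) (V : Submodule ℝ E) : Prop :=
  Invt hol H V ∧ Module.finrank ℝ V ≤ 2 ∧ ∃ c : ℝ, ∀ (γ : Γ)
    (h : ∀ v ∈ V, ((hol γ).linear : E →ₗ[ℝ] E) v ∈ V), γ ∈ H →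
    |LinearMap.det (((hol γ).linear : E →ₗ[ℝ] E).restrict h)| ≤ c

/-- There is a vector `e` such that the linear holonomy of `H` is bounded on `V` modulo the multiples
of `e`. (The determinants may be unbounded.) -/
def LineOn (hol : Γ →* (E ≃ᵃ[ℝ] E)) (H : Subgroup Γ) (V : Submodule ℝ E) : Prop :=
  ∃ (e : E) (C : ℝ), ∀ γ ∈ H, ∀ v ∈ V, ∃ c : ℝ, ‖(hol γ).linear v - c • e‖ ≤ C * ‖v‖

variable [FiniteDimensional ℝ E]

theorem thin_of_lorentz {hol : Γ →* (E ≃ᵃ[ℝ] E)} {H : Subgroup Γ} {V : Submodule ℝ E}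
    (h : LorentzOn hol H V) (S : Submodule ℝ E) : ThinOn hol H V S := by
  obtain ⟨hV, B, W, hWV, hrank, hW, hB⟩ := h
  obtain ⟨C, hC, h1⟩ := Pool.Agent.Q185.MK.lorentz_thin B hWV hrank hW
  refine ⟨C, fun γ hγ p hp q hq => ?_⟩
  obtain ⟨a, b, hab, h2⟩ := h1 ((hol γ).linear : E →ₗ[ℝ] E) (hV γ hγ) (hB γ hγ) p hp q hq
  refine ⟨a, b, hab, 0, S.zero_mem, ?_, ?_⟩
  · rw [norm_zero]
    positivity
  · rw [sub_zero]
    exact h2

theorem thin_of_area {hol : Γ →* (E ≃ᵃ[ℝ] E)} {H : Subgroup Γ} {V : Submodule ℝ E}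
    (h : AreaOn hol H V) (S : Submodule ℝ E) : ThinOn hol H V S := by
  obtain ⟨hV, hrank, c, hc⟩ := h
  obtain ⟨C, hC⟩ : ∃ C : ℝ, C = |c| + 2 := ⟨_, rfl⟩
  have hC1 : 1 ≤ C := by rw [hC]; linarith [abs_nonneg c]
  have hcC : c < C := by rw [hC]; linarith [le_abs_self c]
  refine ⟨C, fun γ hγ p hp q hq => ?_⟩
  by_cases hli : LinearIndependent ℝ ![(⟨p, hp⟩ : V), ⟨q, hq⟩]
  · have hnt : Nontrivial V := ⟨⟨⟨p, hp⟩, 0, by
      have := hli.ne_zero 0
      simpa using this⟩⟩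
    have h2 : Module.finrank ℝ V = 2 := by
      refine le_antisymm hrank ?_
      have := hli.fintype_card_le_finrank
      simpa using this
    obtain ⟨d, hd0, hd⟩ := Pool.Agent.Q185.MK.area_dir hC1
      (((hol γ).linear : E →ₗ[ℝ] E).restrict (hV γ hγ)) ((hc γ (hV γ hγ) hγ).trans_lt hcC)
    have hspan := hli.span_eq_top_of_card_eq_finrank (by rw [h2]; rfl)
    have hdm : d ∈ Submodule.span ℝ (Set.range ![(⟨p, hp⟩ : V), ⟨q, hq⟩]) := by
      rw [hspan]
      exact Submodule.mem_top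
    rw [Matrix.range_cons, Matrix.range_cons, Matrix.range_empty, Set.union_empty,
      Set.singleton_union, Submodule.mem_span_pair] at hdm
    obtain ⟨a, b, hab⟩ := hdm
    have hab' : a • p + b • q = (d : E) := congrArg Subtype.val hab
    refine ⟨a, b, ?_, 0, S.zero_mem, ?_, ?_⟩
    · by_contra hcon
      push Not at hcon
      apply hd0
      rw [← hab, hcon.1, hcon.2, zero_smul, zero_smul, add_zero]
    · rw [norm_zero]
      positivity
    · rw [sub_zero, hab']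
      exact hd
  · rw [LinearIndependent.pair_iff] at hli
    push Not at hli
    obtain ⟨a, b, hab, h0⟩ := hli
    have h1 : a • p + b • q = 0 := congrArg Subtype.val hab
    refine ⟨a, b, ?_, 0, S.zero_mem, ?_, ?_⟩
    · by_cases ha : a = 0
      · exact Or.inr (h0 ha)
      · exact Or.inl ha
    · rw [h1, norm_zero, mul_zero]
    · rw [sub_zero, h1, map_zero, norm_zero, mul_zero]

theorem thin_of_line {hol : Γ →* (E ≃ᵃ[ℝ] E)} {H : Subgroup Γ} {V : Submodule ℝ E}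
    (h : LineOn hol H V) (S : Submodule ℝ E) : ThinOn hol H V S := by
  obtain ⟨e, C, hC⟩ := h
  obtain ⟨f, hf⟩ : ∃ f : E →L[ℝ] ℝ, e ≠ 0 → f e = 1 := by
    by_cases he : e = 0
    · exact ⟨0, fun h => absurd he h⟩
    · have hn : ‖e‖ ≠ 0 := norm_ne_zero_iff.2 he
      obtain ⟨g, -, hg⟩ := exists_dual_vector ℝ e hn
      refine ⟨‖e‖⁻¹ • g, fun _ => ?_⟩
      show ‖e‖⁻¹ • g e = 1
      rw [hg, smul_eq_mul]
      exact inv_mul_cancel₀ hn
  refine ⟨|C| * (1 + ‖f‖ * ‖e‖), fun γ hγ p hp q hq => ?_⟩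
  obtain ⟨a, b, hab, h0⟩ : ∃ a b : ℝ, (a ≠ 0 ∨ b ≠ 0) ∧
      f ((hol γ).linear (a • p + b • q)) = 0 := by
    by_cases h1 : f ((hol γ).linear p) = 0
    · exact ⟨1, 0, Or.inl one_ne_zero, by rw [one_smul, zero_smul, add_zero]; exact h1⟩
    · refine ⟨f ((hol γ).linear q), -f ((hol γ).linear p), Or.inr (neg_ne_zero.2 h1), ?_⟩
      rw [map_add, map_smul, map_smul, map_add, map_smul, map_smul, smul_eq_mul, smul_eq_mul]
      ring
  refine ⟨a, b, hab, 0, S.zero_mem, ?_, ?_⟩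
  · rw [norm_zero]
    positivity
  · rw [sub_zero]
    obtain ⟨d, hd⟩ : ∃ d, d = a • p + b • q := ⟨_, rfl⟩
    rw [← hd] at h0 ⊢
    obtain ⟨c, hc⟩ := hC γ hγ d (by rw [hd]; exact V.add_mem (V.smul_mem _ hp) (V.smul_mem _ hq))
    have hc1 : ‖(hol γ).linear d - c • e‖ ≤ |C| * ‖d‖ :=
      hc.trans (mul_le_mul_of_nonneg_right (le_abs_self C) (norm_nonneg d))
    by_cases he : e = 0
    · rw [he, smul_zero, sub_zero] at hc1
      rw [he, norm_zero, mul_zero, add_zero, mul_one]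
      exact hc1
    · have h1 : f ((hol γ).linear d - c • e) = -c := by
        rw [map_sub, map_smul, hf he, h0, smul_eq_mul, mul_one, zero_sub]
      have h2 : |c| ≤ ‖f‖ * (|C| * ‖d‖) := by
        rw [← abs_neg, ← h1, ← Real.norm_eq_abs]
        exact (f.le_opNorm _).trans (mul_le_mul_of_nonneg_left hc1 (norm_nonneg f))
      have h3 : (hol γ).linear d = ((hol γ).linear d - c • e) + c • e := by abel
      calc ‖(hol γ).linear d‖ = ‖((hol γ).linear d - c • e) + c • e‖ := by rw [← h3]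
        _ ≤ ‖(hol γ).linear d - c • e‖ + ‖c • e‖ := norm_add_le _ _
        _ ≤ |C| * ‖d‖ + ‖f‖ * (|C| * ‖d‖) * ‖e‖ := by
            refine add_le_add hc1 ?_
            rw [norm_smul, Real.norm_eq_abs]
            exact mul_le_mul_of_nonneg_right h2 (norm_nonneg e)
        _ = |C| * (1 + ‖f‖ * ‖e‖) * ‖d‖ := by ring

/-- the slice of the visible set by `P` is everything, a half-space or a slab -/
def SliceFlat (dev : X → E) (P : Submodule ℝ E) (x : X) : Prop :=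
  (∀ v ∈ P, Geod dev x v) ∨ ∃ φ : E →ₗ[ℝ] ℝ, (∃ e ∈ P, φ e ≠ 0) ∧
    ((∀ v ∈ P, Geod dev x v ↔ φ v < 1) ∨
      ∃ a < 0, ∀ v ∈ P, Geod dev x v ↔ a < φ v ∧ φ v < 1)

variable [FiniteDimensional ℝ E] [T2Space X]

theorem slice_flat {dev : X → E} {hol : Γ →* (E ≃ᵃ[ℝ] E)} (D : Pool.Agent.W689.Ch.AffMfd X Γ E dev hol)
    {V S P : Submodule ℝ E} (hVS : V ⊔ S = P) (hS : ∀ (x : X), ∀ v ∈ S, Vis dev x v)
    (hT : Pool.Agent.Q185.MK.Thin hol V S) (x : X) : SliceFlat dev P x := by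
  have hvg : ∀ v, Geod dev x v ↔ Vis dev x v := fun v => (Pool.Agent.Q185.MK.vis_iff_geod D.loc).symm
  by_cases hall : ∀ v ∈ P, Vis dev x v
  · exact Or.inl fun v hv => (hvg v).2 (hall v hv)
  push Not at hall
  right
  obtain ⟨φ, b, hφ, hb, h1, h2⟩ := Pool.Agent.Q185.MK.slice_wall D hVS hS hT x hall
  obtain ⟨ψ, hψ⟩ := LinearMap.exists_extend (b⁻¹ • (φ : P →ₗ[ℝ] ℝ))
  have hψv : ∀ v (h : v ∈ P), ψ v = b⁻¹ * φ ⟨v, h⟩ := fun v h =>
    congrArg (fun g : P →ₗ[ℝ] ℝ => g ⟨v, h⟩) hψ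
  have hbi : 0 < b⁻¹ := inv_pos.2 hb
  have hψlt : ∀ v (h : v ∈ P), ψ v < 1 ↔ φ ⟨v, h⟩ < b := by
    intro v h
    rw [hψv v h, inv_mul_lt_iff₀ hb, mul_one]
  obtain ⟨e, he⟩ : ∃ e : P, φ e ≠ 0 := by
    by_contra hcon
    push Not at hcon
    exact hφ (ContinuousLinearMap.ext hcon)
  refine ⟨ψ, ⟨e, e.2, ?_⟩, ?_⟩
  · rw [hψv e e.2]
    exact mul_ne_zero hbi.ne' he
  obtain ⟨A, hA⟩ : ∃ A : Set ℝ, A = {s | ∃ v : P, Vis dev x v ∧ φ v = s} := ⟨_, rfl⟩
  have h0A : (0 : ℝ) ∈ A := by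
    rw [hA]
    exact ⟨0, ⟨x, ex_zero D.loc x⟩, map_zero _⟩
  by_cases hbd : BddBelow A
  · right
    obtain ⟨a, ha⟩ : ∃ a, a = sInf A := ⟨_, rfl⟩
    have hO : IsOpen {v : P | Vis dev x v} := (ex_open x).preimage continuous_subtype_val
    have hlt : ∀ v : P, Vis dev x v → a < φ v := by
      intro v hv
      have hcont : ContinuousAt (fun s : ℝ => v - (s * φ e) • e) 0 :=
        (continuous_const.sub ((continuous_id.mul continuous_const).smul
          continuous_const)).continuousAt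
      have hz : v - ((0 : ℝ) * φ e) • e = v := by rw [zero_mul, zero_smul, sub_zero]
      have h3 : ∀ᶠ s : ℝ in nhds 0, v - (s * φ e) • e ∈ {v : P | Vis dev x v} := by
        refine hcont.preimage_mem_nhds ?_
        rw [hz]
        exact hO.mem_nhds hv
      obtain ⟨δ, hδ, hδs⟩ := Metric.eventually_nhds_iff.1 h3
      have h4 : Vis dev x ((v - (δ / 2 * φ e) • e : P) : E) := hδs (by
        rw [Real.dist_eq, sub_zero, abs_of_pos (by linarith)]
        linarith)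
      have h5 : a ≤ φ (v - (δ / 2 * φ e) • e) := by
        rw [ha]
        refine csInf_le hbd ?_
        rw [hA]
        exact ⟨_, h4, rfl⟩
      rw [map_sub, map_smul, smul_eq_mul] at h5
      have : 0 < δ / 2 * φ e * φ e := by
        have := mul_self_pos.2 he
        have h5 : 0 < δ / 2 := by linarith
        rw [mul_assoc]
        exact mul_pos h5 this
      linarith
    have ha0 : a < 0 := by
      have := hlt 0 ⟨x, ex_zero D.loc x⟩
      rwa [map_zero] at this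
    refine ⟨b⁻¹ * a, mul_neg_of_pos_of_neg hbi ha0, fun v hv => ?_⟩
    rw [hvg, hψlt v hv, hψv v hv]
    constructor
    · intro h
      exact ⟨mul_lt_mul_of_pos_left (hlt ⟨v, hv⟩ h) hbi, h1 ⟨v, hv⟩ h⟩
    · rintro ⟨k1, k2⟩
      have k3 : a < φ ⟨v, hv⟩ := lt_of_mul_lt_mul_left k1 hbi.le
      rw [ha] at k3
      obtain ⟨s, hs, hs'⟩ := exists_lt_of_csInf_lt ⟨0, h0A⟩ k3
      rw [hA] at hs
      obtain ⟨w, hw, rfl⟩ := hs
      exact h2 w ⟨v, hv⟩ hw hs' k2
  · left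
    intro v hv
    rw [hvg, hψlt v hv]
    refine ⟨fun h => h1 ⟨v, hv⟩ h, fun h => ?_⟩
    rw [not_bddBelow_iff] at hbd
    obtain ⟨s, hs, hs'⟩ := hbd (φ ⟨v, hv⟩)
    rw [hA] at hs
    obtain ⟨w, hw, rfl⟩ := hs
    exact h2 w ⟨v, hv⟩ hw hs' h

/-- The conclusions for closed affine manifolds. -/
theorem main {dev : X → E} {hol : Γ →* (E ≃ᵃ[ℝ] E)} [ConnectedSpace X]
    (D : Pool.Agent.W689.Ch.AffMfd X Γ E dev hol) (H : Subgroup Γ) (hH : H.FiniteIndex)
    (S : ℕ → Submodule ℝ E) (m : ℕ) (hS : BddChain dev hol H S m) (V : Submodule ℝ E)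
    (hV : ThinOn hol H V (S m)) (T : ℕ → Submodule ℝ E) (k : ℕ) (hT : BddTower hol H T k)
    (hT0 : T 0 = V ⊔ S m) :
    Function.Injective dev ∧ (∀ x : X, SliceFlat dev (T 0) x) ∧
    (Invt hol H V → (Module.finrank ℝ V ≤ 2 ∨ (Module.finrank ℝ V ≤ 3 ∧ LorentzOn hol H V)) →
      SolvableOn hol H (S m) (T 0) → IsHomeomorph dev ∨
        ∃ N, ∀ γ : H, γ ∈ derivedSeries H N → ∀ v : E, (hol γ).linear v = v) := by
  have DM := Pool.Agent.Y150.Ch.restr D H hH
  have hTh : Pool.Agent.Q185.MK.Thin (hol.comp H.subtype) V (S m) := by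
    obtain ⟨C, hC⟩ := hV
    exact ⟨C, fun γ p hp q hq => hC γ γ.2 p hp q hq⟩
  have hcm : ∀ (x : X), ∀ v ∈ S m, Vis dev x v := by
    refine Pool.Agent.Q185.MK.mchain DM S m (fun x v hv => Geod.ex D.loc (hS.1 x v hv))
      fun i hi => ?_
    obtain ⟨C, hC'⟩ := hS.2 i hi
    exact ⟨C, fun γ => hC' γ γ.2⟩
  have hc : ∀ x, Convex ℝ {v | v ∈ T 0 ∧ Vis dev x v} := fun x => by
    rw [hT0]
    exact Pool.Agent.Q185.MK.conv_sup DM hcm hTh x
  have hl : ∀ x y : X, dev y - dev x ∈ T 0 → Pool.Agent.Q185.MK.Lf dev (T 0) x y := fun x y hxy =>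
    Pool.Agent.Q185.MK.leaf_chain DM T k hT.top hT.mono (fun i γ => hT.inv i γ γ.2)
      (fun i hi => by
        obtain ⟨C, hC⟩ := hT.bdd i hi
        exact ⟨C, fun γ => hC γ γ.2⟩) x y hxy
  refine ⟨Pool.Agent.Q185.MK.inj_of_leaves DM hc hl, fun x => slice_flat DM hT0.symm hcm hTh x, ?_⟩
  rintro hVi hdim ⟨n, hn⟩
  rcases Pool.Agent.Q185.MK.block_main DM hT0.symm hcm hTh hl (fun γ => hVi γ γ.2)
    (fun γ => hT.inv 0 γ γ.2) (n := n) hn (by
      rcases hdim with h | ⟨h, -, B, W, h1, h2, h3, h4⟩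
      · exact Or.inl h
      · exact Or.inr ⟨h, B, W, h1, h2, h3, fun γ => h4 γ γ.2⟩) with h | h
  · left
    obtain ⟨x0⟩ := (inferInstance : Nonempty X)
    refine homeo_of_all D.loc (x := x0) fun v => ?_
    have h5 := Pool.Agent.Q185.MK.mchain DM T k h (fun i hi => by
      obtain ⟨C, hC⟩ := hT.bdd i hi
      exact ⟨C, fun γ => hC γ γ.2⟩)
    exact h5 x0 v (by rw [hT.top]; exact Submodule.mem_top)
  · exact Or.inr h

end Pool.Agent.Q185.MK.Conds
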