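import Pool.Agent.Q185.MK.Thin

/-!
From convex visible sets to injectivity and completeness.
-/

set_option autoImplicit false

open Set Filter Topology Metric

namespace Pool.Agent.Q185.MK

open Pool.Agent.W689.Mk (lin Sec Ex Geod Geod.ex sec_of_Ex exists_sec sec_of_target AffData
  visible_complete)
open Pool.Agent.TH569.MK Pool.Agent.Y449.MK
open Pool.Agent.W689.Ch (AffMfd)

section
variable {X E : Type} [TopologicalSpace X] [T2Space X] [NormedAddCommGroup E] [NormedSpace ℝ E]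
  {dev : X → E}

theorem vis_iff_geod (hloc : IsLocalHomeomorph dev) {x : X} {v : E} :
    Vis dev x v ↔ Geod dev x v :=
  ⟨fun ⟨_, hy⟩ => hy.geod, fun h => h.ex hloc⟩

/-- if the visible sets are convex, every point sees every point -/
theorem see_all [PreconnectedSpace X] (hloc : IsLocalHomeomorph dev)
    (hc : ∀ x, Convex ℝ {v | Vis dev x v}) (x y : X) : ∃ v, Ex dev x v y := by
  have hsee : ∀ p x y : X, (∃ v, Ex dev p v x) → (∃ v, Ex dev p v y) → ∃ v, Ex dev x v y := by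
    rintro p x y ⟨v, hv⟩ ⟨v', hv'⟩
    obtain ⟨σ, hσ, hσE⟩ := sec_of_Ex hloc (x := p) (ex_open p) (hc p) (fun v hv => hv)
    have h1 : x = σ (dev p + v) := hv.unique hloc (hσE v ⟨x, hv⟩)
    have h2 : y = σ (dev p + v') := hv'.unique hloc (hσE v' ⟨y, hv'⟩)
    have h3 : dev p + v + (v' - v) = dev p + v' := by abel
    refine ⟨v' - v, ?_⟩
    rw [h1, h2, ← h3]
    refine hσ.Ex ?_ ?_
    · show dev p + v - dev p ∈ {v | ∃ y, Ex dev p v y}
      rw [add_sub_cancel_left]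
      exact ⟨x, hv⟩
    · show dev p + v + (v' - v) - dev p ∈ {v | ∃ y, Ex dev p v y}
      rw [h3, add_sub_cancel_left]
      exact ⟨y, hv'⟩
  have hnear : ∀ y : X, ∃ N ∈ 𝓝 y, IsOpen N ∧ ∀ p ∈ N, ∀ q ∈ N, ∃ v, Ex dev p v q := by
    intro y
    obtain ⟨e, r, hxe, he, hr, hrt⟩ := exists_sec hloc y
    have hτ := sec_of_target e he (dev y) r hrt
    have hey : e.symm (dev y) = y := by rw [he]; exact e.left_inv hxe
    have hop := hτ.isOpen_image hloc isOpen_ball Subset.rfl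
    refine ⟨e.symm '' ball (dev y) r, hop.mem_nhds ⟨dev y, mem_ball_self hr, hey⟩, hop, ?_⟩
    rintro _ ⟨a, ha, rfl⟩ _ ⟨b, hb, rfl⟩
    refine ⟨b - a, ?_⟩
    have h1 := hτ.Ex ha (v := b - a) (by rwa [add_sub_cancel])
    rwa [add_sub_cancel] at h1
  have hsym : ∀ p q : X, (∃ v, Ex dev p v q) → ∃ v, Ex dev q v p := fun p q ⟨v, hv⟩ =>
    ⟨-v, hv.symm⟩
  have hop : IsOpen {y | ∃ v, Ex dev x v y} := by
    rw [isOpen_iff_mem_nhds]
    intro y hy
    obtain ⟨N, hN, hNo, hNp⟩ := hnear y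
    filter_upwards [hN] with z hz
    exact hsee y x z (hsym _ _ hy) (hNp y (mem_of_mem_nhds hN) z hz)
  have hcl : IsClosed {y | ∃ v, Ex dev x v y} := by
    rw [← closure_subset_iff_isClosed]
    intro y hy
    obtain ⟨N, hN, hNo, hNp⟩ := hnear y
    obtain ⟨p, hpN, hp⟩ := mem_closure_iff_nhds.1 hy N hN
    exact hsee p x y (hsym _ _ hp) (hNp p hpN y (mem_of_mem_nhds hN))
  have hne : ({y | ∃ v, Ex dev x v y} : Set X).Nonempty := ⟨x, 0, ex_zero hloc x⟩
  have := IsClopen.eq_univ ⟨hcl, hop⟩ hne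
  have h : y ∈ {y | ∃ v, Ex dev x v y} := by rw [this]; trivial
  exact h

/-- if the visible sets are convex, the developing map is injective with convex image -/
theorem inj_convex [PreconnectedSpace X] (hloc : IsLocalHomeomorph dev)
    (hc : ∀ x, Convex ℝ {v | Vis dev x v}) :
    Function.Injective dev ∧ Convex ℝ (range dev) := by
  have hall := see_all hloc hc
  refine ⟨fun x y hxy => ?_, ?_⟩
  · obtain ⟨v, hv⟩ := hall x y
    have h1 := hv.dev_eq
    rw [hxy] at h1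
    have h2 : v = 0 := by simpa using h1
    rw [h2] at hv
    exact (ex_zero hloc x).unique hloc hv
  · rintro _ ⟨x, rfl⟩ _ ⟨y, rfl⟩ s t hs ht hst
    obtain ⟨v, hv⟩ := hall x y
    have h1 := hv.dev_eq
    obtain ⟨U, σ, k1, k2, k3, k4, k5⟩ := hv
    rw [← h1] at k4
    exact ⟨_, k1.inv _ (k1.convex k2 k4 hs ht hst)⟩

end

section
variable {X Γ E : Type} [TopologicalSpace X] [T2Space X] [Group Γ] [MulAction Γ X]
  [NormedAddCommGroup E] [NormedSpace ℝ E] [FiniteDimensional ℝ E] {dev : X → E}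
  {hol : Γ →* (E ≃ᵃ[ℝ] E)}

theorem conv_sup (D : AffMfd X Γ E dev hol) {V S : Submodule ℝ E}
    (hS : ∀ (x : X), ∀ v ∈ S, Vis dev x v) (hT : Thin hol V S) (x : X) :
    Convex ℝ {v | v ∈ V ⊔ S ∧ Vis dev x v} := by
  have hV := conv_seen D hS hT x
  rintro p ⟨hp, hpx⟩ q ⟨hq, hqx⟩ a b ha hb hab
  refine ⟨(V ⊔ S).add_mem ((V ⊔ S).smul_mem _ hp) ((V ⊔ S).smul_mem _ hq), ?_⟩
  obtain ⟨p1, hp1, p2, hp2, rfl⟩ := Submodule.mem_sup.1 hp
  obtain ⟨q1, hq1, q2, hq2, rfl⟩ := Submodule.mem_sup.1 hq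
  have h1 : Vis dev x p1 := by
    have := vis_sat D.loc hS hpx hp2
    rwa [add_sub_cancel_right] at this
  have h2 : Vis dev x q1 := by
    have := vis_sat D.loc hS hqx hq2
    rwa [add_sub_cancel_right] at this
  have h3 := (hV ⟨hp1, h1⟩ ⟨hq1, h2⟩ ha hb hab).2
  have h4 := vis_sat D.loc hS h3 (s := -(a • p2 + b • q2))
    (S.neg_mem (S.add_mem (S.smul_mem _ hp2) (S.smul_mem _ hq2)))
  convert h4 using 1
  module

theorem conv_all (D : AffMfd X Γ E dev hol) {V S : Submodule ℝ E} (hVS : V ⊔ S = ⊤)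
    (hS : ∀ (x : X), ∀ v ∈ S, Vis dev x v) (hT : Thin hol V S) (x : X) :
    Convex ℝ {v | Vis dev x v} := by
  have h := conv_sup D hS hT x
  have h2 : {v | v ∈ V ⊔ S ∧ Vis dev x v} = {v | Vis dev x v} := by
    ext v
    rw [hVS]
    exact ⟨fun h => h.2, fun h => ⟨Submodule.mem_top, h⟩⟩
  rwa [h2] at h

theorem thin_complete (D : AffData X Γ E dev hol) [SecondCountableTopology X] [ConnectedSpace X]
    {V S : Submodule ℝ E} (hVS : V ⊔ S = ⊤) (hS : ∀ (x : X), ∀ v ∈ S, Vis dev x v)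
    (hT : Thin hol V S) : IsHomeomorph dev := by
  have D' : AffMfd X Γ E dev hol := ⟨D.loc, D.cont, D.equi, D.pd, D.cc⟩
  obtain ⟨x⟩ := (inferInstance : Nonempty X)
  exact visible_complete D (x := x) (see_all D.loc (conv_all D' hVS hS hT) x)

end

end Pool.Agent.Q185.MK
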