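import Pool.Agent.Q185.MK.Glob

/-!
Closed affine manifolds whose linear holonomy has discompacity at most one relative to complete
directions, without parallel volume: the developing image is the whole space or a half-space.
-/

set_option autoImplicit false

open Set Filter Topology Metric

namespace Pool.Agent.Q185.MK

open Pool.Agent.W689.Mk (lin hol_add hol_sub hol_inv_apply hol_apply_inv lin_inv_apply lin_mul
  lin_smul lin_neg hol_cont Sec Ex Geod Geod.ex sec_of_Ex exists_sec)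
open Pool.Agent.TH569.MK Pool.Agent.Y449.MK
open Pool.Agent.W689.Ch (AffMfd)

section convex
variable {E : Type} [NormedAddCommGroup E] [NormedSpace ℝ E]

/-- a convex open set whose boundary is flat enough is bounded by a hyperplane -/
theorem wall_of_dirs {Ω : Set E} (hO : IsOpen Ω) (hc : Convex ℝ Ω) (hne : Ω.Nonempty)
    (hu : Ω ≠ univ) {V S : Submodule ℝ E} (hVS : V ⊔ S = ⊤) (hS : ∀ q ∈ Ω, ∀ s ∈ S, q + s ∈ Ω)
    (hdir : ∀ p ∈ closure Ω, p ∉ Ω → ∀ u ∈ V, ∀ v ∈ V, ∃ a b : ℝ, (a ≠ 0 ∨ b ≠ 0) ∧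
      ∃ ρ > 0, ∀ t : ℝ, |t| ≤ ρ → p + t • (a • u + b • v) ∈ closure Ω) :
    ∃ (φ : E →L[ℝ] ℝ) (b : ℝ), φ ≠ 0 ∧ (∀ q ∈ Ω, φ q < b) ∧ ∀ q, φ q = b → q ∈ closure Ω := by
  obtain ⟨p, hp, hpO⟩ : ∃ p ∈ closure Ω, p ∉ Ω := by
    by_contra hcon
    push Not at hcon
    have hcl : IsClosed Ω := by
      rw [← closure_subset_iff_isClosed]
      exact hcon
    rcases isClopen_iff.1 (⟨hcl, hO⟩ : IsClopen Ω) with h | h
    · rw [h] at hne
      exact not_nonempty_empty hne
    · exact hu h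
  obtain ⟨φ, hφ⟩ := geometric_hahn_banach_open_point hc hO hpO
  obtain ⟨x0, hx0⟩ := hne
  have hφ0 : φ ≠ 0 := by
    intro h
    have := hφ x0 hx0
    rw [h] at this
    exact lt_irrefl _ this
  have hle : ∀ q ∈ closure Ω, φ q ≤ φ p := by
    intro q hq
    have h1 : closure Ω ⊆ {q | φ q ≤ φ p} :=
      closure_minimal (fun q hq => (hφ q hq).le) (isClosed_le φ.continuous continuous_const)
    exact h1 hq
  have hSφ : ∀ s ∈ S, φ s = 0 := by
    intro s hs
    by_contra h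
    have h1 : x0 + ((φ p - φ x0) / φ s) • s ∈ Ω := hS x0 hx0 _ (S.smul_mem _ hs)
    have h2 := hφ _ h1
    rw [map_add, map_smul, smul_eq_mul, div_mul_cancel₀ _ h] at h2
    linarith
  have hVφ : ∃ v0 ∈ V, φ v0 ≠ 0 := by
    by_contra hcon
    push Not at hcon
    apply hφ0
    ext v
    have hv : v ∈ V ⊔ S := by rw [hVS]; exact Submodule.mem_top
    obtain ⟨v1, hv1, s1, hs1, rfl⟩ := Submodule.mem_sup.1 hv
    rw [map_add, hcon v1 hv1, hSφ s1 hs1, add_zero]
    rfl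
  obtain ⟨v0, hv0, hφv0⟩ := hVφ
  have hScl : ∀ q ∈ closure Ω, ∀ s ∈ S, q + s ∈ closure Ω := by
    intro q hq s hs
    have h1 : MapsTo (fun q => q + s) Ω Ω := fun q hq => hS q hq s hs
    exact h1.closure (continuous_id.add continuous_const) hq
  -- the face is open in the directions of `V`
  have hop : ∀ f ∈ closure Ω, φ f = φ p → ∀ w ∈ V, φ w = 0 →
      ∃ ρ > 0, ∀ t : ℝ, |t| ≤ ρ → f + t • w ∈ closure Ω := by
    intro f hf hfp w hw hw0
    have hfO : f ∉ Ω := fun h => by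
      have := hφ f h
      rw [hfp] at this
      exact lt_irrefl _ this
    obtain ⟨a, b, hab, ρ, hρ, h1⟩ := hdir f hf hfO w hw v0 hv0
    have h2 : b = 0 := by
      by_contra hb
      have h3 := hle _ (h1 ρ (abs_of_pos hρ).le)
      have h4 := hle _ (h1 (-ρ) (by rw [abs_neg]; exact (abs_of_pos hρ).le))
      simp only [map_add, map_smul, smul_eq_mul, hw0, hfp, mul_zero, zero_add] at h3 h4
      have h5 : ρ * (b * φ v0) = 0 := by linarith
      have h6 : ρ * (b * φ v0) ≠ 0 := mul_ne_zero hρ.ne' (mul_ne_zero hb hφv0)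
      exact h6 h5
    have ha : a ≠ 0 := by
      rcases hab with h | h
      · exact h
      · exact absurd h2 h
    refine ⟨ρ * |a|, mul_pos hρ (abs_pos.2 ha), fun t ht => ?_⟩
    have h3 := h1 (t / a) (by rw [abs_div, div_le_iff₀ (abs_pos.2 ha)]; exact ht)
    rw [h2, zero_smul, add_zero, smul_smul, div_mul_cancel₀ _ ha] at h3
    exact h3
  refine ⟨φ, φ p, hφ0, hφ, fun q hq => ?_⟩
  have hqp : q - p ∈ V ⊔ S := by rw [hVS]; exact Submodule.mem_top
  obtain ⟨w, hw, s, hs, hws⟩ := Submodule.mem_sup.1 hqp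
  have hw0 : φ w = 0 := by
    have h1 : φ w + φ s = φ q - φ p := by rw [← map_add, hws, map_sub]
    rw [hSφ s hs, hq] at h1
    linarith
  have hall : {t : ℝ | p + t • w ∈ closure Ω} = univ := by
    refine IsClopen.eq_univ ⟨?_, ?_⟩ ⟨0, by
      show p + (0 : ℝ) • w ∈ closure Ω
      rw [zero_smul, add_zero]; exact hp⟩
    · exact isClosed_closure.preimage
        (continuous_const.add (continuous_id.smul continuous_const))
    · rw [Metric.isOpen_iff]
      intro t ht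
      obtain ⟨ρ, hρ, h1⟩ := hop _ ht (by rw [map_add, map_smul, hw0, smul_zero, add_zero]) w hw hw0
      refine ⟨ρ, hρ, fun t' ht' => ?_⟩
      have h2 := h1 (t' - t) (by
        rw [mem_ball, Real.dist_eq] at ht'
        exact ht'.le)
      have h3 : p + t • w + (t' - t) • w = p + t' • w := by module
      rw [h3] at h2
      exact h2
  have h1 : (1 : ℝ) ∈ {t : ℝ | p + t • w ∈ closure Ω} := by rw [hall]; trivial
  have h2 : p + (1 : ℝ) • w ∈ closure Ω := h1
  rw [one_smul] at h2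
  have h3 := hScl _ h2 s hs
  have h4 : p + w + s = q := by
    rw [add_assoc, hws]
    abel
  rwa [h4] at h3

/-- points between a point of the set and the bounding hyperplane are in the set -/
theorem between {Ω : Set E} (hO : IsOpen Ω) (hc : Convex ℝ Ω) {φ : E →L[ℝ] ℝ} {b : ℝ}
    (hcl : ∀ q, φ q = b → q ∈ closure Ω) {x0 x : E} (hx0 : x0 ∈ Ω) (h1 : φ x0 < φ x)
    (h2 : φ x < b) : x ∈ Ω := by
  obtain ⟨t, ht⟩ : ∃ t, t = (φ x - φ x0) / (b - φ x0) := ⟨_, rfl⟩
  have hb0 : 0 < b - φ x0 := by linarith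
  have ht0 : 0 < t := by rw [ht]; exact div_pos (by linarith) hb0
  have ht1 : t < 1 := by rw [ht, div_lt_one hb0]; linarith
  have hq : x0 + t⁻¹ • (x - x0) ∈ closure Ω := by
    apply hcl
    rw [map_add, map_smul, map_sub, smul_eq_mul, ht, inv_div]
    have : φ x - φ x0 ≠ 0 := by
      have : 0 < φ x - φ x0 := by linarith
      exact this.ne'
    rw [div_mul_cancel₀ _ this]
    ring
  have h3 := hc.combo_interior_closure_mem_interior (x := x0) (by rwa [hO.interior_eq]) hq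
    (a := 1 - t) (b := t) (by linarith) ht0.le (by ring)
  rw [hO.interior_eq] at h3
  have h4 : (1 - t) • x0 + t • (x0 + t⁻¹ • (x - x0)) = x := by
    rw [smul_add, smul_smul, mul_inv_cancel₀ ht0.ne', one_smul]
    module
  rwa [h4] at h3

end convex

section
variable {X Γ E : Type} [TopologicalSpace X] [T2Space X] [Group Γ] [MulAction Γ X]
  [NormedAddCommGroup E] [NormedSpace ℝ E] [FiniteDimensional ℝ E] {dev : X → E}
  {hol : Γ →* (E ≃ᵃ[ℝ] E)}

/-- directions on which the linear holonomy is bounded modulo complete directions are complete -/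
theorem mchain_step (D : AffMfd X Γ E dev hol) {S F : Submodule ℝ E}
    (hS : ∀ (x : X), ∀ v ∈ S, ∃ y, Ex dev x v y)
    (hC : ∃ C : ℝ, ∀ γ : Γ, ∀ v ∈ F, ∃ w ∈ S, ‖lin hol γ v - w‖ ≤ C * ‖v‖) :
    ∀ (x : X), ∀ v ∈ F, ∃ y, Ex dev x v y := by
  have hloc := D.loc
  obtain ⟨C, hC⟩ := hC
  intro x0 v hv
  by_contra hcon
  obtain ⟨s, hs0, -, hun, hse⟩ := first_unseen hloc hcon
  obtain ⟨b, hb⟩ : ∃ b, b = s • v := ⟨_, rfl⟩
  rw [← hb] at hun
  have hbF : b ∈ F := by rw [hb]; exact F.smul_mem _ hv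
  obtain ⟨t, htd⟩ : ∃ t : ℕ → ℝ, t = fun k : ℕ => 1 - 1 / ((k : ℝ) + 2) := ⟨_, rfl⟩
  have ht0 : ∀ k, 0 < t k := by
    intro k
    rw [htd]
    have h1 : (0 : ℝ) < (k : ℝ) + 2 := by positivity
    have h2 : 1 / ((k : ℝ) + 2) < 1 := by
      rw [div_lt_one h1]
      have : (0 : ℝ) ≤ k := Nat.cast_nonneg k
      linarith
    beta_reduce
    linarith
  have ht1 : ∀ k, t k < 1 := by
    intro k
    rw [htd]
    have h1 : (0 : ℝ) < 1 / ((k : ℝ) + 2) := by positivity
    beta_reduce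
    linarith
  have htl : Tendsto t atTop (𝓝 1) := by
    rw [htd]
    have h1 : Tendsto (fun k : ℕ => 1 / ((k : ℝ) + 2)) atTop (𝓝 0) := by
      have h2 : Tendsto (fun k : ℕ => (k : ℝ) + 2) atTop atTop :=
        tendsto_atTop_add_const_right _ _ tendsto_natCast_atTop_atTop
      exact h2.inv_tendsto_atTop.congr fun k => by rw [Pi.inv_apply, one_div]
    simpa using (tendsto_const_nhds (x := (1 : ℝ))).sub h1
  choose xs hxsE using fun k => hse (t k) (ht0 k).le (ht1 k)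
  have hxsun : ∀ k, ¬ ∃ y, Ex dev (xs k) ((1 - t k) • b) y := fun k h =>
    hun (ex_line hloc (ht0 k).le (ht1 k).le (by rw [hb]; exact hxsE k) h)
  obtain ⟨K, hK, hKc⟩ := D.cc
  choose γ' κ hκ hγ' using fun k => hKc (xs k)
  have hfc : FirstCountableTopology X := by
    refine ⟨fun x => ?_⟩
    obtain ⟨e, hx, he⟩ := D.loc x
    rw [e.nhds_eq_comap_inf_principal hx]
    infer_instance
  obtain ⟨z, -, φ, hφ, hzl⟩ := hK.tendsto_subseq hκ
  obtain ⟨r, hr, N, hN, HN⟩ := local_ball hloc hS z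
  have h1 : ∀ᶠ k in atTop, κ (φ k) ∈ N := hzl.eventually_mem hN
  have h2 : ∀ᶠ k in atTop, (1 - t (φ k)) * (C * ‖b‖) < r := by
    have h3 : Tendsto (fun k => (1 - t (φ k)) * (C * ‖b‖)) atTop (𝓝 ((1 - 1) * (C * ‖b‖))) :=
      ((tendsto_const_nhds (x := (1 : ℝ))).sub (htl.comp hφ.tendsto_atTop)).mul_const _
    rw [sub_self, zero_mul] at h3
    exact h3.eventually_lt_const hr
  obtain ⟨k, k1, k2⟩ := (h1.and h2).exists
  obtain ⟨w, hw, hwn⟩ := hC (γ' (φ k))⁻¹ b hbF
  have h1t : 0 ≤ 1 - t (φ k) := by linarith [ht1 (φ k)]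
  obtain ⟨y, hy⟩ := HN _ k1 ((1 - t (φ k)) • lin hol (γ' (φ k))⁻¹ b) ((1 - t (φ k)) • w)
    (S.smul_mem _ hw) (by
      rw [← smul_sub, norm_smul, Real.norm_eq_abs, abs_of_nonneg h1t]
      exact lt_of_le_of_lt (mul_le_mul_of_nonneg_left hwn h1t) k2)
  rw [← lin_smul] at hy
  exact hxsun (φ k) ⟨_, mex_back D (hγ' (φ k)) ⟨y, hy⟩⟩

/-- completeness propagates along a chain of subspaces with bounded quotients -/
theorem mchain (D : AffMfd X Γ E dev hol) (S : ℕ → Submodule ℝ E) (m : ℕ)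
    (hS : ∀ (x : X), ∀ v ∈ S 0, ∃ y, Ex dev x v y)
    (hC : ∀ i < m, ∃ C : ℝ, ∀ γ : Γ, ∀ v ∈ S (i + 1), ∃ w ∈ S i, ‖lin hol γ v - w‖ ≤ C * ‖v‖) :
    ∀ (x : X), ∀ v ∈ S m, ∃ y, Ex dev x v y := by
  have key : ∀ i ≤ m, ∀ (x : X), ∀ v ∈ S i, ∃ y, Ex dev x v y := by
    intro i
    induction i with
    | zero => exact fun _ => hS
    | succ i ih => exact fun hi => mchain_step D (ih (by omega)) (hC i (by omega))
  exact key m le_rfl

/-- the boundary of the developing image is flat -/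
theorem thin_dirs (D : AffMfd X Γ E dev hol) {V S : Submodule ℝ E}
    (hS : ∀ (x : X), ∀ v ∈ S, Vis dev x v) (hT : Thin hol V S) :
    ∀ p ∈ closure (range dev), ∀ u ∈ V, ∀ v ∈ V, ∃ a b : ℝ, (a ≠ 0 ∨ b ≠ 0) ∧
      ∃ ρ > 0, ∀ t : ℝ, |t| ≤ ρ → p + t • (a • u + b • v) ∈ closure (range dev) := by
  intro p hp u hu v hv
  obtain ⟨x, hx, hxp⟩ := mem_closure_iff_seq_limit.1 hp
  choose y hy using hx
  obtain ⟨K, hK, hKc⟩ := D.cc
  choose γ κ hκ hγ using fun k => hKc (y k)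
  have hfc : FirstCountableTopology X := by
    refine ⟨fun x => ?_⟩
    obtain ⟨e, hx, he⟩ := D.loc x
    rw [e.nhds_eq_comap_inf_principal hx]
    infer_instance
  obtain ⟨z, -, φ, hφ, hzl⟩ := hK.tendsto_subseq hκ
  obtain ⟨r, hr, N, hN, HN⟩ := local_ball D.loc hS z
  obtain ⟨C, hC⟩ := hT.norm hu hv
  choose a b ha hb hab _ s hs _ hsn using fun k => hC (γ (φ k))⁻¹ 0 0
  have hC0 : 0 ≤ C := (norm_nonneg _).trans (hsn 0)
  have hcpt : IsCompact ((Icc (-1 : ℝ) 1) ×ˢ (Icc (-1 : ℝ) 1)) := isCompact_Icc.prod isCompact_Icc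
  obtain ⟨⟨a', b'⟩, -, ψ, hψ, hl⟩ := hcpt.tendsto_subseq (x := fun k => (a k, b k)) fun k =>
    ⟨abs_le.1 (ha k), abs_le.1 (hb k)⟩
  have hla : Tendsto (fun k => a (ψ k)) atTop (𝓝 a') :=
    (continuous_fst.tendsto _).comp hl
  have hlb : Tendsto (fun k => b (ψ k)) atTop (𝓝 b') :=
    (continuous_snd.tendsto _).comp hl
  refine ⟨a', b', ?_, r / (C + 1) / 2, by positivity, fun t ht => ?_⟩
  · by_contra hcon
    push Not at hcon
    rw [hcon.1] at hla
    rw [hcon.2] at hlb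
    have h1 := hla.abs
    have h2 := hlb.abs
    rw [abs_zero] at h1 h2
    obtain ⟨k, k1, k2⟩ := ((h1.eventually_lt_const one_pos).and
      (h2.eventually_lt_const one_pos)).exists
    rcases hab (ψ k) with h | h
    · rw [h] at k1
      exact lt_irrefl _ k1
    · rw [h] at k2
      exact lt_irrefl _ k2
  · have hlim : Tendsto (fun k => x (φ (ψ k)) + t • (a (ψ k) • u + b (ψ k) • v)) atTop
        (𝓝 (p + t • (a' • u + b' • v))) := by
      refine (hxp.comp (hφ.comp hψ).tendsto_atTop).add (Tendsto.const_smul ?_ t)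
      exact (hla.smul_const u).add (hlb.smul_const v)
    refine mem_closure_of_tendsto hlim ?_
    have h1 : ∀ᶠ k in atTop, κ (φ (ψ k)) ∈ N :=
      (hzl.comp hψ.tendsto_atTop).eventually_mem hN
    filter_upwards [h1] with k hk
    have h2 : Vis dev (κ (φ (ψ k)))
        (t • lin hol (γ (φ (ψ k)))⁻¹ (a (ψ k) • u + b (ψ k) • v - s (ψ k))) := by
      refine HN _ hk _ 0 S.zero_mem ?_
      rw [sub_zero, norm_smul, Real.norm_eq_abs]
      calc |t| * ‖lin hol (γ (φ (ψ k)))⁻¹ (a (ψ k) • u + b (ψ k) • v - s (ψ k))‖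
          ≤ r / (C + 1) / 2 * C := mul_le_mul ht (hsn _) (norm_nonneg _) (by positivity)
        _ ≤ r / 2 := by
            rw [div_div, div_mul_eq_mul_div, div_le_div_iff₀ (by positivity) two_pos]
            nlinarith
        _ < r := by linarith
    rw [← lin_smul] at h2
    have h3 := mex_back D (hγ (φ (ψ k))) h2
    have h4 : Vis dev (y (φ (ψ k))) (t • (a (ψ k) • u + b (ψ k) • v)) := by
      have h5 := vis_sat D.loc hS ⟨_, h3⟩ (s := -(t • s (ψ k))) (S.neg_mem (S.smul_mem _ (hs _)))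
      convert h5 using 1
      module
    obtain ⟨y', hy'⟩ := h4
    refine ⟨y', ?_⟩
    rw [hy'.dev_eq, hy]

end

end Pool.Agent.Q185.MK
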