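import Pool.Agent.Q185.MK.Half

/-!
The dichotomy: complete or developed onto a half-space.
-/

set_option autoImplicit false

open Set Filter Topology Metric

namespace Pool.Agent.Q185.MK

open Pool.Agent.W689.Mk (lin hol_add hol_sub hol_inv_apply hol_apply_inv lin_inv_apply lin_mul
  lin_smul lin_neg hol_cont Sec Ex Geod Geod.ex sec_of_Ex exists_sec)
open Pool.Agent.TH569.MK Pool.Agent.Y449.MK
open Pool.Agent.W689.Ch (AffMfd)

section
variable {X Γ E : Type} [TopologicalSpace X] [T2Space X] [Group Γ] [MulAction Γ X]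
  [NormedAddCommGroup E] [NormedSpace ℝ E] [FiniteDimensional ℝ E] {dev : X → E}
  {hol : Γ →* (E ≃ᵃ[ℝ] E)}

/-- an affine map preserving a slab preserves the product of the distances to its boundary, and its
linear part multiplies the functional by a sign -/
theorem slab_lin (φ : E →L[ℝ] ℝ) {a b : ℝ} (hab : a < b) (hφ : φ ≠ 0) (g : E ≃ᵃ[ℝ] E)
    (hg : ∀ q, a < φ q → φ q < b → a < φ (g q) ∧ φ (g q) < b) :
    ∃ α β : ℝ, (∀ q, φ (g q) = α * φ q + β) ∧ |α| ≤ 1 := by
  obtain ⟨e, he⟩ : ∃ e, φ e = 1 := by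
    have : ∃ v, φ v ≠ 0 := by
      by_contra hcon
      push Not at hcon
      exact hφ (ContinuousLinearMap.ext hcon)
    obtain ⟨v, hv⟩ := this
    exact ⟨(φ v)⁻¹ • v, by rw [map_smul, smul_eq_mul, inv_mul_cancel₀ hv]⟩
  have hlin : ∀ (q v : E), g (q + v) = g q + g.linear v := by
    intro q v
    have := g.map_vadd q v
    rw [vadd_eq_add, vadd_eq_add, add_comm] at this
    rw [this, add_comm]
  have hmid : ∀ s : ℝ, a < s → s < b → ∀ w : E, φ w = 0 → a < φ (g (s • e + w)) ∧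
      φ (g (s • e + w)) < b := by
    intro s h1 h2 w hw
    have h3 : φ (s • e + w) = s := by rw [map_add, map_smul, he, hw, smul_eq_mul]; ring
    exact hg _ (by rwa [h3]) (by rwa [h3])
  have hker : ∀ w, φ w = 0 → φ (g.linear w) = 0 := by
    intro w hw
    by_contra hne
    obtain ⟨s, hs⟩ : ∃ s, s = (a + b) / 2 := ⟨_, rfl⟩
    have h1 := (hmid s (by linarith) (by linarith)
      (((b - φ (g (s • e))) / φ (g.linear w)) • w) (by rw [map_smul, hw, smul_zero])).2
    rw [hlin, map_add] at h1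
    have h2 : g.linear (((b - φ (g (s • e))) / φ (g.linear w)) • w) =
        ((b - φ (g (s • e))) / φ (g.linear w)) • g.linear w := map_smul _ _ _
    rw [h2, φ.map_smul, smul_eq_mul, div_mul_cancel₀ _ hne] at h1
    linarith
  have hform : ∀ q, φ (g q) = φ (g.linear e) * φ q + φ (g 0) := by
    intro q
    have h1 : q = 0 + q := by rw [zero_add]
    have h2 : q = φ q • e + (q - φ q • e) := by abel
    have h3 : φ (q - φ q • e) = 0 := by rw [map_sub, map_smul, he, smul_eq_mul]; ring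
    have h4 : φ (g.linear q) = φ q * φ (g.linear e) := by
      conv_lhs => rw [h2]
      have h5 : g.linear (φ q • e + (q - φ q • e)) = φ q • g.linear e +
          g.linear (q - φ q • e) := by
        rw [map_add, map_smul]
      rw [h5, map_add, hker _ h3, map_smul, smul_eq_mul, add_zero]
    conv_lhs => rw [h1]
    rw [hlin, map_add, h4]
    ring
  refine ⟨φ (g.linear e), φ (g 0), hform, ?_⟩
  by_contra hcon
  push Not at hcon
  obtain ⟨α, hα⟩ : ∃ α, α = φ (g.linear e) := ⟨_, rfl⟩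
  rw [← hα] at hcon hform
  have hval : ∀ s : ℝ, a < s → s < b → a < α * s + φ (g 0) ∧ α * s + φ (g 0) < b := by
    intro s h1 h2
    have h3 := hmid s h1 h2 0 (map_zero _)
    rw [add_zero, hform, map_smul, he, smul_eq_mul, mul_one] at h3
    exact h3
  -- two points at distance close to `b - a`
  have hα0 : 0 < |α| := by linarith
  obtain ⟨δ, hδ⟩ : ∃ δ, δ = (b - a) * (|α| - 1) / (2 * |α|) / 2 := ⟨_, rfl⟩
  have hδ0 : 0 < δ := by
    rw [hδ]
    have h1 : 0 < b - a := by linarith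
    have h2 : 0 < |α| - 1 := by linarith
    positivity
  have hδ1 : 4 * |α| * δ = (b - a) * (|α| - 1) := by
    rw [hδ]
    field_simp
    ring
  have hδ2 : δ < (b - a) / 2 := by
    nlinarith
  have h1 := hval (a + δ) (by linarith) (by linarith)
  have h2 := hval (b - δ) (by linarith) (by linarith)
  have h3 : |α * (b - δ) + φ (g 0) - (α * (a + δ) + φ (g 0))| < b - a := by
    rw [abs_lt]
    constructor <;> linarith [h1.1, h1.2, h2.1, h2.2]
  have h4 : α * (b - δ) + φ (g 0) - (α * (a + δ) + φ (g 0)) = α * (b - a - 2 * δ) := by ring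
  rw [h4, abs_mul, abs_of_pos (by linarith : 0 < b - a - 2 * δ)] at h3
  nlinarith

theorem slab_inv (φ : E →L[ℝ] ℝ) {a b : ℝ} (hab : a < b) (hφ : φ ≠ 0) (g h : E ≃ᵃ[ℝ] E)
    (hg : ∀ q, a < φ q → φ q < b → a < φ (g q) ∧ φ (g q) < b)
    (hh : ∀ q, a < φ q → φ q < b → a < φ (h q) ∧ φ (h q) < b) (hgh : ∀ q, h (g q) = q) (q : E) :
    (φ (g q) - a) * (b - φ (g q)) = (φ q - a) * (b - φ q) := by
  obtain ⟨e, he⟩ : ∃ e, φ e = 1 := by
    have : ∃ v, φ v ≠ 0 := by
      by_contra hcon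
      push Not at hcon
      exact hφ (ContinuousLinearMap.ext hcon)
    obtain ⟨v, hv⟩ := this
    exact ⟨(φ v)⁻¹ • v, by rw [map_smul, smul_eq_mul, inv_mul_cancel₀ hv]⟩
  obtain ⟨α, β, h1, h2⟩ := slab_lin φ hab hφ g hg
  obtain ⟨α', β', h3, h4⟩ := slab_lin φ hab hφ h hh
  have h5 : ∀ s : ℝ, s = α' * (α * s + β) + β' := by
    intro s
    have h6 := congrArg φ (hgh (s • e))
    rw [h3, h1, map_smul, he, smul_eq_mul, mul_one] at h6
    exact h6.symm
  have h6 : α' * α = 1 := by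
    have e0 := h5 0
    have e1 := h5 1
    linarith
  have h7 : |α| = 1 := by
    have h8 : |α'| * |α| = 1 := by rw [← abs_mul, h6, abs_one]
    have h9 : 0 ≤ |α| := abs_nonneg α
    have h10 : 0 ≤ |α'| := abs_nonneg α'
    nlinarith
  have hval : ∀ s : ℝ, a < s → s < b → a < α * s + β ∧ α * s + β < b := by
    intro s k1 k2
    have h3 : φ (s • e) = s := by rw [map_smul, he, smul_eq_mul, mul_one]
    have := hg (s • e) (by rwa [h3]) (by rwa [h3])
    rwa [h1, h3] at this
  have hcla : a ≤ α * a + β ∧ α * a + β ≤ b := by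
    have h8 : Tendsto (fun s : ℝ => α * s + β) (𝓝[>] a) (𝓝 (α * a + β)) :=
      ((continuous_const.mul continuous_id).add continuous_const).continuousWithinAt
    have h9 : ∀ᶠ s in 𝓝[>] a, a < α * s + β ∧ α * s + β < b := by
      filter_upwards [Ioo_mem_nhdsGT hab] with s hs
      exact hval s hs.1 hs.2
    exact ⟨ge_of_tendsto h8 (h9.mono fun s hs => hs.1.le), le_of_tendsto h8
      (h9.mono fun s hs => hs.2.le)⟩
  have hclb : a ≤ α * b + β ∧ α * b + β ≤ b := by
    have h8 : Tendsto (fun s : ℝ => α * s + β) (𝓝[<] b) (𝓝 (α * b + β)) :=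
      ((continuous_const.mul continuous_id).add continuous_const).continuousWithinAt
    have h9 : ∀ᶠ s in 𝓝[<] b, a < α * s + β ∧ α * s + β < b := by
      filter_upwards [Ioo_mem_nhdsLT hab] with s hs
      exact hval s hs.1 hs.2
    exact ⟨ge_of_tendsto h8 (h9.mono fun s hs => hs.1.le), le_of_tendsto h8
      (h9.mono fun s hs => hs.2.le)⟩
  rw [h1]
  rcases eq_or_eq_neg_of_abs_eq h7 with h8 | h8
  · rw [h8] at hcla hclb ⊢
    have : β = 0 := by linarith [hcla.1, hclb.2]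
    rw [this]
    ring
  · rw [h8] at hcla hclb ⊢
    have : β = a + b := by linarith [hcla.2, hclb.1]
    rw [this]
    ring

/-- **The dichotomy.** -/
theorem all_or_half (D : AffMfd X Γ E dev hol) [ConnectedSpace X] {V S : Submodule ℝ E}
    (hVS : V ⊔ S = ⊤) (hS : ∀ (x : X), ∀ v ∈ S, Vis dev x v) (hT : Thin hol V S) :
    IsHomeomorph dev ∨ (Function.Injective dev ∧ ∃ (φ : E →L[ℝ] ℝ) (b : ℝ), φ ≠ 0 ∧
      range dev = {q | φ q < b}) := by
  obtain ⟨hinj, hconv⟩ := inj_convex D.loc (conv_all D hVS hS hT)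
  by_cases hu : range dev = univ
  · exact Or.inl ⟨D.loc.continuous, D.loc.isOpenMap, hinj, range_eq_univ.1 hu⟩
  right
  refine ⟨hinj, ?_⟩
  have hO : IsOpen (range dev) := D.loc.isOpenMap.isOpen_range
  have hne : (range dev).Nonempty := range_nonempty dev
  have hSinv : ∀ q ∈ range dev, ∀ s ∈ S, q + s ∈ range dev := by
    rintro _ ⟨x, rfl⟩ s hs
    obtain ⟨y, hy⟩ := hS x s hs
    exact ⟨y, hy.dev_eq⟩
  obtain ⟨φ, b, hφ, hlt, hcl⟩ := wall_of_dirs hO hconv hne hu hVS hSinv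
    fun p hp _ u hu v hv => thin_dirs D hS hT p hp u hu v hv
  refine ⟨φ, b, hφ, ?_⟩
  have hbt : ∀ {x0 x : E}, x0 ∈ range dev → φ x0 < φ x → φ x < b → x ∈ range dev :=
    fun h0 h1 h2 => between hO hconv hcl h0 h1 h2
  obtain ⟨e, he⟩ : ∃ e, φ e = 1 := by
    have : ∃ v, φ v ≠ 0 := by
      by_contra hcon
      push Not at hcon
      exact hφ (ContinuousLinearMap.ext hcon)
    obtain ⟨v, hv⟩ := this
    exact ⟨(φ v)⁻¹ • v, by rw [map_smul, smul_eq_mul, inv_mul_cancel₀ hv]⟩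
  by_cases hbd : BddBelow (φ '' range dev)
  · exfalso
    obtain ⟨a, ha⟩ : ∃ a, a = sInf (φ '' range dev) := ⟨_, rfl⟩
    have hne' : (φ '' range dev).Nonempty := hne.image _
    have hlo : ∀ q ∈ range dev, a < φ q := by
      intro q hq
      obtain ⟨ε, hε, hball⟩ := Metric.isOpen_iff.1 hO q hq
      obtain ⟨δ, hδ⟩ : ∃ δ, δ = ε / (2 * (‖e‖ + 1)) := ⟨_, rfl⟩
      have hδ0 : 0 < δ := by rw [hδ]; positivity
      have h1 : q - δ • e ∈ range dev := by
        apply hball
        rw [mem_ball, dist_eq_norm, sub_sub_cancel_left, norm_neg, norm_smul, Real.norm_eq_abs,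
          abs_of_pos hδ0, hδ, div_mul_eq_mul_div, div_lt_iff₀ (by positivity)]
        nlinarith [norm_nonneg e]
      have h2 : a ≤ φ (q - δ • e) := by
        rw [ha]
        exact csInf_le hbd ⟨_, h1, rfl⟩
      rw [map_sub, map_smul, he, smul_eq_mul, mul_one] at h2
      linarith
    have hslab : ∀ q, a < φ q → φ q < b → q ∈ range dev := by
      intro q h1 h2
      rw [ha] at h1
      obtain ⟨_, ⟨x0, hx0, rfl⟩, h3⟩ := exists_lt_of_csInf_lt hne' h1
      exact hbt hx0 h3 h2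
    obtain ⟨q0, hq0⟩ := hne
    have hab : a < b := (hlo q0 hq0).trans (hlt q0 hq0)
    have hpres : ∀ (γ : Γ) (q : E), a < φ q → φ q < b → a < φ (hol γ q) ∧ φ (hol γ q) < b := by
      intro γ q h1 h2
      obtain ⟨x, rfl⟩ := hslab q h1 h2
      have h3 : hol γ (dev x) ∈ range dev := ⟨γ • x, D.equi γ x⟩
      exact ⟨hlo _ h3, hlt _ h3⟩
    have hinv : ∀ (γ : Γ) (q : E),
        (φ (hol γ q) - a) * (b - φ (hol γ q)) = (φ q - a) * (b - φ q) := by
      intro γ q
      exact slab_inv φ hab hφ (hol γ) (hol γ⁻¹) (hpres γ) (hpres γ⁻¹)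
        (fun q => hol_inv_apply γ q) q
    obtain ⟨K, hK, hKc⟩ := D.cc
    obtain ⟨x0⟩ := (inferInstance : Nonempty X)
    obtain ⟨-, k0, hk0, -⟩ := hKc x0
    have hcont : Continuous fun x : X => (φ (dev x) - a) * (b - φ (dev x)) := by
      have h1 : Continuous fun x : X => φ (dev x) := φ.continuous.comp D.loc.continuous
      exact (h1.sub continuous_const).mul (continuous_const.sub h1)
    obtain ⟨k, hk, hmin⟩ := hK.exists_isMinOn ⟨k0, hk0⟩ hcont.continuousOn
    obtain ⟨μ, hμ⟩ : ∃ μ, μ = (φ (dev k) - a) * (b - φ (dev k)) := ⟨_, rfl⟩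
    have hμ0 : 0 < μ := by
      rw [hμ]
      exact mul_pos (by linarith [hlo (dev k) ⟨k, rfl⟩]) (by linarith [hlt (dev k) ⟨k, rfl⟩])
    obtain ⟨ε, hε⟩ : ∃ ε, ε = min ((b - a) / 2) (μ / (2 * (b - a))) := ⟨_, rfl⟩
    have hba : 0 < b - a := by linarith
    have hε0 : 0 < ε := by rw [hε]; exact lt_min (by linarith) (by positivity)
    have hε1 : ε ≤ (b - a) / 2 := by rw [hε]; exact min_le_left _ _
    have hε2 : ε * (b - a) ≤ μ / 2 := by
      have h1 : ε ≤ μ / (2 * (b - a)) := by rw [hε]; exact min_le_right _ _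
      rw [le_div_iff₀ (by positivity)] at h1
      linarith
    have hval : φ ((b - ε) • e) = b - ε := by rw [map_smul, he, smul_eq_mul, mul_one]
    obtain ⟨x, hx⟩ := hslab ((b - ε) • e) (by rw [hval]; linarith) (by rw [hval]; linarith)
    obtain ⟨γ, κ, hκ, hγ⟩ := hKc x
    have h1 := hinv γ (dev κ)
    rw [← D.equi, hγ, hx, hval] at h1
    have h2 : μ ≤ (φ (dev κ) - a) * (b - φ (dev κ)) := by
      rw [hμ]
      exact hmin hκ
    nlinarith
  · ext q
    refine ⟨hlt q, fun hq => ?_⟩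
    rw [not_bddBelow_iff] at hbd
    obtain ⟨_, ⟨x0, hx0, rfl⟩, h3⟩ := hbd (φ q)
    exact hbt hx0 h3 hq

end

end Pool.Agent.Q185.MK
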