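import Pool.Agent.Q185.MK.Thin
import Pool.Agent.Q185.MK.Act

/-!
The leaf space of the foliation of a closed affine manifold by an invariant direction on which the
quotient of the linear holonomy is bounded.
-/

set_option autoImplicit false

open Set Filter Topology Metric

namespace Pool.Agent.Q185.MK

open Pool.Agent.W689.Mk (lin hol_add hol_sub hol_inv_apply hol_apply_inv lin_inv_apply lin_mul
  lin_smul lin_neg hol_cont Sec Ex Geod Geod.ex sec_of_Ex exists_sec sec_of_target)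
open Pool.Agent.TH569.MK Pool.Agent.Y449.MK
open Pool.Agent.W689.Ch (AffMfd)

/-- a locally total equivalence relation on a connected space is total -/
theorem conn_rel {I : Type} [TopologicalSpace I] [PreconnectedSpace I] {R : I → I → Prop}
    (hs : ∀ a b, R a b → R b a) (ht : ∀ a b c, R a b → R b c → R a c)
    (hl : ∀ a, ∀ᶠ b in 𝓝 a, R a b) (a b : I) : R a b := by
  have h : {b | R a b} = univ := by
    refine IsClopen.eq_univ ⟨?_, ?_⟩ ⟨a, (hl a).self_of_nhds⟩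
    · rw [← isOpen_compl_iff, isOpen_iff_mem_nhds]
      intro b hb
      filter_upwards [hl b] with c hc hac
      exact hb (ht _ _ _ hac (hs _ _ hc))
    · rw [isOpen_iff_mem_nhds]
      intro b hb
      filter_upwards [hl b] with c hc
      exact ht _ _ _ hb hc
  have : b ∈ {b | R a b} := by rw [h]; trivial
  exact this

section
variable {X E : Type} [TopologicalSpace X] [NormedAddCommGroup E] [NormedSpace ℝ E]

/-- same leaf -/
def Lf (dev : X → E) (P : Submodule ℝ E) : X → X → Prop :=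
  Relation.ReflTransGen fun a b => ∃ p ∈ P, Ex dev a p b

variable {dev : X → E} {P : Submodule ℝ E}

theorem Lf.one {a b : X} {p : E} (hp : p ∈ P) (h : Ex dev a p b) : Lf dev P a b :=
  Relation.ReflTransGen.single ⟨p, hp, h⟩

theorem Lf.symm [T2Space X] {a b : X} (h : Lf dev P a b) : Lf dev P b a := by
  induction h with
  | refl => exact Relation.ReflTransGen.refl
  | tail _ h ih =>
    obtain ⟨p, hp, h⟩ := h
    exact Relation.ReflTransGen.head ⟨-p, P.neg_mem hp, h.symm⟩ ih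

/-- the leaf space -/
def lset [T2Space X] (dev : X → E) (P : Submodule ℝ E) : Setoid X :=
  ⟨Lf dev P, fun _ => Relation.ReflTransGen.refl, Lf.symm, Relation.ReflTransGen.trans⟩

end

section
variable {X Γ E : Type} [TopologicalSpace X] [T2Space X] [Group Γ] [MulAction Γ X]
  [NormedAddCommGroup E] [NormedSpace ℝ E] [FiniteDimensional ℝ E] {dev : X → E}
  {hol : Γ →* (E ≃ᵃ[ℝ] E)}

/-- uniform charts -/
structure Cht (dev : X → E) (hol : Γ →* (E ≃ᵃ[ℝ] E)) (K K1 : Set X) (r M : ℝ) : Prop where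
  cov : ∀ x : X, ∃ γ : Γ, ∃ k ∈ K, γ • k = x
  pos : 0 < r
  one : 1 ≤ M
  sub : K ⊆ K1
  box : ∀ κ ∈ K, ∀ v w : E, ‖v‖ < r → ‖w‖ < r → ∃ y1 ∈ K1, ∃ y2 ∈ K1, Ex dev κ v y1 ∧
    Ex dev κ w y2 ∧ Ex dev y1 (w - v) y2
  bdd : ∀ γ : Γ, (∃ x ∈ K1, γ • x ∈ K1) → ∀ v, ‖lin hol γ v‖ ≤ M * ‖v‖

theorem exists_cht' (D : AffMfd X Γ E dev hol) : ∃ K K1 r M, Cht dev hol K K1 r M := by
  obtain ⟨K, hK, hKc⟩ := D.cc
  have hwl : WeaklyLocallyCompactSpace X :=
    ⟨fun x => by obtain ⟨N, hN, hc⟩ := Pool.Agent.W689.Ch.exists_cpt_nhd D x; exact ⟨N, hc, hN⟩⟩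
  obtain ⟨K1, hK1, hKK1⟩ := exists_compact_superset hK
  obtain ⟨r, hr, hbox⟩ : ∃ r > 0, ∀ κ ∈ K, ∀ v w : E, ‖v‖ < r → ‖w‖ < r → ∃ y1 ∈ K1, ∃ y2 ∈ K1,
      Ex dev κ v y1 ∧ Ex dev κ w y2 ∧ Ex dev y1 (w - v) y2 := by
    refine hK.induction_on (p := fun s => ∃ r > 0, ∀ κ ∈ s, ∀ v w : E, ‖v‖ < r → ‖w‖ < r →
      ∃ y1 ∈ K1, ∃ y2 ∈ K1, Ex dev κ v y1 ∧ Ex dev κ w y2 ∧ Ex dev y1 (w - v) y2)
      ⟨1, one_pos, fun κ hκ => hκ.elim⟩ ?_ ?_ ?_
    · rintro s t hst ⟨r, hr, h⟩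
      exact ⟨r, hr, fun κ hκ => h κ (hst hκ)⟩
    · rintro s t ⟨r, hr, h⟩ ⟨r', hr', h'⟩
      refine ⟨min r r', lt_min hr hr', ?_⟩
      rintro κ (hκ | hκ) v w hv hw
      · exact h κ hκ v w (hv.trans_le (min_le_left _ _)) (hw.trans_le (min_le_left _ _))
      · exact h' κ hκ v w (hv.trans_le (min_le_right _ _)) (hw.trans_le (min_le_right _ _))
    · intro z hz
      obtain ⟨e, r, hxe, he, hr, hrt⟩ := exists_sec D.loc z
      have hez : e.symm (dev z) = z := by rw [he]; exact e.left_inv hxe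
      have h1 : e.symm ⁻¹' K1 ∈ 𝓝 (dev z) := by
        have hct : ContinuousAt e.symm (dev z) :=
          e.continuousAt_symm (hrt (mem_ball_self hr))
        refine hct.preimage_mem_nhds ?_
        rw [hez]
        exact mem_interior_iff_mem_nhds.1 (hKK1 hz)
      obtain ⟨r1, hr1, hr1K⟩ := Metric.mem_nhds_iff.1 h1
      obtain ⟨r', hr'⟩ : ∃ r', r' = min r r1 := ⟨_, rfl⟩
      have hr'0 : 0 < r' := by rw [hr']; exact lt_min hr hr1
      have hsec := sec_of_target e he (dev z) r' ((ball_subset_ball (by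
        rw [hr']; exact min_le_left _ _)).trans hrt)
      have hin : ∀ p ∈ ball (dev z) r', e.symm p ∈ K1 := fun p hp =>
        hr1K (ball_subset_ball (by rw [hr']; exact min_le_right _ _) hp)
      refine ⟨e.symm '' ball (dev z) (r' / 2), mem_nhdsWithin_of_mem_nhds ?_, r' / 2,
        half_pos hr'0, ?_⟩
      · exact (hsec.isOpen_image D.loc isOpen_ball (ball_subset_ball (by linarith))).mem_nhds
          ⟨dev z, mem_ball_self (half_pos hr'0), hez⟩
      · rintro _ ⟨p, hp, rfl⟩ v w hv hw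
        have hp' : p ∈ ball (dev z) r' := ball_subset_ball (by linarith) hp
        have key : ∀ v : E, ‖v‖ < r' / 2 → p + v ∈ ball (dev z) r' := by
          intro v hv
          rw [mem_ball, dist_eq_norm] at hp ⊢
          calc ‖p + v - dev z‖ = ‖(p - dev z) + v‖ := by congr 1; abel
            _ ≤ ‖p - dev z‖ + ‖v‖ := norm_add_le _ _
            _ < r' := by linarith
        refine ⟨_, hin _ (key v hv), _, hin _ (key w hw), hsec.Ex hp' (key v hv),
          hsec.Ex hp' (key w hw), ?_⟩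
        have h3 : p + v + (w - v) = p + w := by abel
        have h4 := hsec.Ex (key v hv) (v := w - v) (by rw [h3]; exact key w hw)
        rwa [h3] at h4
  obtain ⟨M, hM⟩ : ∃ M : ℝ, ∀ γ ∈ {γ : Γ | ∃ x ∈ K1, γ • x ∈ K1}, ∀ v, ‖lin hol γ v‖ ≤ M * ‖v‖ := by
    have hfin := D.pd K1 hK1
    obtain ⟨M, hM⟩ := (hfin.image fun γ : Γ =>
      ‖LinearMap.toContinuousLinearMap ((hol γ).linear : E →ₗ[ℝ] E)‖).bddAbove
    refine ⟨M, fun γ hγ v => ?_⟩
    have h1 := (LinearMap.toContinuousLinearMap ((hol γ).linear : E →ₗ[ℝ] E)).le_opNorm v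
    exact h1.trans (mul_le_mul_of_nonneg_right (hM ⟨γ, hγ, rfl⟩) (norm_nonneg v))
  refine ⟨K, K1, r, max M 1, hKc, hr, le_max_right _ _, hKK1.trans interior_subset, hbox,
    fun γ hγ v => (hM γ hγ v).trans ?_⟩
  exact mul_le_mul_of_nonneg_right (le_max_left _ _) (norm_nonneg v)

variable {K K1 : Set X} {r M : ℝ}

omit [T2Space X] [FiniteDimensional ℝ E] in
theorem Cht.norm (c : Cht dev hol K K1 r M) {γ γ' : Γ} {κ' x : X} (h : γ⁻¹ • x ∈ K1)
    (hκ' : κ' ∈ K) (hx : γ' • κ' = x) {v : E} (hv : ‖lin hol γ'⁻¹ v‖ < r / (2 * M)) :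
    ‖lin hol γ⁻¹ v‖ < r / 2 := by
  have hM : 0 < M := lt_of_lt_of_le one_pos c.one
  have h1 := c.bdd (γ⁻¹ * γ') ⟨κ', c.sub hκ', by rw [mul_smul, hx]; exact h⟩ (lin hol γ'⁻¹ v)
  rw [lin_mul, lin_apply_inv'] at h1
  refine h1.trans_lt ?_
  calc M * ‖lin hol γ'⁻¹ v‖ < M * (r / (2 * M)) := mul_lt_mul_of_pos_left hv hM
    _ = r / 2 := by field_simp

theorem Cht.chart (c : Cht dev hol K K1 r M) (D : AffMfd X Γ E dev hol) {γ : Γ} {κ x : X}
    (hκ : κ ∈ K) (hx : γ • κ = x) {a b : E} (ha : ‖lin hol γ⁻¹ a‖ < r) (hb : ‖lin hol γ⁻¹ b‖ < r) :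
    ∃ y z, Ex dev x a y ∧ Ex dev x b z ∧ Ex dev y (b - a) z ∧ γ⁻¹ • y ∈ K1 := by
  obtain ⟨y1, hy1, y2, hy2, h1, h2, h3⟩ := c.box κ hκ _ _ ha hb
  have k1 := Pool.Agent.TH878.Mk.mfd_Ex_smul D γ h1
  have k2 := Pool.Agent.TH878.Mk.mfd_Ex_smul D γ h2
  have k3 := Pool.Agent.TH878.Mk.mfd_Ex_smul D γ h3
  have e1 : lin hol γ (lin hol γ⁻¹ b - lin hol γ⁻¹ a) = b - a := by
    have : lin hol γ⁻¹ b - lin hol γ⁻¹ a = lin hol γ⁻¹ (b - a) :=
      (map_sub ((hol γ⁻¹).linear) b a).symm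
    rw [this, lin_apply_inv']
  rw [hx, lin_apply_inv'] at k1 k2
  rw [e1] at k3
  exact ⟨_, _, k1, k2, k3, by rw [inv_smul_smul]; exact hy1⟩

/-- `y` is obtained from `x` by a small translation by `w` modulo `P` -/
def Jm (dev : X → E) (hol : Γ →* (E ≃ᵃ[ℝ] E)) (K : Set X) (r M : ℝ) (P : Submodule ℝ E) (w : E)
    (x y : X) : Prop :=
  ∃ (γ : Γ) (κ : X) (v : E), κ ∈ K ∧ γ • κ = x ∧ v - w ∈ P ∧ ‖lin hol γ⁻¹ v‖ < r / (2 * M) ∧
    Ex dev x v y

variable {P : Submodule ℝ E}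

omit [T2Space X] [FiniteDimensional ℝ E] [TopologicalSpace X] in
theorem small_lt (hr : 0 < r) (hM : 1 ≤ M) : r / (2 * M) ≤ r / 2 :=
  div_le_div_of_nonneg_left hr.le two_pos (by linarith)

theorem Jm.coh_loc (c : Cht dev hol K K1 r M) (D : AffMfd X Γ E dev hol) {γ : Γ} {κ x x' : X}
    (hκ : κ ∈ K) (hx : γ • κ = x) {p : E} (hp : p ∈ P) (hps : ‖lin hol γ⁻¹ p‖ < r / 2)
    (hxx' : Ex dev x p x') {w : E} {y y' : X} (h : Jm dev hol K r M P w x y)
    (h' : Jm dev hol K r M P w x' y') : Lf dev P y y' := by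
  obtain ⟨γ1, κ1, v, hκ1, hx1, hvw, hv, hy⟩ := h
  obtain ⟨γ', κ', v', hκ', hx', hvw', hv', hy'⟩ := h'
  have hr := c.pos
  have hxK : γ⁻¹ • x ∈ K1 := by rw [← hx, inv_smul_smul]; exact c.sub hκ
  have hvs : ‖lin hol γ⁻¹ v‖ < r / 2 := c.norm hxK hκ1 hx1 hv
  obtain ⟨a, -, ha, -, -, haK⟩ := c.chart D hκ hx (a := p) (b := p) (by linarith) (by linarith)
  have hax : a = x' := ha.unique D.loc hxx'
  rw [hax] at haK
  have hvs' : ‖lin hol γ⁻¹ v'‖ < r / 2 := c.norm haK hκ' hx' hv'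
  have hadd : ‖lin hol γ⁻¹ (p + v')‖ < r := by
    have : lin hol γ⁻¹ (p + v') = lin hol γ⁻¹ p + lin hol γ⁻¹ v' :=
      map_add ((hol γ⁻¹).linear) p v'
    rw [this]
    exact (norm_add_le _ _).trans_lt (by linarith)
  obtain ⟨a1, b1, ha1, hb1, hab1, -⟩ := c.chart D hκ hx (a := p) (b := p + v') (by linarith) hadd
  rw [ha1.unique D.loc hxx', add_sub_cancel_left] at hab1
  have hby' : b1 = y' := hab1.unique D.loc hy'
  obtain ⟨a2, b2, ha2, hb2, hab2, -⟩ := c.chart D hκ hx (a := v) (b := p + v') (by linarith) hadd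
  rw [ha2.unique D.loc hy, hb2.unique D.loc hb1, hby'] at hab2
  refine Lf.one ?_ hab2
  have : p + v' - v = p + (v' - w) - (v - w) := by abel
  rw [this]
  exact P.sub_mem (P.add_mem hp hvw') hvw

theorem Jm.exists (c : Cht dev hol K K1 r M) (D : AffMfd X Γ E dev hol)
    (hP : ∀ γ : Γ, ∀ v ∈ P, lin hol γ v ∈ P) {R : Submodule ℝ E} {C : ℝ}
    (hC : ∀ γ : Γ, ∀ v ∈ R, ∃ w ∈ P, ‖lin hol γ v - w‖ ≤ C * ‖v‖) {w : E} (hw : w ∈ R)
    (hws : C * ‖w‖ < r / (2 * M)) (x : X) : ∃ y, Jm dev hol K r M P w x y := by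
  obtain ⟨γ, κ, hκ, hx⟩ := c.cov x
  obtain ⟨p, hp, hpn⟩ := hC γ⁻¹ w hw
  have h1 : lin hol γ⁻¹ (w - lin hol γ p) = lin hol γ⁻¹ w - p := by
    have : lin hol γ⁻¹ (w - lin hol γ p) = lin hol γ⁻¹ w - lin hol γ⁻¹ (lin hol γ p) :=
      map_sub ((hol γ⁻¹).linear) _ _
    rw [this, lin_inv_apply]
  have h2 : ‖lin hol γ⁻¹ (w - lin hol γ p)‖ < r / (2 * M) := by
    rw [h1]
    exact hpn.trans_lt hws
  have h3 := small_lt c.pos c.one
  have hr := c.pos
  obtain ⟨y, -, hy, -, -, -⟩ := c.chart D hκ hx (a := w - lin hol γ p) (b := w - lin hol γ p)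
    (by linarith) (by linarith)
  refine ⟨y, γ, κ, _, hκ, hx, ?_, h2, hy⟩
  rw [sub_sub_cancel_left]
  exact P.neg_mem (hP γ p hp)

theorem lin_cont (γ : Γ) : Continuous (lin hol γ) :=
  ((hol γ).linear : E →ₗ[ℝ] E).continuous_of_finiteDimensional

/-- the points of a geodesic -/
theorem seg_points (D : AffMfd X Γ E dev hol) {x y : X} {u : E} (h : Ex dev x u y) :
    ∃ c : unitInterval → X, c 0 = x ∧ c 1 = y ∧ ∀ s t : unitInterval,
      Ex dev (c s) (((t : ℝ) - s) • u) (c t) := by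
  obtain ⟨U, σ, h1, h2, h3, h4, h5⟩ := h
  have hm : ∀ t : unitInterval, dev x + (t : ℝ) • u ∈ U := by
    intro t
    have := h1.convex h2 h4 (a := 1 - t) (b := t) (by linarith [t.2.2]) t.2.1 (by ring)
    have e : (1 - (t : ℝ)) • dev x + (t : ℝ) • (dev x + u) = dev x + (t : ℝ) • u := by
      rw [smul_add, ← add_assoc, ← add_smul, sub_add_cancel, one_smul]
    rwa [e] at this
  refine ⟨fun t => σ (dev x + (t : ℝ) • u), ?_, ?_, fun s t => ?_⟩
  · show σ (dev x + ((0 : unitInterval) : ℝ) • u) = x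
    rw [Set.Icc.coe_zero, zero_smul, add_zero, h3]
  · show σ (dev x + ((1 : unitInterval) : ℝ) • u) = y
    rw [Set.Icc.coe_one, one_smul, h5]
  · have e : dev x + (s : ℝ) • u + ((t : ℝ) - s) • u = dev x + (t : ℝ) • u := by
      rw [add_assoc, ← add_smul, add_sub_cancel]
    have := h1.Ex (hm s) (v := ((t : ℝ) - s) • u) (by rw [e]; exact hm t)
    rwa [e] at this

theorem near_small (γ : Γ) (u : E) {δ : ℝ} (hδ : 0 < δ) (s : unitInterval) :
    ∀ᶠ t : unitInterval in 𝓝 s, ‖lin hol γ (((t : ℝ) - s) • u)‖ < δ := by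
  have h1 : Continuous fun t : unitInterval => ‖lin hol γ (((t : ℝ) - s) • u)‖ :=
    ((lin_cont γ).comp ((continuous_subtype_val.sub continuous_const).smul
      continuous_const)).norm
  have h2 : ‖lin hol γ (((s : ℝ) - s) • u)‖ < δ := by
    have : lin hol γ (((s : ℝ) - s) • u) = 0 := by
      rw [sub_self, zero_smul]
      exact map_zero ((hol γ).linear)
    rw [this, norm_zero]
    exact hδ
  exact h1.continuousAt.eventually_lt continuousAt_const h2

theorem Jm.coh (c : Cht dev hol K K1 r M) (D : AffMfd X Γ E dev hol) {w : E}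
    (hex : ∀ x, ∃ y, Jm dev hol K r M P w x y) {x x' : X} (h : Lf dev P x x') {y y' : X}
    (hy : Jm dev hol K r M P w x y) (hy' : Jm dev hol K r M P w x' y') : Lf dev P y y' := by
  have hself : ∀ x y y', Jm dev hol K r M P w x y → Jm dev hol K r M P w x y' → Lf dev P y y' := by
    intro x y y' h1 h2
    obtain ⟨γ, κ, hκ, hx⟩ := c.cov x
    refine Jm.coh_loc c D hκ hx P.zero_mem ?_ (ex_zero D.loc x) h1 h2
    have : lin hol γ⁻¹ 0 = 0 := map_zero ((hol γ⁻¹).linear)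
    rw [this, norm_zero]
    exact half_pos c.pos
  have key : ∀ x x', (∃ p ∈ P, Ex dev x p x') → ∀ y y', Jm dev hol K r M P w x y →
      Jm dev hol K r M P w x' y' → Lf dev P y y' := by
    rintro x x' ⟨p, hp, h⟩
    obtain ⟨g, hg0, hg1, hg⟩ := seg_points D h
    have h1 := conn_rel (R := fun s t : unitInterval => ∀ y y', Jm dev hol K r M P w (g s) y →
      Jm dev hol K r M P w (g t) y' → Lf dev P y y') (fun a b hab y y' h1 h2 => (hab y' y h2 h1).symm)
      (fun a b d hab hbd y y' h1 h2 => by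
        obtain ⟨z, hz⟩ := hex (g b)
        exact (hab y z h1 hz).trans (hbd z y' hz h2)) (fun s => by
        obtain ⟨γ, κ, hκ, hx⟩ := c.cov (g s)
        filter_upwards [near_small (hol := hol) γ⁻¹ p (half_pos c.pos) s] with t ht y y' h1 h2
        exact Jm.coh_loc c D hκ hx (P.smul_mem _ hp) ht (hg s t) h1 h2) 0 1
    rw [hg0, hg1] at h1
    exact h1
  induction h generalizing y' with
  | refl => exact hself _ _ _ hy hy'
  | tail _ hbc ih =>
    obtain ⟨z, hz⟩ := hex _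
    exact (ih hz).trans (key _ _ hbc _ _ hz hy')

theorem Jm.add (c : Cht dev hol K K1 r M) (D : AffMfd X Γ E dev hol) {w w' : E} {x y z z' : X}
    (h1 : Jm dev hol K r M P w' x y) (h2 : Jm dev hol K r M P w y z)
    (h3 : Jm dev hol K r M P (w + w') x z') : Lf dev P z z' := by
  obtain ⟨γ, κ, v, hκ, hx, hvw, hv, hy⟩ := h1
  obtain ⟨γ', κ', v', hκ', hx', hvw', hv', hy'⟩ := h2
  obtain ⟨γ'', κ'', v'', hκ'', hx'', hvw'', hv'', hy''⟩ := h3
  have hr := c.pos
  have h0 := small_lt c.pos c.one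
  have hxK : γ⁻¹ • x ∈ K1 := by rw [← hx, inv_smul_smul]; exact c.sub hκ
  have hvs'' : ‖lin hol γ⁻¹ v''‖ < r / 2 := c.norm hxK hκ'' hx'' hv''
  obtain ⟨a, -, ha, -, -, haK⟩ := c.chart D hκ hx (a := v) (b := v) (by linarith) (by linarith)
  rw [ha.unique D.loc hy] at haK
  have hvs' : ‖lin hol γ⁻¹ v'‖ < r / 2 := c.norm haK hκ' hx' hv'
  have hadd : ‖lin hol γ⁻¹ (v + v')‖ < r := by
    have : lin hol γ⁻¹ (v + v') = lin hol γ⁻¹ v + lin hol γ⁻¹ v' :=
      map_add ((hol γ⁻¹).linear) v v'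
    rw [this]
    exact (norm_add_le _ _).trans_lt (by linarith)
  obtain ⟨a1, b1, ha1, hb1, hab1, -⟩ := c.chart D hκ hx (a := v) (b := v + v') (by linarith) hadd
  rw [ha1.unique D.loc hy, add_sub_cancel_left] at hab1
  have hbz : b1 = z := hab1.unique D.loc hy'
  obtain ⟨a2, b2, ha2, hb2, hab2, -⟩ := c.chart D hκ hx (a := v + v') (b := v'') hadd (by linarith)
  rw [ha2.unique D.loc hb1, hb2.unique D.loc hy'', hbz] at hab2
  refine Lf.one ?_ hab2
  have : v'' - (v + v') = (v'' - (w + w')) - (v - w') - (v' - w) := by abel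
  rw [this]
  exact P.sub_mem (P.sub_mem hvw'' hvw) hvw'

/-- **The leaf space.** If the linear holonomy is bounded on `R` modulo `P`, two points of the same
leaf of `R`, with difference in `P`, are in the same leaf of `P`. -/
theorem leaf_conn (D : AffMfd X Γ E dev hol) {P R : Submodule ℝ E}
    (hP : ∀ γ : Γ, ∀ v ∈ P, lin hol γ v ∈ P)
    (hC : ∃ C : ℝ, ∀ γ : Γ, ∀ v ∈ R, ∃ w ∈ P, ‖lin hol γ v - w‖ ≤ C * ‖v‖) {x y : X}
    (h : Lf dev R x y) (hxy : dev y - dev x ∈ P) : Lf dev P x y := by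
  classical
  obtain ⟨K, K1, r, M, c⟩ := exists_cht' D
  obtain ⟨C, hC⟩ := hC
  have hM : 0 < M := lt_of_lt_of_le one_pos c.one
  have hr := c.pos
  obtain ⟨ρ, hρ⟩ : ∃ ρ, ρ = r / (2 * M) / (|C| + 1) := ⟨_, rfl⟩
  have hρ0 : 0 < ρ := by rw [hρ]; positivity
  have hρC : ∀ w : E, ‖w‖ < ρ → C * ‖w‖ < r / (2 * M) := by
    intro w hw
    rw [hρ, lt_div_iff₀ (by positivity)] at hw
    have h1 : C * ‖w‖ ≤ |C| * ‖w‖ := mul_le_mul_of_nonneg_right (le_abs_self C) (norm_nonneg w)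
    nlinarith [norm_nonneg w]
  have hex : ∀ w ∈ R, ‖w‖ < ρ → ∀ x, ∃ y, Jm dev hol K r M P w x y := fun w hw hwρ x =>
    Jm.exists c D hP hC hw (hρC w hwρ) x
  let S := lset dev P
  let T : R → Quotient S → Quotient S := fun w L =>
    if h : ∃ y, Jm dev hol K r M P w L.out y then Quotient.mk S h.choose else L
  have hTJ : ∀ (w : R), ‖w‖ < ρ → ∀ x y, Jm dev hol K r M P w x y →
      T w (Quotient.mk S x) = Quotient.mk S y := by
    intro w hw x y hxy
    have h1 : ∃ y, Jm dev hol K r M P w (Quotient.mk S x).out y := hex w w.2 hw _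
    have h2 : T w (Quotient.mk S x) = Quotient.mk S h1.choose := dif_pos h1
    rw [h2]
    apply Quotient.sound
    refine Jm.coh c D (hex w w.2 hw) ?_ h1.choose_spec hxy
    exact Quotient.exact (Quotient.out_eq (Quotient.mk S x))
  have hTadd : ∀ w w' : R, ‖w‖ < ρ → ‖w'‖ < ρ → ‖w + w'‖ < ρ → T (w + w') = T w ∘ T w' := by
    intro w w' hw hw' hww'
    funext L
    induction L using Quotient.inductionOn with
    | h x =>
      obtain ⟨y, hy⟩ := hex w' w'.2 hw' x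
      obtain ⟨z, hz⟩ := hex w w.2 hw y
      obtain ⟨z', hz'⟩ := hex (w + w' : R) (w + w').2 hww' x
      rw [Function.comp_apply, hTJ w' hw' x y hy, hTJ w hw y z hz, hTJ (w + w') hww' x z' hz']
      apply Quotient.sound
      exact (Jm.add c D hy hz hz').symm
  obtain ⟨A, hA1, hA2, hA3⟩ := exists_action hTadd hρ0
  have hA0 : ∀ w : R, (w : E) ∈ P → A w = id := by
    intro w hw
    refine hA3 (fun w => (w : E) ∈ P) (fun w n hw => P.smul_mem _ hw) (fun w hw hwρ => ?_) w hw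
    funext L
    induction L using Quotient.inductionOn with
    | h x =>
      obtain ⟨y, hy⟩ := hex w w.2 hwρ x
      rw [hTJ w hwρ x y hy]
      apply Quotient.sound
      obtain ⟨γ, κ, v, hκ, hx, hvw, hv, hy'⟩ := hy
      refine (Lf.one ?_ hy').symm
      have : v = (v - w) + w := by abel
      rw [this]
      exact P.add_mem hvw hw
  have hAinv : ∀ w : R, A (-w) ∘ A w = id := by
    intro w
    rw [← hA1, neg_add_cancel]
    exact hA0 0 P.zero_mem
  have hstep : ∀ (u : R) (a b : X), Ex dev a u b → A u (Quotient.mk S a) = Quotient.mk S b := by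
    intro u a b hab
    obtain ⟨g, hg0, hg1, hg⟩ := seg_points D hab
    have h1 := conn_rel (R := fun s t : unitInterval =>
      A (((t : ℝ) - s) • u) (Quotient.mk S (g s)) = Quotient.mk S (g t)) (fun s t hst => by
        rw [← hst]
        have h2 : ((s : ℝ) - t) • u = -(((t : ℝ) - s) • u) := by rw [← neg_smul, neg_sub]
        rw [h2]
        exact congrFun (hAinv _) _) (fun s t q hst htq => by
        rw [← htq, ← hst, ← Function.comp_apply (f := A _) (g := A _), ← hA1, ← add_smul]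
        congr 2
        ring) (fun s => by
        obtain ⟨γ, κ, hκ, hx⟩ := c.cov (g s)
        have h3 : ∀ᶠ t : unitInterval in 𝓝 s, ‖((t : ℝ) - s) • u‖ < ρ := by
          have h4 : Continuous fun t : unitInterval => ‖((t : ℝ) - s) • u‖ :=
            ((continuous_subtype_val.sub continuous_const).smul continuous_const).norm
          refine h4.continuousAt.eventually_lt continuousAt_const ?_
          rw [sub_self, zero_smul, norm_zero]
          exact hρ0
        filter_upwards [near_small (hol := hol) γ⁻¹ (u : E) (by positivity : 0 < r / (2 * M)) s, h3]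
          with t ht1 ht2
        rw [hA2 _ ht2]
        refine hTJ _ ht2 _ _ ⟨γ, κ, ((t : ℝ) - s) • (u : E), hκ, hx, ?_, ht1, hg s t⟩
        have : ((((t : ℝ) - s) • u : R) : E) = ((t : ℝ) - s) • (u : E) := rfl
        rw [this, sub_self]
        exact P.zero_mem) 0 1
    rw [hg0, hg1, Set.Icc.coe_one, Set.Icc.coe_zero, sub_zero, one_smul] at h1
    exact h1
  have hall : ∀ b, Lf dev R x b → ∃ w : R, (w : E) = dev b - dev x ∧
      A w (Quotient.mk S x) = Quotient.mk S b := by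
    intro b hb
    induction hb with
    | refl => exact ⟨0, by rw [sub_self]; rfl, by rw [hA0 0 P.zero_mem]; rfl⟩
    | tail _ hbc ih =>
      obtain ⟨p, hp, hbc⟩ := hbc
      obtain ⟨w, hw, hwA⟩ := ih
      refine ⟨⟨p, hp⟩ + w, ?_, ?_⟩
      · have h1 := hbc.dev_eq
        have h2 : ((⟨p, hp⟩ + w : R) : E) = p + w := rfl
        rw [h2, hw, h1]
        abel
      · rw [hA1, Function.comp_apply, hwA]
        exact hstep ⟨p, hp⟩ _ _ hbc
  obtain ⟨w, hw, hwA⟩ := hall y h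
  rw [hA0 w (by rw [hw]; exact hxy)] at hwA
  exact Quotient.exact hwA

end

end Pool.Agent.Q185.MK
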