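import Mathlib

/-!
A compactness argument in the plane: between two segments that avoid a closed set and a point of
the set, there is a conic that touches the set from the convex side.
-/

set_option autoImplicit false

open Set Filter Topology

namespace Pool.Agent.Q185.MK

/-- the function whose positivity defines the region below the conic -/
def fc (s a b : ℝ) : ℝ := s * (1 - a - b) - a * b

theorem touch {U : Set (ℝ × ℝ)} (hU : IsClosed U) {a0 b0 : ℝ} (ha0 : 0 < a0) (hb0 : 0 < b0)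
    (hab : a0 + b0 < 1) (h0 : (a0, b0) ∈ U) (hA : ∀ a : ℝ, 0 ≤ a → a ≤ 1 → (a, 0) ∉ U)
    (hB : ∀ b : ℝ, 0 ≤ b → b ≤ 1 → (0, b) ∉ U) :
    ∃ a b s : ℝ, 0 < a ∧ 0 < b ∧ 0 < s ∧ (a, b) ∈ U ∧ fc s a b = 0 ∧ a + b < 1 ∧
      ∀ a' b' : ℝ, 0 ≤ a' → 0 ≤ b' → 0 < fc s a' b' → (a', b') ∉ U := by
  obtain ⟨s0, hs0⟩ : ∃ s0 : ℝ, s0 = a0 * b0 / (1 - a0 - b0) := ⟨_, rfl⟩
  have hd0 : 0 < 1 - a0 - b0 := by linarith
  have hs0p : 0 < s0 := by rw [hs0]; positivity
  obtain ⟨A, hAd⟩ : ∃ A : Set (ℝ × ℝ), A = U ∩ {p | 0 ≤ p.1 ∧ 0 ≤ p.2 ∧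
    p.1 * p.2 ≤ s0 * (1 - p.1 - p.2)} := ⟨_, rfl⟩
  have hsub : ∀ p ∈ A, p.1 + p.2 < 1 := by
    rintro ⟨a, b⟩ hp
    rw [hAd] at hp
    obtain ⟨hpU, h1, h2, h3⟩ := hp
    dsimp only at h1 h2 h3 ⊢
    have h4 : 0 ≤ a * b := mul_nonneg h1 h2
    have h5 : 0 ≤ 1 - a - b := by
      by_contra hcon
      push Not at hcon
      nlinarith
    rcases eq_or_lt_of_le h5 with h6 | h6
    · exfalso
      rw [← h6, mul_zero] at h3
      have h7 : a * b = 0 := le_antisymm h3 h4
      rcases mul_eq_zero.1 h7 with h8 | h8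
      · rw [h8] at hpU h6
        exact hB b h2 (by linarith) hpU
      · rw [h8] at hpU h6
        exact hA a h1 (by linarith) hpU
    · linarith
  have hcl : IsClosed A := by
    rw [hAd]
    refine hU.inter ?_
    have c1 : IsClosed {p : ℝ × ℝ | 0 ≤ p.1} := isClosed_le continuous_const continuous_fst
    have c2 : IsClosed {p : ℝ × ℝ | 0 ≤ p.2} := isClosed_le continuous_const continuous_snd
    have c3 : IsClosed {p : ℝ × ℝ | p.1 * p.2 ≤ s0 * (1 - p.1 - p.2)} :=
      isClosed_le (by fun_prop) (by fun_prop)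
    exact c1.inter (c2.inter c3)
  have hcpt : IsCompact A := by
    refine (isCompact_Icc.prod isCompact_Icc).of_isClosed_subset (s := Icc (0 : ℝ) 1 ×ˢ Icc (0 : ℝ) 1)
      hcl ?_
    intro p hp
    have h1 := hsub p hp
    rw [hAd] at hp
    obtain ⟨hpU, h2, h3, h4⟩ := hp
    exact ⟨⟨h2, by linarith⟩, ⟨h3, by linarith⟩⟩
  have hne : A.Nonempty := by
    refine ⟨(a0, b0), ?_⟩
    rw [hAd]
    refine ⟨h0, ha0.le, hb0.le, ?_⟩
    dsimp only
    rw [hs0, div_mul_cancel₀ _ hd0.ne']
  have hcont : ContinuousOn (fun p : ℝ × ℝ => p.1 * p.2 / (1 - p.1 - p.2)) A := by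
    refine ContinuousOn.div (by fun_prop) (by fun_prop) fun p hp => ?_
    have := hsub p hp
    linarith
  obtain ⟨⟨a, b⟩, hp, hmin⟩ := hcpt.exists_isMinOn hne hcont
  have h1 := hsub _ hp
  have hp' := hp
  rw [hAd] at hp'
  obtain ⟨hpU, h2, h3, h4⟩ := hp'
  dsimp only at h1 h2 h3 h4
  have ha : 0 < a := by
    rcases h2.lt_or_eq with h | h
    · exact h
    · exfalso
      rw [← h] at hpU h1
      exact hB b h3 (by linarith) hpU
  have hb : 0 < b := by
    rcases h3.lt_or_eq with h | h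
    · exact h
    · exfalso
      rw [← h] at hpU h1
      exact hA a h2 (by linarith) hpU
  have hd : 0 < 1 - a - b := by linarith
  obtain ⟨s, hs⟩ : ∃ s : ℝ, s = a * b / (1 - a - b) := ⟨_, rfl⟩
  have hsp : 0 < s := by rw [hs]; positivity
  have hss0 : s ≤ s0 := by
    rw [hs, div_le_iff₀ hd]
    exact h4
  refine ⟨a, b, s, ha, hb, hsp, hpU, ?_, h1, ?_⟩
  · rw [fc, hs, div_mul_cancel₀ _ hd.ne', sub_self]
  · intro a' b' ha' hb' hf hU'
    rw [fc] at hf
    have h5 : 0 ≤ a' * b' := mul_nonneg ha' hb'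
    have h6 : 0 < 1 - a' - b' := by
      by_contra hcon
      push Not at hcon
      nlinarith
    have h7 : (a', b') ∈ A := by
      rw [hAd]
      refine ⟨hU', ha', hb', ?_⟩
      dsimp only
      nlinarith
    have h8 := hmin h7
    have h9 : a * b / (1 - a - b) ≤ a' * b' / (1 - a' - b') := h8
    rw [← hs, le_div_iff₀ h6] at h9
    linarith

/-- along the radius of the touching point the function is positive -/
theorem fc_radius {s a b : ℝ} (hs : 0 < s) (h : fc s a b = 0) (hab : a + b < 1) {t : ℝ}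
    (ht0 : 0 ≤ t) (ht1 : t < 1) : 0 < fc s (t * a) (t * b) := by
  have h1 : fc s (t * a) (t * b) = s * (1 - t) * (1 + t * (1 - a - b)) + t ^ 2 * fc s a b := by
    rw [fc, fc]; ring
  rw [h1, h, mul_zero, add_zero]
  have h2 : 0 ≤ t * (1 - a - b) := mul_nonneg ht0 (by linarith)
  have h3 : 0 < 1 - t := by linarith
  positivity

/-- the expansion along a line -/
theorem fc_line (s a b c d r : ℝ) : fc s (a + r * c) (b + r * d) =
    fc s a b + r * (-(s * (c + d)) - (a * d + b * c)) - r ^ 2 * (c * d) := by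
  rw [fc, fc]; ring

/-- positivity on a segment -/
theorem fc_seg {s a b c d τ : ℝ} (h0 : 0 < fc s a b)
    (hL : 0 ≤ -(s * (c + d)) - (a * d + b * c)) (hτ : 0 < τ)
    (h1 : 0 < fc s (a + τ * c) (b + τ * d)) {r : ℝ} (hr0 : 0 ≤ r) (hr1 : r ≤ τ) :
    0 < fc s (a + r * c) (b + r * d) := by
  rw [fc_line] at h1 ⊢
  set L := -(s * (c + d)) - (a * d + b * c) with hLd
  rcases le_or_gt (c * d) 0 with h2 | h2
  · have h3 : 0 ≤ r * L := mul_nonneg hr0 hL
    have h4 : 0 ≤ r ^ 2 * -(c * d) := mul_nonneg (sq_nonneg r) (by linarith)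
    nlinarith
  · have h3 : τ * (fc s a b + r * L - r ^ 2 * (c * d)) =
        (τ - r) * fc s a b + r * (fc s a b + τ * L - τ ^ 2 * (c * d)) + r * τ * (c * d) * (τ - r) := by
      ring
    have h4 : 0 ≤ r * τ * (c * d) * (τ - r) := by
      have : 0 ≤ τ - r := by linarith
      positivity
    have h5 : 0 < τ * (fc s a b + r * L - r ^ 2 * (c * d)) := by
      rw [h3]
      rcases hr1.lt_or_eq with h6 | h6
      · have h7 : 0 < (τ - r) * fc s a b := mul_pos (by linarith) h0
        have h8 : 0 ≤ r * (fc s a b + τ * L - τ ^ 2 * (c * d)) := mul_nonneg hr0 h1.le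
        linarith
      · have h7 : 0 < r * (fc s a b + τ * L - τ ^ 2 * (c * d)) := mul_pos (by linarith) h1
        have h8 : 0 ≤ (τ - r) * fc s a b := mul_nonneg (by linarith) h0.le
        linarith
    exact (mul_pos_iff_of_pos_left hτ).1 h5

/-- the touching point is approached along every line, on one side at least -/
theorem fc_dir {s a b c d : ℝ} (hs : 0 < s) (ha : 0 < a) (hb : 0 < b) (h : fc s a b = 0)
    (hL : 0 ≤ -(s * (c + d)) - (a * d + b * c)) (hcd : c ≠ 0 ∨ d ≠ 0) :
    ∃ τ0 > 0, ∀ τ : ℝ, 0 < τ → τ ≤ τ0 → 0 < fc s (a + τ * c) (b + τ * d) := by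
  rcases lt_or_ge (c * d) 0 with h2 | h2
  · refine ⟨1, one_pos, fun τ hτ _ => ?_⟩
    rw [fc_line, h, zero_add]
    have h3 : 0 ≤ τ * (-(s * (c + d)) - (a * d + b * c)) := mul_nonneg hτ.le hL
    have h4 : 0 < τ ^ 2 * -(c * d) := mul_pos (by positivity) (by linarith)
    linarith
  · have hLp : 0 < -(s * (c + d)) - (a * d + b * c) := by
      have hc : c ≤ 0 := by
        by_contra hcon
        push Not at hcon
        have hd : 0 ≤ d := by
          by_contra hd
          push Not at hd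
          nlinarith
        nlinarith [mul_pos hs hcon, mul_nonneg hs.le hd, mul_pos hb hcon, mul_nonneg ha.le hd]
      have hd : d ≤ 0 := by
        by_contra hcon
        push Not at hcon
        have hc : 0 ≤ c := by
          by_contra hd
          push Not at hd
          nlinarith
        nlinarith [mul_pos hs hcon, mul_nonneg hs.le hc, mul_pos ha hcon, mul_nonneg hb.le hc]
      have e : -(s * (c + d)) - (a * d + b * c) = (s + b) * (-c) + (s + a) * (-d) := by ring
      rw [e]
      rcases hcd with h3 | h3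
      · have : 0 < -c := by
          rcases hc.lt_or_eq with h4 | h4
          · linarith
          · exact absurd h4 h3
        have h5 : 0 < (s + b) * (-c) := by positivity
        have h6 : 0 ≤ (s + a) * (-d) := mul_nonneg (by positivity) (by linarith)
        linarith
      · have : 0 < -d := by
          rcases hd.lt_or_eq with h4 | h4
          · linarith
          · exact absurd h4 h3
        have h5 : 0 < (s + a) * (-d) := by positivity
        have h6 : 0 ≤ (s + b) * (-c) := mul_nonneg (by positivity) (by linarith)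
        linarith
    set L := -(s * (c + d)) - (a * d + b * c) with hLd
    refine ⟨L / (2 * (c * d + 1)), by positivity, fun τ hτ hτ0 => ?_⟩
    rw [fc_line, h, zero_add, ← hLd]
    rw [le_div_iff₀ (by positivity)] at hτ0
    have h3 : τ * (c * d) ≤ L / 2 := by nlinarith
    have h4 : τ ^ 2 * (c * d) ≤ τ * (L / 2) := by
      calc τ ^ 2 * (c * d) = τ * (τ * (c * d)) := by ring
        _ ≤ τ * (L / 2) := mul_le_mul_of_nonneg_left h3 hτ.le
    nlinarith [mul_pos hτ hLp]

end Pool.Agent.Q185.MK
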