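import Pool.Agent.Q185.MK.Half2
import Pool.Agent.Q185.MK.Leaf

/-!
Slices of the visible sets by an invariant subspace on which the linear holonomy has discompacity at
most one modulo complete directions.
-/

set_option autoImplicit false

open Set Filter Topology Metric

namespace Pool.Agent.Q185.MK

open Pool.Agent.W689.Mk (lin hol_add hol_sub hol_inv_apply hol_apply_inv lin_inv_apply lin_mul
  lin_smul lin_neg hol_cont Sec Ex Geod Geod.ex sec_of_Ex exists_sec)
open Pool.Agent.TH569.MK Pool.Agent.Y449.MK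
open Pool.Agent.W689.Ch (AffMfd)

section
variable {X E : Type} [TopologicalSpace X] [T2Space X]
  [NormedAddCommGroup E] [NormedSpace ℝ E] {dev : X → E}

/-- two points seen from a third one see each other, if the visible set is convex in `P` -/
theorem see_of_seen (hloc : IsLocalHomeomorph dev) {P : Submodule ℝ E} {x y z : X} {p q : E}
    (hc : Convex ℝ {v | v ∈ P ∧ Vis dev x v}) (hp : p ∈ P) (hq : q ∈ P) (hy : Ex dev x p y)
    (hz : Ex dev x q z) : Ex dev y (q - p) z := by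
  obtain ⟨T, hT⟩ : ∃ T : Set E, T = convexHull ℝ {0, p, q} := ⟨_, rfl⟩
  have hTc : IsCompact T := by
    rw [hT]
    exact (Set.toFinite ({0, p, q} : Set E)).isCompact_convexHull (𝕜 := ℝ)
  have hTv : T ⊆ {v | ∃ y, Ex dev x v y} := by
    have h1 : T ⊆ {v | v ∈ P ∧ Vis dev x v} := by
      rw [hT]
      refine convexHull_min ?_ hc
      rintro v (rfl | rfl | rfl)
      · exact ⟨P.zero_mem, x, ex_zero hloc x⟩
      · exact ⟨hp, y, hy⟩
      · exact ⟨hq, z, hz⟩
    exact fun v hv => (h1 hv).2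
  obtain ⟨δ, hδ, hδT⟩ := hTc.exists_thickening_subset_open (ex_open x) hTv
  have hTt : T ⊆ thickening δ T := self_subset_thickening hδ T
  have hUc : Convex ℝ (thickening δ T) := by
    rw [hT]
    exact (convex_convexHull ℝ _).thickening δ
  obtain ⟨σ, hσ, hσE⟩ := sec_of_Ex hloc (x := x) isOpen_thickening hUc (fun v hv => hδT hv)
  have hpT : p ∈ thickening δ T := hTt (by rw [hT]; exact subset_convexHull ℝ _ (by simp))
  have hqT : q ∈ thickening δ T := hTt (by rw [hT]; exact subset_convexHull ℝ _ (by simp))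
  have h1 : y = σ (dev x + p) := hy.unique hloc (hσE p hpT)
  have h2 : z = σ (dev x + q) := hz.unique hloc (hσE q hqT)
  have h3 : dev x + p + (q - p) = dev x + q := by abel
  rw [h1, h2, ← h3]
  refine hσ.Ex ?_ ?_
  · show dev x + p - dev x ∈ thickening δ T
    rwa [add_sub_cancel_left]
  · show dev x + p + (q - p) - dev x ∈ thickening δ T
    rwa [h3, add_sub_cancel_left]

/-- leaves are seen in one step -/
theorem lf_one (hloc : IsLocalHomeomorph dev) {P : Submodule ℝ E}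
    (hc : ∀ x, Convex ℝ {v | v ∈ P ∧ Vis dev x v}) {x y : X} (h : Lf dev P x y) :
    ∃ p ∈ P, Ex dev x p y := by
  induction h with
  | refl => exact ⟨0, P.zero_mem, ex_zero hloc x⟩
  | tail _ hbc ih =>
    obtain ⟨p, hp, h1⟩ := ih
    obtain ⟨q, hq, h2⟩ := hbc
    refine ⟨q - -p, P.sub_mem hq (P.neg_mem hp), ?_⟩
    exact see_of_seen hloc (hc _) (P.neg_mem hp) hq h1.symm h2

theorem vis_shift (hloc : IsLocalHomeomorph dev) {P : Submodule ℝ E}
    (hc : ∀ x, Convex ℝ {v | v ∈ P ∧ Vis dev x v}) {x y : X} {p : E} (hp : p ∈ P)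
    (h : Ex dev x p y) {v : E} (hv : v ∈ P) : Vis dev y v ↔ Vis dev x (p + v) := by
  constructor
  · rintro ⟨z, hz⟩
    have := see_of_seen hloc (hc y) (P.neg_mem hp) hv h.symm hz
    rw [sub_neg_eq_add, add_comm] at this
    exact ⟨z, this⟩
  · rintro ⟨z, hz⟩
    have := see_of_seen hloc (hc x) hp (P.add_mem hp hv) h hz
    rw [add_sub_cancel_left] at this
    exact ⟨z, this⟩

end

section
variable {X Γ E : Type} [TopologicalSpace X] [T2Space X] [Group Γ] [MulAction Γ X]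
  [NormedAddCommGroup E] [NormedSpace ℝ E] [FiniteDimensional ℝ E] {dev : X → E}
  {hol : Γ →* (E ≃ᵃ[ℝ] E)}

theorem vis_equi (D : AffMfd X Γ E dev hol) (γ : Γ) {x : X} {v : E} :
    Vis dev (γ • x) (lin hol γ v) ↔ Vis dev x v := by
  constructor
  · rintro ⟨y, hy⟩
    have h1 := Pool.Agent.TH878.Mk.mfd_Ex_smul D γ⁻¹ hy
    rw [inv_smul_smul, lin_inv_apply] at h1
    exact ⟨_, h1⟩
  · rintro ⟨y, hy⟩
    exact ⟨_, Pool.Agent.TH878.Mk.mfd_Ex_smul D γ hy⟩

/-- the boundary of a slice is flat -/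
theorem slice_dirs (D : AffMfd X Γ E dev hol) {V S P : Submodule ℝ E} (hVP : V ≤ P)
    (hS : ∀ (x : X), ∀ v ∈ S, Vis dev x v) (hT : Thin hol V S)
    (hc : ∀ x, Convex ℝ {v | v ∈ P ∧ Vis dev x v}) (x0 : X)
    (p : P) (hp : p ∈ closure {v : P | Vis dev x0 v}) (u : P) (hu : (u : E) ∈ V) (v : P)
    (hv : (v : E) ∈ V) : ∃ a b : ℝ, (a ≠ 0 ∨ b ≠ 0) ∧
      ∃ ρ > 0, ∀ t : ℝ, |t| ≤ ρ → p + t • (a • u + b • v) ∈ closure {v : P | Vis dev x0 v} := by
  obtain ⟨x, hx, hxp⟩ := mem_closure_iff_seq_limit.1 hp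
  obtain ⟨y, hyd⟩ : ∃ y : ℕ → X, ∀ k, y k = pt dev x0 (x k) := ⟨_, fun _ => rfl⟩
  have hy : ∀ k, Ex dev x0 (x k) (y k) := fun k => by rw [hyd]; exact pt_spec (hx k)
  obtain ⟨K, hK, hKc⟩ := D.cc
  choose γ κ hκ hγ using fun k => hKc (y k)
  have hfc : FirstCountableTopology X := by
    refine ⟨fun x => ?_⟩
    obtain ⟨e, hx, he⟩ := D.loc x
    rw [e.nhds_eq_comap_inf_principal hx]
    infer_instance
  obtain ⟨z, -, φ, hφ, hzl⟩ := hK.tendsto_subseq hκ
  obtain ⟨r, hr, N, hN, HN⟩ := local_ball D.loc hS z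
  obtain ⟨C, hC⟩ := hT.norm hu hv
  choose a b ha hb hab _ s hs _ hsn using fun k => hC (γ (φ k))⁻¹ 0 0
  have hC0 : 0 ≤ C := (norm_nonneg _).trans (hsn 0)
  have hcpt : IsCompact ((Icc (-1 : ℝ) 1) ×ˢ (Icc (-1 : ℝ) 1)) := isCompact_Icc.prod isCompact_Icc
  obtain ⟨⟨a', b'⟩, -, ψ, hψ, hl⟩ := hcpt.tendsto_subseq (x := fun k => (a k, b k)) fun k =>
    ⟨abs_le.1 (ha k), abs_le.1 (hb k)⟩
  have hla : Tendsto (fun k => a (ψ k)) atTop (𝓝 a') :=
    (continuous_fst.tendsto _).comp hl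
  have hlb : Tendsto (fun k => b (ψ k)) atTop (𝓝 b') :=
    (continuous_snd.tendsto _).comp hl
  refine ⟨a', b', ?_, r / (C + 1) / 2, by positivity, fun t ht => ?_⟩
  · by_contra hcon
    push Not at hcon
    rw [hcon.1] at hla
    rw [hcon.2] at hlb
    have h1 := hla.abs
    have h2 := hlb.abs
    rw [abs_zero] at h1 h2
    obtain ⟨k, k1, k2⟩ := ((h1.eventually_lt_const one_pos).and
      (h2.eventually_lt_const one_pos)).exists
    rcases hab (ψ k) with h | h
    · rw [h] at k1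
      exact lt_irrefl _ k1
    · rw [h] at k2
      exact lt_irrefl _ k2
  · have hlim : Tendsto (fun k => x (φ (ψ k)) + t • (a (ψ k) • u + b (ψ k) • v)) atTop
        (𝓝 (p + t • (a' • u + b' • v))) := by
      refine (hxp.comp (hφ.comp hψ).tendsto_atTop).add (Tendsto.const_smul ?_ t)
      exact (hla.smul_const u).add (hlb.smul_const v)
    refine mem_closure_of_tendsto hlim ?_
    have h1 : ∀ᶠ k in atTop, κ (φ (ψ k)) ∈ N :=
      (hzl.comp hψ.tendsto_atTop).eventually_mem hN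
    filter_upwards [h1] with k hk
    have h2 : Vis dev (κ (φ (ψ k)))
        (t • lin hol (γ (φ (ψ k)))⁻¹ (a (ψ k) • (u : E) + b (ψ k) • (v : E) - s (ψ k))) := by
      refine HN _ hk _ 0 S.zero_mem ?_
      rw [sub_zero, norm_smul, Real.norm_eq_abs]
      calc |t| * ‖lin hol (γ (φ (ψ k)))⁻¹ (a (ψ k) • (u : E) + b (ψ k) • (v : E) - s (ψ k))‖
          ≤ r / (C + 1) / 2 * C := mul_le_mul ht (hsn _) (norm_nonneg _) (by positivity)
        _ ≤ r / 2 := by
            rw [div_div, div_mul_eq_mul_div, div_le_div_iff₀ (by positivity) two_pos]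
            nlinarith
        _ < r := by linarith
    rw [← lin_smul] at h2
    have h3 := mex_back D (hγ (φ (ψ k))) h2
    have h4 : Vis dev (y (φ (ψ k))) (t • (a (ψ k) • (u : E) + b (ψ k) • (v : E))) := by
      have h5 := vis_sat D.loc hS ⟨_, h3⟩ (s := -(t • s (ψ k))) (S.neg_mem (S.smul_mem _ (hs _)))
      convert h5 using 1
      module
    have h5 : t • (a (ψ k) • (u : E) + b (ψ k) • (v : E)) ∈ P :=
      P.smul_mem _ (P.add_mem (P.smul_mem _ u.2) (P.smul_mem _ v.2))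
    exact (vis_shift D.loc hc (x (φ (ψ k))).2 (hy (φ (ψ k))) h5).1 h4

/-- the slices are bounded by one or two parallel hyperplanes -/
theorem slice_wall (D : AffMfd X Γ E dev hol) {V S P : Submodule ℝ E} (hVS : V ⊔ S = P)
    (hS : ∀ (x : X), ∀ v ∈ S, Vis dev x v) (hT : Thin hol V S) (x0 : X)
    (hx0 : ∃ v ∈ P, ¬ Vis dev x0 v) : ∃ (φ : P →L[ℝ] ℝ) (b : ℝ), φ ≠ 0 ∧ 0 < b ∧
      (∀ v : P, Vis dev x0 v → φ v < b) ∧
      (∀ v w : P, Vis dev x0 v → φ v < φ w → φ w < b → Vis dev x0 w) := by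
  have hc : ∀ x, Convex ℝ {v | v ∈ P ∧ Vis dev x v} := fun x => by
    rw [← hVS]
    exact conv_sup D hS hT x
  have hVP : V ≤ P := by rw [← hVS]; exact le_sup_left
  have hSP : S ≤ P := by rw [← hVS]; exact le_sup_right
  obtain ⟨Ω, hΩ⟩ : ∃ Ω : Set P, Ω = {v : P | Vis dev x0 v} := ⟨_, rfl⟩
  have hO : IsOpen Ω := by
    rw [hΩ]
    exact (ex_open x0).preimage continuous_subtype_val
  have hcv : Convex ℝ Ω := by
    rw [hΩ]
    intro p hp q hq a b ha hb hab
    exact (hc x0 ⟨p.2, hp⟩ ⟨q.2, hq⟩ ha hb hab).2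
  have h0 : (0 : P) ∈ Ω := by
    rw [hΩ]
    exact ⟨x0, ex_zero D.loc x0⟩
  have hu : Ω ≠ univ := by
    obtain ⟨v, hv, hv'⟩ := hx0
    intro h
    have h1 : (⟨v, hv⟩ : P) ∈ Ω := by rw [h]; trivial
    rw [hΩ] at h1
    exact hv' h1
  obtain ⟨φ, b, h1, h2, h3⟩ := wall_of_dirs hO hcv ⟨0, h0⟩ hu
    (V := V.comap P.subtype) (S := S.comap P.subtype) (by
      rw [eq_top_iff]
      rintro ⟨v, hv⟩ -
      have hv' := hv
      rw [← hVS] at hv'
      obtain ⟨a, ha, s, hs, rfl⟩ := Submodule.mem_sup.1 hv'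
      refine Submodule.mem_sup.2 ⟨⟨a, hVP ha⟩, ha, ⟨s, hSP hs⟩, hs, rfl⟩)
    (by
      intro q hq s hs
      rw [hΩ] at hq ⊢
      have h4 : Vis dev x0 ((q : E) - -(s : E)) := vis_sat D.loc hS hq (S.neg_mem hs)
      rw [sub_neg_eq_add] at h4
      exact h4)
    (by
      intro p hp _ u hu v hv
      rw [hΩ] at hp ⊢
      exact slice_dirs D hVP hS hT hc x0 p hp u hu v hv)
  refine ⟨φ, b, h1, ?_, ?_, ?_⟩
  · have := h2 0 h0
    rwa [map_zero] at this
  · intro v hv
    exact h2 v (by rw [hΩ]; exact hv)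
  · intro v w hv hvw hwb
    have h4 : w ∈ Ω := between hO hcv h3 (x0 := v) (by rw [hΩ]; exact hv) hvw hwb
    rw [hΩ] at h4
    exact h4

/-- elements of the holonomy that preserve the leaf preserve the directions of the wall -/
theorem wall_pres (D : AffMfd X Γ E dev hol) {P : Submodule ℝ E}
    (hP : ∀ γ : Γ, ∀ v ∈ P, lin hol γ v ∈ P)
    (hc : ∀ x, Convex ℝ {v | v ∈ P ∧ Vis dev x v}) {x0 : X} {φ : P →L[ℝ] ℝ} {b : ℝ}
    (h1 : ∀ v : P, Vis dev x0 v → φ v < b)
    (h2 : ∀ v w : P, Vis dev x0 v → φ v < φ w → φ w < b → Vis dev x0 w) (hφ : φ ≠ 0)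
    {γ : Γ} (hγ : Lf dev P x0 (γ • x0)) (w : P) (hw : φ w = 0) :
    φ ⟨lin hol γ w, hP γ w w.2⟩ = 0 := by
  obtain ⟨p, hp, hpE⟩ := lf_one D.loc hc hγ
  have hO : IsOpen {v : P | Vis dev x0 v} := (ex_open x0).preimage continuous_subtype_val
  obtain ⟨e, he⟩ : ∃ e : P, φ e ≠ 0 := by
    by_contra hcon
    push Not at hcon
    exact hφ (ContinuousLinearMap.ext hcon)
  have hline : ∀ v : P, Vis dev x0 v → ∀ t : ℝ, Vis dev x0 ((v + t • w : P) : E) := by
    intro v hv t
    obtain ⟨v', hv', hlt⟩ : ∃ v' : P, Vis dev x0 v' ∧ φ v' < φ v := by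
      have hcont : ContinuousAt (fun s : ℝ => v - (s * φ e) • e) 0 :=
        (continuous_const.sub ((continuous_id.mul continuous_const).smul
          continuous_const)).continuousAt
      have hz : v - ((0 : ℝ) * φ e) • e = v := by rw [zero_mul, zero_smul, sub_zero]
      have h3 : ∀ᶠ s : ℝ in 𝓝 0, v - (s * φ e) • e ∈ {v : P | Vis dev x0 v} := by
        refine hcont.preimage_mem_nhds ?_
        rw [hz]
        exact hO.mem_nhds hv
      obtain ⟨δ, hδ, hδs⟩ := Metric.eventually_nhds_iff.1 h3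
      refine ⟨v - (δ / 2 * φ e) • e, hδs ?_, ?_⟩
      · rw [Real.dist_eq, sub_zero, abs_of_pos (by linarith)]
        linarith
      · rw [map_sub, map_smul, smul_eq_mul]
        have : 0 < δ / 2 * φ e * φ e := by
          have := mul_self_pos.2 he
          have h5 : 0 < δ / 2 := by linarith
          rw [mul_assoc]
          exact mul_pos h5 this
        linarith
    refine h2 v' _ hv' ?_ ?_
    · rw [map_add, map_smul, hw, smul_zero, add_zero]
      exact hlt
    · rw [map_add, map_smul, hw, smul_zero, add_zero]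
      exact h1 v hv
  have hall : ∀ t : ℝ, φ ⟨p, hp⟩ + t * φ ⟨lin hol γ w, hP γ w w.2⟩ < b := by
    intro t
    have h3 := hline 0 ⟨x0, ex_zero D.loc x0⟩ t
    rw [zero_add] at h3
    have h4 := (vis_equi D γ).2 h3
    have h5 := (vis_shift D.loc hc hp hpE (hP γ _ (t • w : P).2)).1 h4
    have h6 := h1 (⟨p, hp⟩ + t • ⟨lin hol γ w, hP γ w w.2⟩) (by
      convert h5 using 1
      show p + t • lin hol γ w = p + lin hol γ (t • (w : E))
      rw [lin_smul])
    rwa [map_add, map_smul, smul_eq_mul] at h6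
  by_contra hne
  have h3 := hall ((b - φ ⟨p, hp⟩) / φ ⟨lin hol γ w, hP γ w w.2⟩)
  rw [div_mul_cancel₀ _ hne] at h3
  linarith

/-- the developing map is injective -/
theorem inj_of_leaves (D : AffMfd X Γ E dev hol) {P : Submodule ℝ E}
    (hc : ∀ x, Convex ℝ {v | v ∈ P ∧ Vis dev x v})
    (hl : ∀ x y : X, dev y - dev x ∈ P → Lf dev P x y) : Function.Injective dev := by
  intro x y hxy
  obtain ⟨p, hp, h⟩ := lf_one D.loc hc (hl x y (by rw [hxy, sub_self]; exact P.zero_mem))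
  have h1 := h.dev_eq
  rw [hxy] at h1
  have h2 : p = 0 := by simpa using h1
  rw [h2] at h
  exact (ex_zero D.loc x).unique D.loc h

omit [FiniteDimensional ℝ E] in
/-- all points are in one leaf of the whole space -/
theorem lf_top [PreconnectedSpace X] (hloc : IsLocalHomeomorph dev) (x y : X) :
    Lf dev ⊤ x y := by
  refine conn_rel (R := Lf dev ⊤) (fun a b h => h.symm) (fun a b c h h' => h.trans h')
    (fun z => ?_) x y
  obtain ⟨e, r, hxe, he, hr, hrt⟩ := exists_sec hloc z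
  have hsec := Pool.Agent.W689.Mk.sec_of_target e he (dev z) r hrt
  have hez : e.symm (dev z) = z := by rw [he]; exact e.left_inv hxe
  have hopen := hsec.isOpen_image hloc isOpen_ball Subset.rfl
  filter_upwards [hopen.mem_nhds ⟨dev z, mem_ball_self hr, hez⟩]
  rintro _ ⟨q, hq, rfl⟩
  have h1 := hsec.Ex (q := dev z) (v := q - dev z) (mem_ball_self hr) (by rwa [add_sub_cancel])
  rw [add_sub_cancel, hez] at h1
  exact Lf.one Submodule.mem_top h1

/-- leaves are fibres -/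
theorem leaf_chain (D : AffMfd X Γ E dev hol) [PreconnectedSpace X] (P : ℕ → Submodule ℝ E)
    (k : ℕ) (hk : P k = ⊤) (hmono : Monotone P) (hP : ∀ i, ∀ γ : Γ, ∀ v ∈ P i, lin hol γ v ∈ P i)
    (hC : ∀ i < k, ∃ C : ℝ, ∀ γ : Γ, ∀ v ∈ P (i + 1), ∃ w ∈ P i, ‖lin hol γ v - w‖ ≤ C * ‖v‖)
    (x y : X) (hxy : dev y - dev x ∈ P 0) : Lf dev (P 0) x y := by
  have key : ∀ j, j ≤ k → Lf dev (P (k - j)) x y := by
    intro j
    induction j with
    | zero =>
      intro _
      rw [Nat.sub_zero, hk]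
      exact lf_top D.loc x y
    | succ j ih =>
      intro hj
      have h1 := ih (by omega)
      have h2 : k - j = (k - (j + 1)) + 1 := by omega
      rw [h2] at h1
      exact leaf_conn D (hP _) (hC _ (by omega)) h1 (hmono (Nat.zero_le _) hxy)
  have := key k le_rfl
  rwa [Nat.sub_self] at this

end

end Pool.Agent.Q185.MK
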