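import Pool.Agent.Q185.MK.Slice

/-!
Solvability of affine groups which preserve a wall of each leaf.
-/

set_option autoImplicit false

open Set Filter Topology Metric
open scoped commutatorElement

namespace Pool.Agent.Q185.MK

open Pool.Agent.W689.Mk (lin hol_add hol_sub hol_inv_apply hol_apply_inv lin_inv_apply lin_mul
  lin_smul)

section
variable {G E : Type} [Group G] [NormedAddCommGroup E] [NormedSpace ℝ E] [FiniteDimensional ℝ E]
  {hol : G →* (E ≃ᵃ[ℝ] E)}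

theorem lin_add' (γ : G) (v w : E) : lin hol γ (v + w) = lin hol γ v + lin hol γ w :=
  map_add ((hol γ).linear) v w

theorem lin_sub' (γ : G) (v w : E) : lin hol γ (v - w) = lin hol γ v - lin hol γ w :=
  map_sub ((hol γ).linear) v w

theorem lin_one (v : E) : lin hol 1 v = v := by
  have : hol 1 = 1 := map_one hol
  show (hol 1).linear v = v
  rw [this]
  rfl

/-- the elements which preserve `B` and are trivial on `F` modulo `B` -/
def Trv (hol : G →* (E ≃ᵃ[ℝ] E)) (F B : Submodule ℝ E) : Subgroup G where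
  carrier := {γ | (∀ v, lin hol γ v ∈ B ↔ v ∈ B) ∧ ∀ v ∈ F, lin hol γ v - v ∈ B}
  mul_mem' := by
    rintro γ δ ⟨h1, h2⟩ ⟨h3, h4⟩
    refine ⟨fun v => by rw [lin_mul, h1, h3], fun v hv => ?_⟩
    have e : lin hol (γ * δ) v - v = lin hol γ (lin hol δ v - v) + (lin hol γ v - v) := by
      rw [lin_mul, lin_sub']
      abel
    rw [e]
    exact B.add_mem ((h1 _).2 (h4 v hv)) (h2 v hv)
  one_mem' := ⟨fun v => by rw [lin_one], fun v _ => by rw [lin_one, sub_self]; exact B.zero_mem⟩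
  inv_mem' := by
    rintro γ ⟨h1, h2⟩
    refine ⟨fun v => ?_, fun v hv => ?_⟩
    · rw [← h1, lin_apply_inv']
    · rw [← h1, lin_sub', lin_apply_inv', ← neg_sub]
      exact B.neg_mem (h2 v hv)

/-- the elements which act trivially on the quotient by `P` -/
def Ntr (hol : G →* (E ≃ᵃ[ℝ] E)) (P : Submodule ℝ E) : Subgroup G where
  carrier := {γ | (∀ v, lin hol γ v ∈ P ↔ v ∈ P) ∧ ∀ q, hol γ q - q ∈ P}
  mul_mem' := by
    rintro γ δ ⟨h1, h2⟩ ⟨h3, h4⟩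
    refine ⟨fun v => by rw [lin_mul, h1, h3], fun q => ?_⟩
    have e : hol (γ * δ) q - q = (hol γ (hol δ q) - hol δ q) + (hol δ q - q) := by
      rw [map_mul]
      show hol γ (hol δ q) - q = _
      abel
    rw [e]
    exact P.add_mem (h2 _) (h4 q)
  one_mem' := ⟨fun v => by rw [lin_one], fun q => by
    rw [map_one]
    show q - q ∈ P
    rw [sub_self]
    exact P.zero_mem⟩
  inv_mem' := by
    rintro γ ⟨h1, h2⟩
    refine ⟨fun v => ?_, fun q => ?_⟩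
    · rw [← h1, lin_apply_inv']
    · have h3 := h2 (hol γ⁻¹ q)
      rw [hol_apply_inv] at h3
      rw [← neg_sub]
      exact P.neg_mem h3

theorem comm_lin (γ δ : G) (v : E) :
    lin hol ⁅γ, δ⁆ (lin hol (δ * γ) v) = lin hol (γ * δ) v := by
  have h : ⁅γ, δ⁆ * (δ * γ) = γ * δ := by
    rw [commutatorElement_def]
    group
  rw [← lin_mul, h]

theorem comm_hol (γ δ : G) (v : E) :
    hol ⁅γ, δ⁆ (hol (δ * γ) v) = hol (γ * δ) v := by
  have h : ⁅γ, δ⁆ * (δ * γ) = γ * δ := by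
    rw [commutatorElement_def]
    group
  have h2 : hol (γ * δ) = hol ⁅γ, δ⁆ * hol (δ * γ) := by rw [← map_mul, h]
  rw [h2]
  rfl

/-- a commutator of elements that commute on `F` modulo `B` -/
theorem comm_mem {F B : Submodule ℝ E} {γ δ : G}
    (hF : ∀ v, lin hol (δ * γ)⁻¹ v ∈ F ↔ v ∈ F)
    (hB : ∀ v, lin hol ⁅γ, δ⁆ v ∈ B ↔ v ∈ B)
    (h : ∀ v ∈ F, lin hol (γ * δ) v - lin hol (δ * γ) v ∈ B) : ⁅γ, δ⁆ ∈ Trv hol F B := by
  refine ⟨hB, fun v hv => ?_⟩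
  have h1 := h _ ((hF v).2 hv)
  have h2 := comm_lin (hol := hol) γ δ (lin hol (δ * γ)⁻¹ v)
  rw [lin_apply_inv'] at h1 h2
  rwa [h2]

theorem comm_char {F B : Submodule ℝ E} {e : E} (hFe : F ≤ B ⊔ ℝ ∙ e) (he : e ∈ F) {γ δ : G}
    (hγF : ∀ v ∈ F, lin hol γ v ∈ F) (hδF : ∀ v ∈ F, lin hol δ v ∈ F)
    (hγB : ∀ v ∈ B, lin hol γ v ∈ B) (hδB : ∀ v ∈ B, lin hol δ v ∈ B) :
    ∀ v ∈ F, lin hol (γ * δ) v - lin hol (δ * γ) v ∈ B := by
  obtain ⟨g, hg, _, hc, h1⟩ := Submodule.mem_sup.1 (hFe (hγF e he))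
  obtain ⟨c, rfl⟩ := Submodule.mem_span_singleton.1 hc
  obtain ⟨g', hg', _, hd, h2⟩ := Submodule.mem_sup.1 (hFe (hδF e he))
  obtain ⟨d, rfl⟩ := Submodule.mem_span_singleton.1 hd
  intro v hv
  obtain ⟨g0, hg0, _, ht, rfl⟩ := Submodule.mem_sup.1 (hFe hv)
  obtain ⟨t, rfl⟩ := Submodule.mem_span_singleton.1 ht
  have e1 : lin hol (γ * δ) (g0 + t • e) = lin hol γ (lin hol δ g0) +
      t • (lin hol γ g' + d • (g + c • e)) := by
    rw [lin_mul, lin_add', lin_smul, ← h2, lin_add', lin_smul, lin_add', lin_smul, h1]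
  have e2 : lin hol (δ * γ) (g0 + t • e) = lin hol δ (lin hol γ g0) +
      t • (lin hol δ g + c • (g' + d • e)) := by
    rw [lin_mul, lin_add', lin_smul, ← h1, lin_add', lin_smul, lin_add', lin_smul, h2]
  have e3 : lin hol (γ * δ) (g0 + t • e) - lin hol (δ * γ) (g0 + t • e) =
      (lin hol γ (lin hol δ g0) - lin hol δ (lin hol γ g0)) +
      t • ((lin hol γ g' + d • g) - (lin hol δ g + c • g')) := by
    rw [e1, e2]
    module
  rw [e3]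
  refine B.add_mem (B.sub_mem (hγB _ (hδB _ hg0)) (hδB _ (hγB _ hg0))) (B.smul_mem _ ?_)
  exact B.sub_mem (B.add_mem (hγB _ hg') (B.smul_mem _ hg))
    (B.add_mem (hδB _ hg) (B.smul_mem _ hg'))

theorem comm_two {F B C : Submodule ℝ E} {γ δ : G}
    (hγ : ∀ v ∈ F, lin hol γ v - v ∈ B) (hδ : ∀ v ∈ F, lin hol δ v - v ∈ B)
    (hγ' : ∀ v ∈ B, lin hol γ v - v ∈ C) (hδ' : ∀ v ∈ B, lin hol δ v - v ∈ C) :
    ∀ v ∈ F, lin hol (γ * δ) v - lin hol (δ * γ) v ∈ C := by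
  intro v hv
  have e : lin hol (γ * δ) v - lin hol (δ * γ) v =
      (lin hol γ (lin hol δ v - v) - (lin hol δ v - v)) -
        (lin hol δ (lin hol γ v - v) - (lin hol γ v - v)) := by
    rw [lin_mul, lin_mul, lin_sub', lin_sub']
    abel
  rw [e]
  exact C.sub_mem (hγ' _ (hδ v hv)) (hδ' _ (hγ v hv))

theorem comm_aff {P : Submodule ℝ E} {γ δ : G} (hP : ∀ v, lin hol ⁅γ, δ⁆ v ∈ P ↔ v ∈ P)
    (hγ : ∀ v, lin hol γ v - v ∈ P) (hδ : ∀ v, lin hol δ v - v ∈ P) : ⁅γ, δ⁆ ∈ Ntr hol P := by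
  refine ⟨hP, fun q => ?_⟩
  have h1 := comm_hol (hol := hol) γ δ (hol (δ * γ)⁻¹ q)
  rw [hol_apply_inv] at h1
  rw [h1]
  obtain ⟨p, hp⟩ : ∃ p, p = hol (δ * γ)⁻¹ q := ⟨_, rfl⟩
  have hq : q = hol (δ * γ) p := by rw [hp, hol_apply_inv]
  rw [← hp, hq, map_mul, map_mul]
  show hol γ (hol δ p) - hol δ (hol γ p) ∈ P
  have e1 : hol γ (hol δ p) = hol γ p + lin hol γ (hol δ p - p) := by
    rw [← hol_add, add_sub_cancel]
  have e2 : hol δ (hol γ p) = hol δ p + lin hol δ (hol γ p - p) := by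
    rw [← hol_add, add_sub_cancel]
  have e3 : hol γ (hol δ p) - hol δ (hol γ p) =
      (lin hol γ (hol δ p - p) - (hol δ p - p)) - (lin hol δ (hol γ p - p) - (hol γ p - p)) := by
    rw [e1, e2]
    abel
  rw [e3]
  exact P.sub_mem (hγ _) (hδ _)

theorem der_succ_le {n : ℕ} {B : Subgroup G}
    (h : ∀ γ ∈ derivedSeries G n, ∀ δ ∈ derivedSeries G n, ⁅γ, δ⁆ ∈ B) :
    derivedSeries G (n + 1) ≤ B := by
  rw [derivedSeries_succ, Subgroup.commutator_le]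
  exact h

theorem stab_iff {B : Submodule ℝ E} (h : ∀ γ : G, ∀ v ∈ B, lin hol γ v ∈ B) (γ : G) (v : E) :
    lin hol γ v ∈ B ↔ v ∈ B := by
  refine ⟨fun hv => ?_, h γ v⟩
  have := h γ⁻¹ _ hv
  rwa [lin_inv_apply] at this

theorem stab_iff' {B : Submodule ℝ E} {N : Subgroup G} (h : ∀ γ ∈ N, ∀ v ∈ B, lin hol γ v ∈ B)
    {γ : G} (hγ : γ ∈ N) (v : E) : lin hol γ v ∈ B ↔ v ∈ B := by
  refine ⟨fun hv => ?_, h γ hγ v⟩
  have := h γ⁻¹ (N.inv_mem hγ) _ hv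
  rwa [lin_inv_apply] at this

/-- **Solvability.** -/
theorem solv_main {S V F P : Submodule ℝ E} (hSF : S ≤ F) (hFP : F ≤ P)
    (hFV : F ≤ S ⊔ (V ⊓ F)) {e : E} (he : e ∈ P) (hPe : P ≤ F ⊔ ℝ ∙ e)
    (hPst : ∀ γ : G, ∀ v ∈ P, lin hol γ v ∈ P) {n : ℕ}
    (h0 : ∀ γ ∈ derivedSeries G n, (∀ v ∈ S, lin hol γ v = v) ∧ ∀ v, lin hol γ v - v ∈ P)
    (hFst : ∀ γ : G, (∀ q, hol γ q - q ∈ P) → ∀ v ∈ F, lin hol γ v ∈ F)
    (hfix : ∃ m, ∀ γ ∈ derivedSeries G m, ∀ v ∈ V ⊓ F, lin hol γ v = v) :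
    ∃ N, ∀ γ ∈ derivedSeries G N, ∀ v, lin hol γ v = v := by
  obtain ⟨m, hfix⟩ := hfix
  have h1 : derivedSeries G (n + 1) ≤ Ntr hol P := der_succ_le fun γ hγ δ hδ =>
    comm_aff (stab_iff hPst _) (h0 γ hγ).2 (h0 δ hδ).2
  have hF1 : ∀ γ ∈ derivedSeries G (n + 1), ∀ v ∈ F, lin hol γ v ∈ F := fun γ hγ =>
    hFst γ (h1 hγ).2
  have h2 : derivedSeries G (n + 2) ≤ Trv hol P F := der_succ_le fun γ hγ δ hδ => by
    have hc : ⁅γ, δ⁆ ∈ derivedSeries G (n + 1) := by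
      have : ⁅γ, δ⁆ ∈ derivedSeries G (n + 2) := by
        rw [show n + 2 = (n + 1) + 1 from rfl, derivedSeries_succ]
        exact Subgroup.commutator_mem_commutator hγ hδ
      exact derivedSeries_antitone G (Nat.le_succ _) this
    exact comm_mem (stab_iff hPst _) (stab_iff' hF1 hc)
      (comm_char hPe he (hPst γ) (hPst δ) (hF1 γ hγ) (hF1 δ hδ))
  obtain ⟨M, hM⟩ : ∃ M, M = max (n + 2) m := ⟨_, rfl⟩
  have hMn : n + 2 ≤ M := by rw [hM]; exact le_max_left _ _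
  have hMm : m ≤ M := by rw [hM]; exact le_max_right _ _
  have hfixF : ∀ γ ∈ derivedSeries G M, ∀ v ∈ F, lin hol γ v = v := by
    intro γ hγ v hv
    obtain ⟨s, hs, w, hw, rfl⟩ := Submodule.mem_sup.1 (hFV hv)
    rw [lin_add', hfix γ (derivedSeries_antitone G hMm hγ) w hw,
      (h0 γ (derivedSeries_antitone G (le_trans (by omega) hMn) hγ)).1 s hs]
  have hbot : ∀ (γ : G) (v : E), lin hol γ v ∈ (⊥ : Submodule ℝ E) ↔ v ∈ (⊥ : Submodule ℝ E) := by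
    refine stab_iff fun γ v hv => ?_
    rw [Submodule.mem_bot] at hv ⊢
    rw [hv]
    exact map_zero ((hol γ).linear)
  have hfix0 : ∀ γ ∈ derivedSeries G M, ∀ v ∈ F, lin hol γ v - v ∈ (⊥ : Submodule ℝ E) := by
    intro γ hγ v hv
    rw [hfixF γ hγ v hv, sub_self]
    exact Submodule.zero_mem _
  have h3 : derivedSeries G (M + 1) ≤ Trv hol P ⊥ := der_succ_le fun γ hγ δ hδ => by
    refine comm_mem (stab_iff hPst _) (hbot _) (comm_two (B := F) ?_ ?_ (hfix0 γ hγ) (hfix0 δ hδ))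
    · exact (h2 (derivedSeries_antitone G hMn hγ)).2
    · exact (h2 (derivedSeries_antitone G hMn hδ)).2
  have h4 : derivedSeries G (M + 2) ≤ Trv hol ⊤ ⊥ := der_succ_le fun γ hγ δ hδ => by
    have hn : n ≤ M + 1 := by omega
    refine comm_mem (fun v => ⟨fun _ => Submodule.mem_top, fun _ => Submodule.mem_top⟩) (hbot _)
      (comm_two (B := P) ?_ ?_ (h3 hγ).2 (h3 hδ).2)
    · exact fun v _ => (h0 γ (derivedSeries_antitone G hn hγ)).2 v
    · exact fun v _ => (h0 δ (derivedSeries_antitone G hn hδ)).2 v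
  refine ⟨M + 2, fun γ hγ v => ?_⟩
  have := (h4 hγ).2 v Submodule.mem_top
  rw [Submodule.mem_bot, sub_eq_zero] at this
  exact this

/-- the case of a line -/
theorem fix_line {V F P : Submodule ℝ E} {e : E} (he : e ∈ V ⊓ F) (hVe : V ⊓ F ≤ ℝ ∙ e)
    (hVst : ∀ γ : G, ∀ v ∈ V, lin hol γ v ∈ V)
    (hPst : ∀ γ : G, ∀ v ∈ P, lin hol γ v ∈ P) {n : ℕ}
    (h0 : ∀ γ ∈ derivedSeries G n, ∀ v, lin hol γ v - v ∈ P)
    (hFst : ∀ γ : G, (∀ q, hol γ q - q ∈ P) → ∀ v ∈ F, lin hol γ v ∈ F) :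
    ∀ γ ∈ derivedSeries G (n + 2), ∀ v ∈ V ⊓ F, lin hol γ v = v := by
  have h1 : derivedSeries G (n + 1) ≤ Ntr hol P := der_succ_le fun γ hγ δ hδ =>
    comm_aff (stab_iff hPst _) (h0 γ hγ) (h0 δ hδ)
  have hF1 : ∀ γ ∈ derivedSeries G (n + 1), ∀ v ∈ V ⊓ F, lin hol γ v ∈ V ⊓ F := fun γ hγ v hv =>
    ⟨hVst γ v hv.1, hFst γ (h1 hγ).2 v hv.2⟩
  have hbot : ∀ (γ : G) (v : E), lin hol γ v ∈ (⊥ : Submodule ℝ E) ↔ v ∈ (⊥ : Submodule ℝ E) := by
    refine stab_iff fun γ v hv => ?_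
    rw [Submodule.mem_bot] at hv ⊢
    rw [hv]
    exact map_zero ((hol γ).linear)
  have h2 : derivedSeries G (n + 2) ≤ Trv hol (V ⊓ F) ⊥ := der_succ_le fun γ hγ δ hδ => by
    have hinv : (δ * γ)⁻¹ ∈ derivedSeries G (n + 1) :=
      Subgroup.inv_mem _ (Subgroup.mul_mem _ hδ hγ)
    refine comm_mem (stab_iff' hF1 hinv) (hbot _) (comm_char (by rwa [bot_sup_eq]) he (hF1 γ hγ)
      (hF1 δ hδ) (fun v hv => (hbot γ v).2 hv) (fun v hv => (hbot δ v).2 hv))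
  intro γ hγ v hv
  have := (h2 hγ).2 v hv
  rw [Submodule.mem_bot, sub_eq_zero] at this
  exact this

end

end Pool.Agent.Q185.MK
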