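import Pool.Agent.Q185.MK.Plane
import Pool.Agent.Y449.MK.Dom1
import Pool.Agent.TH878.Mk.Chern

/-!
Closed affine manifolds whose linear holonomy has discompacity at most one relative to complete
directions: the set of the vectors seen from a point is convex.
-/

set_option autoImplicit false

open Set Filter Topology Metric

namespace Pool.Agent.Q185.MK

open Pool.Agent.W689.Mk (lin hol_add hol_sub hol_inv_apply hol_apply_inv lin_inv_apply lin_mul
  lin_smul lin_neg hol_cont Sec Ex Geod Geod.ex sec_of_Ex exists_sec)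
open Pool.Agent.TH569.MK Pool.Agent.Y449.MK
open Pool.Agent.W689.Ch (AffMfd)

/-- every plane in `V` contains a direction which, after a bounded correction in `S`, has bounded
image under the linear holonomy -/
def Thin {Γ E : Type} [Group Γ] [NormedAddCommGroup E] [NormedSpace ℝ E]
    (hol : Γ →* (E ≃ᵃ[ℝ] E)) (V S : Submodule ℝ E) : Prop :=
  ∃ C : ℝ, ∀ (γ : Γ), ∀ p ∈ V, ∀ q ∈ V, ∃ a b : ℝ, (a ≠ 0 ∨ b ≠ 0) ∧ ∃ s ∈ S,
    ‖s‖ ≤ C * ‖a • p + b • q‖ ∧ ‖(hol γ).linear (a • p + b • q - s)‖ ≤ C * ‖a • p + b • q‖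

section
variable {Γ E : Type} [Group Γ] [NormedAddCommGroup E] [NormedSpace ℝ E]
  {hol : Γ →* (E ≃ᵃ[ℝ] E)}

/-- the normalised form -/
theorem Thin.norm {V S : Submodule ℝ E} (hT : Thin hol V S) {p q : E} (hp : p ∈ V) (hq : q ∈ V) :
    ∃ C : ℝ, ∀ (γ : Γ) (l m : ℝ), ∃ a b : ℝ, |a| ≤ 1 ∧ |b| ≤ 1 ∧ (|a| = 1 ∨ |b| = 1) ∧
      0 ≤ a * l + b * m ∧ ∃ s ∈ S, ‖s‖ ≤ C ∧ ‖lin hol γ (a • p + b • q - s)‖ ≤ C := by
  obtain ⟨C, hC⟩ := hT
  refine ⟨|C| * (‖p‖ + ‖q‖), fun γ l m => ?_⟩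
  obtain ⟨a, b, hab, s, hs, h1, h2⟩ := hC γ p hp q hq
  have hM : 0 < max |a| |b| := by
    rcases hab with h | h
    · exact lt_max_of_lt_left (abs_pos.2 h)
    · exact lt_max_of_lt_right (abs_pos.2 h)
  obtain ⟨M, hMd⟩ : ∃ M, M = max |a| |b| := ⟨_, rfl⟩
  rw [← hMd] at hM
  -- the scaling factor with a sign
  obtain ⟨c, hc, hcl⟩ : ∃ c : ℝ, |c| = M⁻¹ ∧ 0 ≤ c * (a * l + b * m) := by
    rcases le_total 0 (a * l + b * m) with h | h
    · exact ⟨M⁻¹, abs_of_pos (by positivity), mul_nonneg (by positivity) h⟩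
    · refine ⟨-M⁻¹, by rw [abs_neg]; exact abs_of_pos (by positivity), ?_⟩
      have : 0 ≤ M⁻¹ * -(a * l + b * m) := mul_nonneg (by positivity) (by linarith)
      linarith
  have ha : |c * a| ≤ 1 := by
    rw [abs_mul, hc, inv_mul_le_iff₀ hM, mul_one, hMd]
    exact le_max_left _ _
  have hb : |c * b| ≤ 1 := by
    rw [abs_mul, hc, inv_mul_le_iff₀ hM, mul_one, hMd]
    exact le_max_right _ _
  have hn : ‖(c * a) • p + (c * b) • q‖ ≤ ‖p‖ + ‖q‖ := by
    refine (norm_add_le _ _).trans ?_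
    rw [norm_smul, norm_smul, Real.norm_eq_abs, Real.norm_eq_abs]
    have h3 := mul_le_mul_of_nonneg_right ha (norm_nonneg p)
    have h4 := mul_le_mul_of_nonneg_right hb (norm_nonneg q)
    linarith
  have e1 : (c * a) • p + (c * b) • q = c • (a • p + b • q) := by
    rw [smul_add, smul_smul, smul_smul]
  have key : |c| * (C * ‖a • p + b • q‖) ≤ |C| * (‖p‖ + ‖q‖) := by
    have h5 : |c| * ‖a • p + b • q‖ ≤ ‖p‖ + ‖q‖ := by
      rw [← Real.norm_eq_abs, ← norm_smul, ← e1]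
      exact hn
    have h6 : 0 ≤ |c| * ‖a • p + b • q‖ := by positivity
    calc |c| * (C * ‖a • p + b • q‖) = C * (|c| * ‖a • p + b • q‖) := by ring
      _ ≤ |C| * (|c| * ‖a • p + b • q‖) := mul_le_mul_of_nonneg_right (le_abs_self C) h6
      _ ≤ |C| * (‖p‖ + ‖q‖) := mul_le_mul_of_nonneg_left h5 (abs_nonneg C)
  refine ⟨c * a, c * b, ha, hb, ?_, ?_, c • s, S.smul_mem c hs, ?_, ?_⟩
  · rw [abs_mul, abs_mul, hc, hMd]
    rcases max_choice |a| |b| with h | h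
    · left
      rw [h, inv_mul_cancel₀]
      rw [← h, ← hMd]
      exact hM.ne'
    · right
      rw [h, inv_mul_cancel₀]
      rw [← h, ← hMd]
      exact hM.ne'
  · have : c * a * l + c * b * m = c * (a * l + b * m) := by ring
    rw [this]
    exact hcl
  · rw [norm_smul, Real.norm_eq_abs]
    exact (mul_le_mul_of_nonneg_left h1 (abs_nonneg c)).trans key
  · have e2 : (c * a) • p + (c * b) • q - c • s = c • (a • p + b • q - s) := by
      rw [e1, smul_sub]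
    have e3 : lin hol γ (c • (a • p + b • q - s)) = c • lin hol γ (a • p + b • q - s) :=
      (hol γ).linear.map_smul _ _
    rw [e2, e3, norm_smul, Real.norm_eq_abs]
    exact (mul_le_mul_of_nonneg_left h2 (abs_nonneg c)).trans key

end

section
variable {X Γ E : Type} [TopologicalSpace X] [T2Space X] [Group Γ] [MulAction Γ X]
  [NormedAddCommGroup E] [NormedSpace ℝ E] [FiniteDimensional ℝ E] {dev : X → E}
  {hol : Γ →* (E ≃ᵃ[ℝ] E)}

omit [FiniteDimensional ℝ E] [T2Space X] [TopologicalSpace X] [MulAction Γ X] in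
theorem lin_apply_inv' (γ : Γ) (v : E) : lin hol γ (lin hol γ⁻¹ v) = v := by
  have := lin_inv_apply (hol := hol) γ⁻¹ v
  rwa [inv_inv] at this

omit [T2Space X] in
theorem mex_back (D : AffMfd X Γ E dev hol) {γ : Γ} {κ y : X} {v : E} (h : γ • κ = y)
    (hv : Vis dev κ (lin hol γ⁻¹ v)) : Ex dev y v (γ • pt dev κ (lin hol γ⁻¹ v)) := by
  have h1 := Pool.Agent.TH878.Mk.mfd_Ex_smul D γ (pt_spec hv)
  rwa [h, lin_apply_inv'] at h1

/-- approaching a first unseen vector, the holonomy blows up -/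
theorem mblow (D : AffMfd X Γ E dev hol) {y : X} {u : E} (hFU : FU dev y u) {t : ℕ → ℝ}
    (ht0 : ∀ k, 0 ≤ t k) (ht1 : ∀ k, t k < 1) (htl : Tendsto t atTop (𝓝 1)) :
    ∃ (φ : ℕ → ℕ) (γ : ℕ → Γ) (κ : ℕ → X) (z : X), StrictMono φ ∧ Tendsto κ atTop (𝓝 z) ∧
      (∀ k, γ k • κ k = pt dev y (t (φ k) • u)) ∧
      Tendsto (fun k => ‖lin hol (γ k)⁻¹ u‖) atTop atTop := by
  obtain ⟨K, hK, hKc⟩ := D.cc
  choose γ' κ' hκ hγ' using fun k => hKc (pt dev y (t k • u))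
  have hfc : FirstCountableTopology X := by
    refine ⟨fun x => ?_⟩
    obtain ⟨e, hx, he⟩ := D.loc x
    rw [e.nhds_eq_comap_inf_principal hx]
    infer_instance
  obtain ⟨z, -, φ, hφ, hzl⟩ := hK.tendsto_subseq hκ
  refine ⟨φ, γ' ∘ φ, κ' ∘ φ, z, hφ, hzl, fun k => hγ' _, ?_⟩
  rw [Filter.tendsto_atTop]
  intro R
  obtain ⟨r, hr, N, hN, HN⟩ := local_ball D.loc (S := (⊥ : Submodule ℝ E)) (fun x v hv => by
    rw [Submodule.mem_bot] at hv
    rw [hv]
    exact ⟨x, ex_zero D.loc x⟩) z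
  have h1 : ∀ᶠ k in atTop, κ' (φ k) ∈ N := hzl.eventually_mem hN
  have h2 : ∀ᶠ k in atTop, (1 - t (φ k)) * |R| < r := by
    have h3 : Tendsto (fun k => (1 - t (φ k)) * |R|) atTop (𝓝 ((1 - 1) * |R|)) :=
      ((tendsto_const_nhds (x := (1 : ℝ))).sub (htl.comp hφ.tendsto_atTop)).mul_const _
    rw [sub_self, zero_mul] at h3
    exact h3.eventually_lt_const hr
  filter_upwards [h1, h2] with k k1 k2
  by_contra hcon
  push Not at hcon
  apply hFU.1
  have h1t : 0 ≤ 1 - t (φ k) := by linarith [ht1 (φ k)]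
  have h3 : Vis dev (κ' (φ k)) ((1 - t (φ k)) • lin hol (γ' (φ k))⁻¹ u) := by
    refine HN _ k1 _ 0 (Submodule.zero_mem _) ?_
    rw [sub_zero, norm_smul, Real.norm_eq_abs, abs_of_nonneg h1t]
    refine lt_of_le_of_lt (mul_le_mul_of_nonneg_left ?_ h1t) k2
    exact le_trans (le_of_lt hcon) (le_abs_self R)
  rw [← lin_smul] at h3
  have h4 := mex_back D (hγ' (φ k)) h3
  exact ex_line D.loc (ht0 _) (ht1 _).le (pt_spec (hFU.2 _ (ht0 _) (ht1 _))) ⟨_, h4⟩

/-- adding complete directions -/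
theorem vis_sat (hloc : IsLocalHomeomorph dev) {S : Submodule ℝ E}
    (hS : ∀ (x : X), ∀ v ∈ S, Vis dev x v) {x : X} {v s : E} (hv : Vis dev x v) (hs : s ∈ S) :
    Vis dev x (v - s) := by
  obtain ⟨y, hy⟩ := hv
  have h := ex_add hloc hy (l := -s) fun y t => hS y _ (S.smul_mem t (S.neg_mem hs))
  rwa [← sub_eq_add_neg] at h

/-- a point near two limits which are related by the holonomy -/
theorem finite_lin (D : AffMfd X Γ E dev hol) {κ p : ℕ → X} {γ : ℕ → Γ} {z1 z2 : X}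
    (h1 : Tendsto κ atTop (𝓝 z1)) (h2 : Tendsto p atTop (𝓝 z2)) (h : ∀ᶠ k in atTop, γ k • κ k = p k)
    (u : E) : ¬ Tendsto (fun k => ‖lin hol (γ k)⁻¹ u‖) atTop atTop := by
  intro hγ
  obtain ⟨N1, hN1, hN1c⟩ := Pool.Agent.W689.Ch.exists_cpt_nhd D z1
  obtain ⟨N2, hN2, hN2c⟩ := Pool.Agent.W689.Ch.exists_cpt_nhd D z2
  have hfin := D.pd (N1 ∪ N2) (hN1c.union hN2c)
  obtain ⟨M, hM⟩ : ∃ M : ℝ, ∀ g ∈ {γ : Γ | ∃ x ∈ N1 ∪ N2, γ • x ∈ N1 ∪ N2},
      ‖lin hol g u‖ ≤ M := by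
    obtain ⟨M, hM⟩ := (hfin.image fun g => ‖lin hol g u‖).bddAbove
    exact ⟨M, fun g hg => hM ⟨g, hg, rfl⟩⟩
  obtain ⟨k, ⟨⟨k1, k2⟩, k3⟩, k4⟩ :=
    (((h1.eventually_mem hN1).and h).and (h2.eventually_mem hN2)).and
      (hγ.eventually_gt_atTop M) |>.exists
  have hM' := hM (γ k)⁻¹ ⟨p k, Or.inr k3, Or.inl ?_⟩
  · linarith
  · rw [← k2, inv_smul_smul]
    exact k1

/-- **Local convexity.** -/
theorem conv_seen (D : AffMfd X Γ E dev hol) {V S : Submodule ℝ E}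
    (hS : ∀ (x : X), ∀ v ∈ S, Vis dev x v) (hT : Thin hol V S) (x : X) :
    Convex ℝ {v | v ∈ V ∧ Vis dev x v} := by
  have hloc := D.loc
  rintro y ⟨hyV, hy⟩ z ⟨hzV, hz⟩ a0 b0 ha0 hb0 hab0
  refine ⟨V.add_mem (V.smul_mem _ hyV) (V.smul_mem _ hzV), ?_⟩
  by_contra hun
  have ha0' : 0 < a0 := by
    rcases ha0.lt_or_eq with h | h
    · exact h
    · exfalso
      apply hun
      have : b0 = 1 := by linarith
      rw [← h, this, zero_smul, zero_add, one_smul]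
      exact hz
  have hb0' : 0 < b0 := by
    rcases hb0.lt_or_eq with h | h
    · exact h
    · exfalso
      apply hun
      have : a0 = 1 := by linarith
      rw [← h, this, zero_smul, add_zero, one_smul]
      exact hy
  -- enlarge the triangle
  obtain ⟨ε, hε, hyε, hzε⟩ : ∃ ε : ℝ, 0 < ε ∧ Vis dev x ((1 + ε) • y) ∧
      Vis dev x ((1 + ε) • z) := by
    have h1 : ∀ w : E, Vis dev x w → ∀ᶠ e : ℝ in 𝓝 0, Vis dev x ((1 + e) • w) := by
      intro w hw
      have hc : Tendsto (fun e : ℝ => (1 + e) • w) (𝓝 0) (𝓝 ((1 + 0 : ℝ) • w)) :=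
        (Continuous.smul (continuous_const.add continuous_id) continuous_const).continuousAt
      rw [add_zero, one_smul] at hc
      exact vis_tendsto hloc tendsto_const_nhds hc hw
    have h2 : ∀ᶠ e : ℝ in 𝓝[>] 0, Vis dev x ((1 + e) • y) ∧ Vis dev x ((1 + e) • z) :=
      ((h1 y hy).and (h1 z hz)).filter_mono nhdsWithin_le_nhds
    obtain ⟨e, he, he0⟩ := (h2.and self_mem_nhdsWithin).exists
    exact ⟨e, he0, he.1, he.2⟩
  obtain ⟨y', hy'⟩ : ∃ y', y' = (1 + ε) • y := ⟨_, rfl⟩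
  obtain ⟨z', hz'⟩ : ∃ z', z' = (1 + ε) • z := ⟨_, rfl⟩
  rw [← hy'] at hyε
  rw [← hz'] at hzε
  have hy'V : y' ∈ V := by rw [hy']; exact V.smul_mem _ hyV
  have hz'V : z' ∈ V := by rw [hz']; exact V.smul_mem _ hzV
  -- the unseen set in the plane
  obtain ⟨U, hUd⟩ : ∃ U : Set (ℝ × ℝ), U = {p | ¬ Vis dev x (p.1 • y' + p.2 • z')} := ⟨_, rfl⟩
  have hUm : ∀ a b : ℝ, (a, b) ∉ U ↔ Vis dev x (a • y' + b • z') := by
    intro a b
    rw [hUd]
    exact not_not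
  have hUc : IsClosed U := by
    have h1 : IsOpen ((fun p : ℝ × ℝ => p.1 • y' + p.2 • z') ⁻¹' {v | ∃ w, Ex dev x v w}) :=
      (ex_open x).preimage (by fun_prop)
    have h2 : U = ((fun p : ℝ × ℝ => p.1 • y' + p.2 • z') ⁻¹' {v | ∃ w, Ex dev x v w})ᶜ := by
      rw [hUd]
      rfl
    rw [h2]
    exact h1.isClosed_compl
  have h1ε : 0 < 1 + ε := by linarith
  obtain ⟨a, b, s, ha, hb, hs, habU, hf0, habs, hR⟩ := touch hUc (a0 := a0 / (1 + ε))
    (b0 := b0 / (1 + ε)) (by positivity) (by positivity)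
    (by rw [← add_div, hab0, div_lt_one h1ε]; linarith)
    (by
      rw [hUd]
      show ¬ Vis dev x ((a0 / (1 + ε)) • y' + (b0 / (1 + ε)) • z')
      rw [hy', hz', smul_smul, smul_smul, div_mul_cancel₀ _ h1ε.ne', div_mul_cancel₀ _ h1ε.ne']
      exact hun)
    (fun r hr0 hr1 => by
      rw [hUm, zero_smul, add_zero]
      exact vis_smul hyε hr0 hr1)
    (fun r hr0 hr1 => by
      rw [hUm, zero_smul, zero_add]
      exact vis_smul hzε hr0 hr1)
  have hR' : ∀ a' b' : ℝ, 0 ≤ a' → 0 ≤ b' → 0 < fc s a' b' → Vis dev x (a' • y' + b' • z') :=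
    fun a' b' h1 h2 h3 => (hUm _ _).1 (hR a' b' h1 h2 h3)
  obtain ⟨w, hw⟩ : ∃ w, w = a • y' + b • z' := ⟨_, rfl⟩
  have hFU : FU dev x w := by
    refine ⟨?_, fun t ht0 ht1 => ?_⟩
    · rw [hw]
      intro h
      exact (hUm a b).2 h habU
    · rw [hw, smul_add, smul_smul, smul_smul]
      exact hR' _ _ (by positivity) (by positivity) (fc_radius hs hf0 habs ht0 ht1)
  -- the sequence
  obtain ⟨t, htd⟩ : ∃ t : ℕ → ℝ, t = fun k : ℕ => 1 - 1 / ((k : ℝ) + 2) := ⟨_, rfl⟩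
  have ht0 : ∀ k, 1 / 2 ≤ t k := by
    intro k
    rw [htd]
    have h1 : 1 / ((k : ℝ) + 2) ≤ 1 / 2 := by
      apply one_div_le_one_div_of_le (by norm_num)
      have : (0 : ℝ) ≤ k := Nat.cast_nonneg k
      linarith
    beta_reduce
    linarith
  have ht1 : ∀ k, t k < 1 := by
    intro k
    rw [htd]
    have h1 : (0 : ℝ) < 1 / ((k : ℝ) + 2) := by positivity
    beta_reduce
    linarith
  have htl : Tendsto t atTop (𝓝 1) := by
    rw [htd]
    have h1 : Tendsto (fun k : ℕ => 1 / ((k : ℝ) + 2)) atTop (𝓝 0) := by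
      have h2 : Tendsto (fun k : ℕ => (k : ℝ) + 2) atTop atTop :=
        tendsto_atTop_add_const_right _ _ tendsto_natCast_atTop_atTop
      exact h2.inv_tendsto_atTop.congr fun k => by rw [Pi.inv_apply, one_div]
    simpa using (tendsto_const_nhds (x := (1 : ℝ))).sub h1
  obtain ⟨φ, γ, κ, z1, hφ, hκ, hγκ, hγ⟩ := mblow D hFU (t := t)
    (fun k => by linarith [ht0 k]) ht1 htl
  -- the thin directions
  obtain ⟨C, hC⟩ := hT.norm hy'V hz'V
  choose c d hc hd hcd hL s' hs' hs'n hln using fun k : ℕ => hC (γ k)⁻¹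
    (-(s + t (φ k) * b)) (-(s + t (φ k) * a))
  -- a convergent subsequence
  have hprop : ProperSpace E := FiniteDimensional.proper_real E
  have hcpt : IsCompact ((Icc (-1 : ℝ) 1 ×ˢ Icc (-1 : ℝ) 1) ×ˢ (closedBall (0 : E) C ×ˢ
      closedBall (0 : E) C)) :=
    (isCompact_Icc.prod isCompact_Icc).prod
      ((isCompact_closedBall (0 : E) C).prod (isCompact_closedBall (0 : E) C))
  obtain ⟨⟨⟨c0, d0⟩, ⟨s0, v0⟩⟩, -, ψ, hψ, hlim⟩ := hcpt.tendsto_subseq
    (x := fun k => ((c k, d k), (s' k, lin hol (γ k)⁻¹ (c k • y' + d k • z' - s' k))))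
    (fun k => ⟨⟨abs_le.1 (hc k), abs_le.1 (hd k)⟩, mem_closedBall_zero_iff.2 (hs'n k),
      mem_closedBall_zero_iff.2 (hln k)⟩)
  have hψt := hψ.tendsto_atTop
  have lc : Tendsto (fun k => c (ψ k)) atTop (𝓝 c0) :=
    (continuous_fst.comp continuous_fst).continuousAt.tendsto.comp hlim
  have ld : Tendsto (fun k => d (ψ k)) atTop (𝓝 d0) :=
    (continuous_snd.comp continuous_fst).continuousAt.tendsto.comp hlim
  have ls : Tendsto (fun k => s' (ψ k)) atTop (𝓝 s0) :=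
    (continuous_fst.comp continuous_snd).continuousAt.tendsto.comp hlim
  have lv : Tendsto (fun k => lin hol (γ (ψ k))⁻¹ (c (ψ k) • y' + d (ψ k) • z' - s' (ψ k))) atTop
      (𝓝 v0) :=
    (continuous_snd.comp continuous_snd).continuousAt.tendsto.comp hlim
  have lt : Tendsto (fun k => t (φ (ψ k))) atTop (𝓝 1) :=
    (htl.comp hφ.tendsto_atTop).comp hψt
  have hs0 : s0 ∈ S := by
    have hScl : IsClosed (S : Set E) := S.closed_of_finiteDimensional
    exact hScl.mem_of_tendsto ls (Eventually.of_forall fun k => hs' _)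
  have hcd0 : c0 ≠ 0 ∨ d0 ≠ 0 := by
    by_contra hcon
    push Not at hcon
    rw [hcon.1] at lc
    rw [hcon.2] at ld
    have h1 := lc.abs
    have h2 := ld.abs
    rw [abs_zero] at h1 h2
    obtain ⟨k, k1, k2⟩ := ((h1.eventually_lt_const one_pos).and
      (h2.eventually_lt_const one_pos)).exists
    rcases hcd (ψ k) with h3 | h3
    · linarith
    · linarith
  have hL0 : 0 ≤ -(s * (c0 + d0)) - (a * d0 + b * c0) := by
    have h1 : Tendsto (fun k => c (ψ k) * -(s + t (φ (ψ k)) * b) +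
        d (ψ k) * -(s + t (φ (ψ k)) * a)) atTop
        (𝓝 (c0 * -(s + 1 * b) + d0 * -(s + 1 * a))) :=
      (lc.mul ((lt.mul_const b).const_add s).neg).add (ld.mul ((lt.mul_const a).const_add s).neg)
    have h2 := ge_of_tendsto' h1 fun k => hL (ψ k)
    linarith
  obtain ⟨τ0, hτ0, hτf⟩ := fc_dir hs ha hb hf0 hL0 hcd0
  -- a small parameter
  have hv0 : ∀ᶠ τ : ℝ in 𝓝 0, Vis dev z1 (τ • v0) := by
    have hc : Tendsto (fun τ : ℝ => τ • v0) (𝓝 0) (𝓝 ((0 : ℝ) • v0)) :=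
      (Continuous.smul continuous_id continuous_const).continuousAt
    rw [zero_smul] at hc
    exact vis_tendsto hloc tendsto_const_nhds hc (vis_zero hloc z1)
  have hsm : ∀ᶠ τ : ℝ in 𝓝 0, τ < min τ0 (min (a / 4) (b / 4)) :=
    Iio_mem_nhds (by positivity)
  obtain ⟨τ, ⟨hτv, hτs⟩, hτp⟩ := (((hv0.and hsm).filter_mono nhdsWithin_le_nhds).and
    (self_mem_nhdsWithin (a := (0 : ℝ)) (s := Ioi 0))).exists
  have hτp' : 0 < τ := hτp
  have hτ1 : τ ≤ τ0 := (hτs.trans_le (min_le_left _ _)).le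
  have hτ2 : τ < a / 4 := hτs.trans_le ((min_le_right _ _).trans (min_le_left _ _))
  have hτ3 : τ < b / 4 := hτs.trans_le ((min_le_right _ _).trans (min_le_right _ _))
  have hfτ := hτf τ hτp' hτ1
  -- visibility near the touching point
  have hco : ∀ (T r : ℝ), 1 / 2 ≤ T → 0 ≤ r → r ≤ τ → ∀ c' d' : ℝ, |c'| ≤ 1 → |d'| ≤ 1 →
      0 ≤ T * a + r * c' ∧ 0 ≤ T * b + r * d' := by
    intro T r hT hr0 hr1 c' d' hc' hd'
    have h1 : -r ≤ r * c' := by nlinarith [(abs_le.1 hc').1]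
    have h2 : -r ≤ r * d' := by nlinarith [(abs_le.1 hd').1]
    constructor
    · nlinarith
    · nlinarith
  have hlimf : ∀ᶠ k in atTop, 0 < fc s (t (φ (ψ k)) * a + τ * c (ψ k))
      (t (φ (ψ k)) * b + τ * d (ψ k)) := by
    have h1 : Tendsto (fun k => fc s (t (φ (ψ k)) * a + τ * c (ψ k))
        (t (φ (ψ k)) * b + τ * d (ψ k))) atTop (𝓝 (fc s (1 * a + τ * c0) (1 * b + τ * d0))) := by
      have h2 : Tendsto (fun k => t (φ (ψ k)) * a + τ * c (ψ k)) atTop (𝓝 (1 * a + τ * c0)) :=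
        (lt.mul_const a).add (lc.const_mul τ)
      have h3 : Tendsto (fun k => t (φ (ψ k)) * b + τ * d (ψ k)) atTop (𝓝 (1 * b + τ * d0)) :=
        (lt.mul_const b).add (ld.const_mul τ)
      exact (((h2.const_sub 1).sub h3).const_mul s).sub (h2.mul h3)
    rw [one_mul, one_mul] at h1
    exact h1.eventually_const_lt hfτ
  -- the vectors in the first picture
  obtain ⟨v, hvd⟩ : ∃ v : ℕ → E, v = fun k => c (ψ k) • y' + d (ψ k) • z' - s' (ψ k) := ⟨_, rfl⟩
  have hvis1 : ∀ᶠ k in atTop, ∀ r ∈ Icc (0 : ℝ) 1,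
      Vis dev x (t (φ (ψ k)) • w + r • τ • v k) := by
    filter_upwards [hlimf] with k hk r hr
    have hr1 : 0 ≤ r * τ := mul_nonneg hr.1 hτp'.le
    have hr2 : r * τ ≤ τ := by nlinarith [hr.2]
    have h1 : 0 < fc s (t (φ (ψ k)) * a + (r * τ) * c (ψ k))
        (t (φ (ψ k)) * b + (r * τ) * d (ψ k)) := by
      refine fc_seg (fc_radius hs hf0 habs (by linarith [ht0 (φ (ψ k))]) (ht1 _)) ?_ hτp' hk hr1 hr2
      have := hL (ψ k)
      linarith
    obtain ⟨h2, h3⟩ := hco _ _ (ht0 (φ (ψ k))) hr1 hr2 _ _ (hc (ψ k)) (hd (ψ k))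
    have h4 := hR' _ _ h2 h3 h1
    have h5 := vis_sat hloc hS h4 (S.smul_mem (r * τ) (hs' (ψ k)))
    convert h5 using 1
    rw [hw, hvd]
    module
  have hlimu : Tendsto (fun k => t (φ (ψ k)) • w + τ • v k) atTop
      (𝓝 (w + τ • (c0 • y' + d0 • z' - s0))) := by
    have h1 : Tendsto v atTop (𝓝 (c0 • y' + d0 • z' - s0)) := by
      rw [hvd]
      exact ((lc.smul_const y').add (ld.smul_const z')).sub ls
    have h2 := (lt.smul_const w).add (h1.const_smul τ)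
    rwa [one_smul] at h2
  have hvisu : Vis dev x (w + τ • (c0 • y' + d0 • z' - s0)) := by
    have hc0 : |c0| ≤ 1 := le_of_tendsto' lc.abs fun k => hc _
    have hd0 : |d0| ≤ 1 := le_of_tendsto' ld.abs fun k => hd _
    obtain ⟨h2, h3⟩ := hco 1 τ (by norm_num) hτp'.le le_rfl _ _ hc0 hd0
    rw [one_mul] at h2 h3
    have h4 := hR' _ _ h2 h3 hfτ
    have h5 := vis_sat hloc hS h4 (S.smul_mem τ hs0)
    convert h5 using 1
    rw [hw]
    module
  have hp2 := pt_tendsto hloc (tendsto_const_nhds (x := x)) hlimu hvisu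
  -- the second picture
  have hlv : Tendsto (fun k => lin hol (γ (ψ k))⁻¹ (τ • v k)) atTop (𝓝 (τ • v0)) := by
    have h1 : ∀ k, lin hol (γ (ψ k))⁻¹ (τ • v k) = τ • lin hol (γ (ψ k))⁻¹ (v k) := fun k =>
      (hol (γ (ψ k))⁻¹).linear.map_smul _ _
    simp only [h1]
    have h2 : Tendsto (fun k => lin hol (γ (ψ k))⁻¹ (v k)) atTop (𝓝 v0) := by
      rw [hvd]
      exact lv
    exact h2.const_smul τ
  have hκ' : Tendsto (fun k => κ (ψ k)) atTop (𝓝 z1) := hκ.comp hψt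
  have hp1 := pt_tendsto hloc hκ' hlv hτv
  have hvk := vis_tendsto hloc hκ' hlv hτv
  refine finite_lin D (γ := fun k => γ (ψ k)) hp1 hp2 ?_ w (hγ.comp hψt)
  filter_upwards [hvk, hvis1] with k k1 k2
  have h1 := mex_back D (hγκ (ψ k)) k1
  have h2 : Ex dev (pt dev x (t (φ (ψ k)) • w)) (τ • v k)
      (pt dev x (t (φ (ψ k)) • w + τ • v k)) := by
    refine tri hloc (pt_spec (hFU.2 _ (by linarith [ht0 (φ (ψ k))]) (ht1 _))) fun r hr => ?_
    exact k2 r hr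
  exact h1.unique hloc h2

end

end Pool.Agent.Q185.MK
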